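import Pool.Agent.TH808.Pyr
import Pool.Agent.W570.NQ.L2
import Pool.Agent.H801R3.NS.MAIN
import Pool.Agent.W679.AM.Euclid
import Pool.Agent.H293R2.M3.All

/-!
# Known bounds for the Mahler volume
-/

set_option autoImplicit false

open MeasureTheory Set Filter Topology Matrix
open scoped ENNReal RealInnerProductSpace

namespace Pool.Agent.TH808

variable {n : ℕ}

/-- the polar body with respect to `z` -/
def plr {n : ℕ} (K : Set (Fin n → ℝ)) (z : Fin n → ℝ) : Set (Fin n → ℝ) :=
  {y | ∀ x ∈ K, (x - z) ⬝ᵥ y ≤ 1}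

lemma MZ_mah {K : Set (Fin n → ℝ)} (hK : IsCompact K) (hne : K.Nonempty) (z : Fin n → ℝ) :
    MZ K z = W570.AV.mah (W570.AV.tr z K) := by
  have h := MZ_add hK hne (-z) z
  rw [add_neg_cancel] at h
  have e : (fun x => x + -z) '' K = W570.AV.tr z K := by
    unfold W570.AV.tr
    refine image_congr fun x _ => ?_
    rw [sub_eq_add_neg]
  rw [e] at h
  rw [← h]
  unfold MZ gI W570.AV.mah su
  simp only [zero_dotProduct, zero_sub]
  rfl

lemma tr_interior {K : Set (Fin n → ℝ)} (z : Fin n → ℝ) :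
    interior (W570.AV.tr z K) = W570.AV.tr z (interior K) := by
  have h := (Homeomorph.subRight z).image_interior K
  exact h.symm

lemma zero_mem_tr {K : Set (Fin n → ℝ)} {z : Fin n → ℝ} :
    (0 : Fin n → ℝ) ∈ W570.AV.tr z K ↔ z ∈ K := by
  rw [W570.AV.mem_tr, add_zero]

/-- the Mahler volume is infinite outside the interior -/
lemma MZ_top {K : Set (Fin n → ℝ)} (hKc : IsCompact K) (hK : Convex ℝ K)
    (hi : (interior K).Nonempty) {z : Fin n → ℝ} (hz : z ∉ interior K) : MZ K z = ⊤ := by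
  rw [MZ_mah hKc (hi.mono interior_subset)]
  refine W570.NQ.mah_top ?_ ?_ ?_ ?_
  · have h1 := hK.translate (-z)
    have h2 : (fun x => -z + x) '' K = W570.AV.tr z K := by
      unfold W570.AV.tr
      refine image_congr fun x _ => ?_
      abel
    rwa [h2] at h1
  · exact hKc.image (by fun_prop)
  · rw [tr_interior]
    exact hi.image _
  · rw [tr_interior, zero_mem_tr]
    exact hz

/-- the Mahler volume in terms of the polar body -/
lemma MZ_plr {K : Set (Fin n → ℝ)} (hKc : IsCompact K) (hK : Convex ℝ K) {z : Fin n → ℝ}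
    (hz : z ∈ interior K) : MZ K z = (n.factorial : ℝ≥0∞) * (volume K * volume (plr K z)) := by
  rw [MZ_mah hKc ⟨z, interior_subset hz⟩, W570.AV.mah_eq hK hKc hz]
  have e : H845R2.polc (W570.AV.tr z K) = plr K z := by
    ext y
    constructor
    · intro h x hx
      exact h _ ⟨x, hx, rfl⟩
    · rintro h _ ⟨x, hx, rfl⟩
      exact h x hx
  rw [e]
  ring

lemma MZ_ge {K : Set (Fin n → ℝ)} (hKc : IsCompact K) (hK : Convex ℝ K)
    (hi : (interior K).Nonempty) {c : ℝ}
    (h : ∀ z ∈ interior K, c / n.factorial ≤ (volume K).toReal * (volume (plr K z)).toReal)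
    (z : Fin n → ℝ) : ENNReal.ofReal c ≤ MZ K z := by
  by_cases hz : z ∈ interior K
  · rw [MZ_plr hKc hK hz]
    have h1 := h z hz
    have hf : (0:ℝ) < n.factorial := by positivity
    rw [div_le_iff₀ hf] at h1
    calc ENNReal.ofReal c ≤ ENNReal.ofReal ((n.factorial : ℝ) *
          ((volume K).toReal * (volume (plr K z)).toReal)) :=
          ENNReal.ofReal_le_ofReal (by linarith)
      _ = (n.factorial : ℝ≥0∞) * (ENNReal.ofReal (volume K).toReal *
          ENNReal.ofReal (volume (plr K z)).toReal) := by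
          rw [ENNReal.ofReal_mul hf.le, ENNReal.ofReal_mul ENNReal.toReal_nonneg,
            ENNReal.ofReal_natCast]
      _ ≤ _ := by
          gcongr
          · exact ENNReal.ofReal_toReal_le
          · exact ENNReal.ofReal_toReal_le
  · rw [MZ_top hKc hK hi hz]
    exact le_top

/-! ### Euclidean coordinates -/

/-- the same set in the Euclidean space -/
def toE (K : Set (Fin n → ℝ)) : Set (EuclideanSpace ℝ (Fin n)) := WithLp.ofLp ⁻¹' K

lemma cont_ofLp : Continuous (WithLp.ofLp : EuclideanSpace ℝ (Fin n) → (Fin n → ℝ)) :=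
  PiLp.continuous_ofLp 2 _

lemma cont_toLp : Continuous (WithLp.toLp 2 : (Fin n → ℝ) → EuclideanSpace ℝ (Fin n)) :=
  PiLp.continuous_toLp 2 _

lemma toE_img (K : Set (Fin n → ℝ)) : toE K = WithLp.toLp 2 '' K := by
  ext x
  constructor
  · intro hx
    exact ⟨WithLp.ofLp x, hx, rfl⟩
  · rintro ⟨y, hy, rfl⟩
    exact hy

lemma toE_compact {K : Set (Fin n → ℝ)} (hK : IsCompact K) : IsCompact (toE K) := by
  rw [toE_img]
  exact hK.image cont_toLp

lemma toE_convex {K : Set (Fin n → ℝ)} (hK : Convex ℝ K) : Convex ℝ (toE K) :=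
  hK.linear_preimage (WithLp.linearEquiv 2 ℝ (Fin n → ℝ)).toLinearMap

lemma toE_interior {K : Set (Fin n → ℝ)} {z : Fin n → ℝ} (hz : z ∈ interior K) :
    WithLp.toLp 2 z ∈ interior (toE K) :=
  preimage_interior_subset_interior_preimage cont_ofLp hz

lemma toE_vol {K : Set (Fin n → ℝ)} (hK : MeasurableSet K) : volume (toE K) = volume K :=
  (PiLp.volume_preserving_ofLp (Fin n)).measure_preimage hK.nullMeasurableSet

lemma plr_closed (K : Set (Fin n → ℝ)) (z : Fin n → ℝ) : IsClosed (plr K z) := by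
  have : plr K z = ⋂ x ∈ K, {y | (x - z) ⬝ᵥ y ≤ 1} := by
    ext y
    simp [plr]
  rw [this]
  exact isClosed_biInter fun x _ => isClosed_le (by fun_prop) continuous_const

lemma toE_plr (K : Set (Fin n → ℝ)) (z : Fin n → ℝ) :
    {y : EuclideanSpace ℝ (Fin n) | ∀ x ∈ toE K, ⟪x - WithLp.toLp 2 z, y⟫ ≤ 1} =
      toE (plr K z) := by
  ext y
  have key : ∀ x : Fin n → ℝ, ⟪WithLp.toLp 2 x - WithLp.toLp 2 z, y⟫ =
      (x - z) ⬝ᵥ WithLp.ofLp y := by
    intro x
    rw [EuclideanSpace.inner_eq_star_dotProduct, star_trivial, dotProduct_comm]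
    rfl
  constructor
  · intro h x hx
    have := h (WithLp.toLp 2 x) hx
    rw [key] at this
    exact this
  · intro h x hx
    have := h (WithLp.ofLp x) hx
    rw [← key] at this
    exact this

/-- every convex body -/
theorem any_bd {K : Set (Fin n → ℝ)} (hKc : IsCompact K) (hK : Convex ℝ K)
    (hi : (interior K).Nonempty) (z : Fin n → ℝ) : ENNReal.ofReal ((5 / 2) ^ n) ≤ MZ K z := by
  refine MZ_ge hKc hK hi (fun z hz => ?_) z
  have hNB := W570.AV.tr_NB hK hKc hz
  have h := H801NS.main n (W570.AV.tr z K) ⟨hNB.comp, hNB.conv, hNB.zero⟩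
  have e : H801NS.pol (W570.AV.tr z K) = plr K z := by
    ext y
    constructor
    · intro h x hx
      exact h _ ⟨x, hx, rfl⟩
    · rintro h _ ⟨x, hx, rfl⟩
      exact h x hx
  rw [e, Measure.real, Measure.real, W570.AV.vol_tr] at h
  exact h

/-- bodies of bounded asymmetry -/
theorem asym_bd {K : Set (Fin n → ℝ)} (hKc : IsCompact K) (hK : Convex ℝ K)
    (hi : (interior K).Nonempty) {lam : ℝ} (hl : 0 < lam) {c : Fin n → ℝ}
    (hsym : ∀ x ∈ K, c - lam⁻¹ • (x - c) ∈ K) (z : Fin n → ℝ) :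
    ENNReal.ofReal ((2 + 2 / lam) ^ n) ≤ MZ K z := by
  refine MZ_ge hKc hK hi (fun z hz => ?_) z
  have h := W679AM.asym_bound (toE_compact hKc) (toE_convex hK) (toE_interior hz) hl
    (c := WithLp.toLp 2 c) (fun x hx => hsym _ hx)
  unfold W679AM.plz at h
  rw [toE_plr, Measure.real, Measure.real, toE_vol hKc.measurableSet,
    toE_vol (plr_closed K z).measurableSet] at h
  exact h

/-- dimension three -/
theorem three {K : Set (Fin 3 → ℝ)} (hKc : IsCompact K) (hK : Convex ℝ K)
    (hi : (interior K).Nonempty) (z : Fin 3 → ℝ) : ENNReal.ofReal (sv 3) ≤ MZ K z := by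
  refine MZ_ge hKc hK hi (fun z hz => ?_) z
  have h := H293M.all (toE K) (toE_compact hKc) (toE_convex hK) _ (toE_interior hz)
  rw [toE_plr, toE_vol hKc.measurableSet, toE_vol (plr_closed K z).measurableSet] at h
  refine le_trans (le_of_eq ?_) h
  unfold sv
  norm_num [Nat.factorial]

theorem two' {K : Set (Fin 2 → ℝ)} (hKc : IsCompact K) (hK : Convex ℝ K)
    (hi : (interior K).Nonempty) (z : Fin 2 → ℝ) : ENNReal.ofReal (sv 2) ≤ MZ K z :=
  descend (k := 2) (fun _ h1 h2 h3 z => three h1 h2 h3 z) hKc hK hi z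

theorem one' {K : Set (Fin 1 → ℝ)} (hKc : IsCompact K) (hK : Convex ℝ K)
    (hi : (interior K).Nonempty) (z : Fin 1 → ℝ) : ENNReal.ofReal (sv 1) ≤ MZ K z :=
  descend (k := 1) (fun _ h1 h2 h3 z => two' h1 h2 h3 z) hKc hK hi z

theorem zero' {K : Set (Fin 0 → ℝ)} (hKc : IsCompact K) (hK : Convex ℝ K)
    (hi : (interior K).Nonempty) (z : Fin 0 → ℝ) : ENNReal.ofReal (sv 0) ≤ MZ K z :=
  descend (k := 0) (fun _ h1 h2 h3 z => one' h1 h2 h3 z) hKc hK hi z

/-- dimension at most three -/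
theorem low (hn : n ≤ 3) {K : Set (Fin n → ℝ)} (hKc : IsCompact K) (hK : Convex ℝ K)
    (hi : (interior K).Nonempty) (z : Fin n → ℝ) : ENNReal.ofReal (sv n) ≤ MZ K z := by
  rcases (show n = 0 ∨ n = 1 ∨ n = 2 ∨ n = 3 by omega) with rfl | rfl | rfl | rfl
  · exact zero' hKc hK hi z
  · exact one' hKc hK hi z
  · exact two' hKc hK hi z
  · exact three hKc hK hi z

end Pool.Agent.TH808
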