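import Mathlib

/-!
# A covariance inequality for convex functions on the half line

If `a₁`, `a₂` are convex on `(0, ∞)`, and `a₁` is uncorrelated with `x` for the density `φ`,
then `a₁` and `a₂` are nonnegatively correlated.
-/

set_option autoImplicit false

open MeasureTheory Set

namespace Pool.Agent.TH808

/-- the chord inequality inside -/
lemma chord_in {f : ℝ → ℝ} (hf : ConvexOn ℝ (Ioi 0) f) {x1 x2 x : ℝ} (h1 : 0 < x1)
    (h12 : x1 < x2) (hx1 : x1 ≤ x) (hx2 : x ≤ x2) :
    f x * (x2 - x1) ≤ f x1 * (x2 - x) + f x2 * (x - x1) := by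
  rcases hx1.eq_or_lt with h | h
  · subst h; linarith
  rcases hx2.eq_or_lt with h' | h'
  · subst h'; linarith
  have := hf.slope_mono_adjacent (x := x1) (y := x) (z := x2) h1 (h1.trans h12) h h'
  rw [div_le_div_iff₀ (by linarith) (by linarith)] at this
  nlinarith

/-- the chord inequality on the right -/
lemma chord_right {f : ℝ → ℝ} (hf : ConvexOn ℝ (Ioi 0) f) {x1 x2 x : ℝ} (h1 : 0 < x1)
    (h12 : x1 < x2) (hx2 : x2 ≤ x) :
    f x1 * (x2 - x) + f x2 * (x - x1) ≤ f x * (x2 - x1) := by
  rcases hx2.eq_or_lt with h' | h'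
  · subst h'; linarith
  have := hf.slope_mono_adjacent (x := x1) (y := x2) (z := x) h1 (h1.trans (h12.trans h')) h12 h'
  rw [div_le_div_iff₀ (by linarith) (by linarith)] at this
  nlinarith

/-- the chord inequality on the left -/
lemma chord_left {f : ℝ → ℝ} (hf : ConvexOn ℝ (Ioi 0) f) {x1 x2 x : ℝ} (h0 : 0 < x)
    (h12 : x1 < x2) (hx1 : x ≤ x1) :
    f x1 * (x2 - x) + f x2 * (x - x1) ≤ f x * (x2 - x1) := by
  rcases hx1.eq_or_lt with h' | h'
  · subst h'; linarith
  have := hf.slope_mono_adjacent (x := x) (y := x1) (z := x2) h0 (h0.trans (h'.trans h12)) h' h12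
  rw [div_le_div_iff₀ (by linarith) (by linarith)] at this
  nlinarith

/-- a nonnegative function with zero integral is not positive on an interval -/
lemma no_pos {F : ℝ → ℝ} (hF : ∀ x, 0 < x → 0 ≤ F x) (hi : IntegrableOn F (Ioi 0))
    (h0 : ∫ x in Ioi (0:ℝ), F x = 0) {u v : ℝ} (hu : 0 ≤ u) (huv : u < v)
    (hpos : ∀ x, u < x → x < v → 0 < F x) : False := by
  have hnn : 0 ≤ᵐ[volume.restrict (Ioi (0:ℝ))] F := by
    refine (ae_restrict_iff' measurableSet_Ioi).2 (Filter.Eventually.of_forall fun x hx => hF x hx)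
  have h1 := (setIntegral_eq_zero_iff_of_nonneg_ae hnn hi).1 h0
  have h2 : (volume.restrict (Ioi (0:ℝ))) (Ioo u v) = 0 := by
    refine measure_mono_null ?_ (ae_iff.1 h1)
    intro x hx
    exact (hpos x hx.1 hx.2).ne'
  have h3 : Ioo u v ∩ Ioi (0:ℝ) = Ioo u v :=
    inter_eq_left.2 (fun x hx => lt_of_le_of_lt hu hx.1)
  rw [Measure.restrict_apply measurableSet_Ioo, h3, Real.volume_Ioo, ENNReal.ofReal_eq_zero] at h2
  linarith

/-- a convex function orthogonal to the affine functions has the sign pattern `+ - +`; a second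
convex function minus a suitable affine function has the same signs -/
lemma same_sign {φ g a : ℝ → ℝ} (hφ : ∀ x, 0 < x → 0 < φ x) (hg : ConvexOn ℝ (Ioi 0) g)
    (ha : ConvexOn ℝ (Ioi 0) a) (hi0 : IntegrableOn (fun x => g x * φ x) (Ioi 0))
    (hi1 : IntegrableOn (fun x => x * (g x * φ x)) (Ioi 0))
    (h0 : ∫ x in Ioi (0:ℝ), g x * φ x = 0) (h1 : ∫ x in Ioi (0:ℝ), x * (g x * φ x) = 0) :
    ∃ α β : ℝ, ∀ x, 0 < x → 0 ≤ g x * (a x - (α * x + β)) := by
  have hgc : ContinuousOn g (Ioi 0) := hg.continuousOn isOpen_Ioi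
  have hlin : ∀ c : ℝ, IntegrableOn (fun x => (x - c) * (g x * φ x)) (Ioi 0) ∧
      ∫ x in Ioi (0:ℝ), (x - c) * (g x * φ x) = 0 := by
    intro c
    have e : (fun x => (x - c) * (g x * φ x)) = fun x => x * (g x * φ x) - c * (g x * φ x) := by
      funext x; ring
    rw [e]
    refine ⟨hi1.sub (hi0.const_mul c), ?_⟩
    rw [integral_sub hi1 (hi0.const_mul c), integral_const_mul, h0, h1]
    ring
  by_cases hz : ∀ x, 0 < x → g x = 0
  · exact ⟨0, 0, fun x hx => by rw [hz x hx]; simp⟩
  push Not at hz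
  obtain ⟨x0, hx0, hgx0⟩ := hz
  -- a negative point
  have hneg : ∃ y0, 0 < y0 ∧ g y0 < 0 := by
    by_contra hcon
    push Not at hcon
    have hp : 0 < g x0 := lt_of_le_of_ne (hcon x0 hx0) (Ne.symm hgx0)
    have hev : ∀ᶠ x in nhds x0, 0 < g x :=
      (hgc.continuousAt (Ioi_mem_nhds hx0)).eventually (lt_mem_nhds hp)
    obtain ⟨ε, hε, hball⟩ := Metric.eventually_nhds_iff.1 (hev.and (Ioi_mem_nhds hx0))
    refine no_pos (F := fun x => g x * φ x) (fun x hx => mul_nonneg (hcon x hx) (hφ x hx).le) hi0 h0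
      (u := x0) (v := x0 + ε) hx0.le (by linarith) ?_
    intro x hx hx'
    have := hball (y := x) (by rw [Real.dist_eq, abs_lt]; constructor <;> linarith)
    exact mul_pos this.1 (hφ x this.2)
  obtain ⟨y0, hy0, hgy0⟩ := hneg
  -- sign propagation
  by_cases hL : ∃ p, 0 < p ∧ p < y0 ∧ 0 ≤ g p
  · obtain ⟨p, hp0, hpy, hgp⟩ := hL
    -- root on the left
    obtain ⟨x1, hx1, hgx1⟩ : ∃ x1 ∈ Icc p y0, g x1 = 0 := by
      have hc : ContinuousOn g (Icc p y0) := hgc.mono fun x hx => lt_of_lt_of_le hp0 hx.1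
      have := intermediate_value_Icc' hpy.le hc
      exact this ⟨hgy0.le, hgp⟩
    have hx1p : 0 < x1 := lt_of_lt_of_le hp0 hx1.1
    have hx1y : x1 < y0 := lt_of_le_of_ne hx1.2 (by rintro rfl; linarith)
    by_cases hR : ∃ q, y0 < q ∧ 0 ≤ g q
    · obtain ⟨q, hyq, hgq⟩ := hR
      obtain ⟨x2, hx2, hgx2⟩ : ∃ x2 ∈ Icc y0 q, g x2 = 0 := by
        have hc : ContinuousOn g (Icc y0 q) := hgc.mono fun x hx => lt_of_lt_of_le hy0 hx.1
        have := intermediate_value_Icc hyq.le hc
        exact this ⟨hgy0.le, hgq⟩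
      have hx2y : y0 < x2 := lt_of_le_of_ne hx2.1 (by rintro rfl; linarith)
      have h12 : x1 < x2 := hx1y.trans hx2y
      have hd : 0 < x2 - x1 := by linarith
      refine ⟨(a x2 - a x1) / (x2 - x1), (a x1 * x2 - a x2 * x1) / (x2 - x1), fun x hx => ?_⟩
      have e : a x - ((a x2 - a x1) / (x2 - x1) * x + (a x1 * x2 - a x2 * x1) / (x2 - x1)) =
          (a x * (x2 - x1) - (a x1 * (x2 - x) + a x2 * (x - x1))) / (x2 - x1) := by
        field_simp; ring
      rw [e]
      rcases le_total x x1 with h | h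
      · have hA := chord_left ha hx h12 h
        have hG := chord_left hg hx h12 h
        rw [hgx1, hgx2] at hG
        have hg' : 0 ≤ g x := by
          by_contra hc
          push Not at hc
          nlinarith
        exact mul_nonneg hg' (div_nonneg (by linarith) hd.le)
      rcases le_total x x2 with h' | h'
      · have hA := chord_in ha hx1p h12 h h'
        have hG := chord_in hg hx1p h12 h h'
        rw [hgx1, hgx2] at hG
        have hg' : g x ≤ 0 := by
          by_contra hc
          push Not at hc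
          nlinarith
        exact mul_nonneg_of_nonpos_of_nonpos hg' (div_nonpos_of_nonpos_of_nonneg (by linarith) hd.le)
      · have hA := chord_right ha hx1p h12 h'
        have hG := chord_right hg hx1p h12 h'
        rw [hgx1, hgx2] at hG
        have hg' : 0 ≤ g x := by
          by_contra hc
          push Not at hc
          nlinarith
        exact mul_nonneg hg' (div_nonneg (by linarith) hd.le)
    · -- negative on the right
      exfalso
      push Not at hR
      have hsgn : ∀ x, 0 < x → 0 ≤ (x - x1) * (g x * φ x) * (-1) := by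
        intro x hx
        have hφx := hφ x hx
        rcases le_total x x1 with h | h
        · have hG := chord_left hg hx hx1y h
          rw [hgx1] at hG
          have hg' : 0 ≤ g x := by
            by_contra hc
            push Not at hc
            nlinarith
          nlinarith [mul_nonneg hg' hφx.le]
        · have hg' : g x ≤ 0 := by
            rcases le_or_gt x y0 with h' | h'
            · have hG := chord_in hg hx1p hx1y h h'
              rw [hgx1] at hG
              by_contra hc
              push Not at hc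
              nlinarith
            · exact (hR x h').le
          nlinarith [mul_nonneg (neg_nonneg.2 hg') hφx.le]
      obtain ⟨hli, hl0⟩ := hlin x1
      refine no_pos (F := fun x => (x - x1) * (g x * φ x) * (-1)) hsgn (hli.mul_const (-1)) ?_
        (u := y0) (v := y0 + 1) hy0.le (by linarith) ?_
      · rw [integral_mul_const, hl0]; simp
      · intro x hx _
        have h1 := hR x hx
        have h2 := hφ x (hy0.trans hx)
        have h3 : 0 < x - x1 := by linarith
        have h4 : 0 < (x - x1) * (-g x * φ x) := mul_pos h3 (mul_pos (by linarith) h2)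
        nlinarith
  · push Not at hL
    exfalso
    by_cases hR : ∃ q, y0 < q ∧ 0 ≤ g q
    · obtain ⟨q, hyq, hgq⟩ := hR
      obtain ⟨x2, hx2, hgx2⟩ : ∃ x2 ∈ Icc y0 q, g x2 = 0 := by
        have hc : ContinuousOn g (Icc y0 q) := hgc.mono fun x hx => lt_of_lt_of_le hy0 hx.1
        have := intermediate_value_Icc hyq.le hc
        exact this ⟨hgy0.le, hgq⟩
      have hx2y : y0 < x2 := lt_of_le_of_ne hx2.1 (by rintro rfl; linarith)
      have hsgn : ∀ x, 0 < x → 0 ≤ (x - x2) * (g x * φ x) := by
        intro x hx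
        have hφx := hφ x hx
        rcases le_total x x2 with h | h
        · have hg' : g x ≤ 0 := by
            rcases le_or_gt y0 x with h' | h'
            · have hG := chord_in hg hy0 hx2y h' h
              rw [hgx2] at hG
              by_contra hc
              push Not at hc
              nlinarith
            · exact (hL x hx h').le
          nlinarith [mul_nonneg (neg_nonneg.2 hg') hφx.le]
        · have hG := chord_right hg hy0 hx2y h
          rw [hgx2] at hG
          have hg' : 0 ≤ g x := by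
            by_contra hc
            push Not at hc
            nlinarith
          nlinarith [mul_nonneg hg' hφx.le]
      obtain ⟨hli, hl0⟩ := hlin x2
      refine no_pos (F := fun x => (x - x2) * (g x * φ x)) hsgn hli hl0
        (u := 0) (v := y0) le_rfl hy0 ?_
      intro x hx hx'
      have h1 := hL x hx hx'
      have h2 := hφ x hx
      have h3 : 0 < x2 - x := by linarith
      have h4 : 0 < (x2 - x) * (-g x * φ x) := mul_pos h3 (mul_pos (by linarith) h2)
      nlinarith
    · push Not at hR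
      refine no_pos (F := fun x => g x * φ x * (-1)) ?_ (hi0.mul_const (-1)) ?_
        (u := y0) (v := y0 + 1) hy0.le (by linarith) ?_
      · intro x hx
        have hg' : g x ≤ 0 := by
          rcases lt_trichotomy x y0 with h | h | h
          · exact (hL x hx h).le
          · rw [h]; exact hgy0.le
          · exact (hR x h).le
        nlinarith [mul_nonneg (neg_nonneg.2 hg') (hφ x hx).le]
      · rw [integral_mul_const, h0]; simp
      · intro x hx _
        have h1 := hR x hx
        have h2 := hφ x (hy0.trans hx)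
        have h4 : 0 < (-g x * φ x) := mul_pos (by linarith) h2
        nlinarith

/-- **Covariance inequality.** -/
theorem cov {φ a1 a2 : ℝ → ℝ} {M : ℝ} (hφ : ∀ x, 0 < x → 0 < φ x)
    (h1 : ConvexOn ℝ (Ioi 0) a1) (h2 : ConvexOn ℝ (Ioi 0) a2) (h1p : ∀ x, 0 < x → 0 < a1 x)
    (h2p : ∀ x, 0 < x → 0 < a2 x) (hφm : AEStronglyMeasurable φ (volume.restrict (Ioi 0)))
    (i0 : IntegrableOn φ (Ioi 0)) (i1 : IntegrableOn (fun x => x * φ x) (Ioi 0))
    (j0 : IntegrableOn (fun x => a1 x * φ x) (Ioi 0))
    (j1 : IntegrableOn (fun x => x * (a1 x * φ x)) (Ioi 0))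
    (k0 : IntegrableOn (fun x => a1 x * a2 x * φ x) (Ioi 0))
    (hM : ∫ x in Ioi (0:ℝ), x * φ x = M * ∫ x in Ioi (0:ℝ), φ x)
    (hC : ∫ x in Ioi (0:ℝ), x * (a1 x * φ x) = M * ∫ x in Ioi (0:ℝ), a1 x * φ x) :
    IntegrableOn (fun x => a2 x * φ x) (Ioi 0) ∧
      (∫ x in Ioi (0:ℝ), a1 x * φ x) * (∫ x in Ioi (0:ℝ), a2 x * φ x) ≤
        (∫ x in Ioi (0:ℝ), φ x) * ∫ x in Ioi (0:ℝ), a1 x * a2 x * φ x := by
  set Z := ∫ x in Ioi (0:ℝ), φ x with hZ
  set A := ∫ x in Ioi (0:ℝ), a1 x * φ x with hA
  have hpos : ∀ F : ℝ → ℝ, (∀ x, 0 < x → 0 < F x) → IntegrableOn F (Ioi 0) →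
      0 < ∫ x in Ioi (0:ℝ), F x := by
    intro F hF hFi
    have h0 : 0 ≤ ∫ x in Ioi (0:ℝ), F x := setIntegral_nonneg measurableSet_Ioi fun x hx => (hF x hx).le
    rcases h0.eq_or_lt with h | h
    · exact (no_pos (fun x hx => (hF x hx).le) hFi h.symm (u := 0) (v := 1) le_rfl one_pos
        (fun x hx _ => hF x hx)).elim
    · exact h
  have hZ0 : 0 < Z := hpos φ hφ i0
  have hA0 : 0 < A := hpos _ (fun x hx => mul_pos (h1p x hx) (hφ x hx)) j0
  set e : ℝ := A / Z with he
  have he0 : 0 < e := div_pos hA0 hZ0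
  set g : ℝ → ℝ := fun x => a1 x - e with hg
  have hgconv : ConvexOn ℝ (Ioi 0) g := by
    have := h1.add (convexOn_const (-e) (convex_Ioi (0:ℝ)))
    refine this.congr fun x _ => ?_
    simp [hg, sub_eq_add_neg]
  have hi0 : IntegrableOn (fun x => g x * φ x) (Ioi 0) := by
    have : (fun x => g x * φ x) = fun x => a1 x * φ x - e * φ x := by funext x; simp only [hg]; ring
    rw [this]
    exact j0.sub (i0.const_mul e)
  have hi1 : IntegrableOn (fun x => x * (g x * φ x)) (Ioi 0) := by
    have : (fun x => x * (g x * φ x)) = fun x => x * (a1 x * φ x) - e * (x * φ x) := by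
      funext x; simp only [hg]; ring
    rw [this]
    exact j1.sub (i1.const_mul e)
  have h0 : ∫ x in Ioi (0:ℝ), g x * φ x = 0 := by
    have : (fun x => g x * φ x) = fun x => a1 x * φ x - e * φ x := by funext x; simp only [hg]; ring
    rw [this, integral_sub j0 (i0.const_mul e), integral_const_mul, ← hA, ← hZ, he]
    field_simp
    ring
  have h1' : ∫ x in Ioi (0:ℝ), x * (g x * φ x) = 0 := by
    have : (fun x => x * (g x * φ x)) = fun x => x * (a1 x * φ x) - e * (x * φ x) := by
      funext x; simp only [hg]; ring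
    rw [this, integral_sub j1 (i1.const_mul e), integral_const_mul, hM, hC, he]
    field_simp
    ring
  obtain ⟨α, β, hs⟩ := same_sign hφ hgconv h2 hi0 hi1 h0 h1'
  -- the comparison function
  set R : ℝ → ℝ := fun x => a1 x * a2 x * φ x - (α * (x * (g x * φ x)) + β * (g x * φ x)) with hR
  have hRi : IntegrableOn R (Ioi 0) := k0.sub ((hi1.const_mul α).add (hi0.const_mul β))
  have hle : ∀ x, 0 < x → e * (a2 x * φ x) ≤ R x := by
    intro x hx
    have := mul_nonneg (hs x hx) (hφ x hx).le
    simp only [hR, hg] at this ⊢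
    nlinarith
  have ha2c : ContinuousOn a2 (Ioi 0) := h2.continuousOn isOpen_Ioi
  have ha2m : AEStronglyMeasurable (fun x => a2 x * φ x) (volume.restrict (Ioi 0)) :=
    (ha2c.aestronglyMeasurable measurableSet_Ioi).mul hφm
  have hint : IntegrableOn (fun x => a2 x * φ x) (Ioi 0) := by
    refine Integrable.mono' (g := fun x => e⁻¹ * R x) (hRi.const_mul e⁻¹) ha2m ?_
    refine (ae_restrict_iff' measurableSet_Ioi).2 (Filter.Eventually.of_forall fun x hx => ?_)
    have hx0 : (0:ℝ) < x := hx
    rw [Real.norm_eq_abs, abs_of_nonneg (mul_pos (h2p x hx0) (hφ x hx0)).le]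
    have := hle x hx0
    rw [inv_mul_eq_div, le_div_iff₀ he0]
    linarith
  refine ⟨hint, ?_⟩
  have hfin : e * ∫ x in Ioi (0:ℝ), a2 x * φ x ≤ ∫ x in Ioi (0:ℝ), a1 x * a2 x * φ x := by
    have h3 : ∫ x in Ioi (0:ℝ), e * (a2 x * φ x) ≤ ∫ x in Ioi (0:ℝ), R x :=
      setIntegral_mono_on (hint.const_mul e) hRi measurableSet_Ioi fun x hx => hle x hx
    rw [integral_const_mul] at h3
    refine h3.trans (le_of_eq ?_)
    simp only [hR]
    have e1 : ∫ x in Ioi (0:ℝ), (α * (x * (g x * φ x)) + β * (g x * φ x)) = 0 := by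
      rw [integral_add (hi1.const_mul α) (hi0.const_mul β), integral_const_mul, integral_const_mul,
        h0, h1']
      ring
    have hI : IntegrableOn (fun x => α * (x * (g x * φ x)) + β * (g x * φ x)) (Ioi 0) :=
      (hi1.const_mul α).add (hi0.const_mul β)
    rw [integral_sub k0 hI, e1, sub_zero]
  have hAe : A = e * Z := by rw [he]; field_simp
  rw [hAe]
  calc e * Z * ∫ x in Ioi (0:ℝ), a2 x * φ x = Z * (e * ∫ x in Ioi (0:ℝ), a2 x * φ x) := by ring
    _ ≤ _ := by gcongr

end Pool.Agent.TH808
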