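import Pool.Agent.TH808.OneE
import Pool.Agent.H212R2.KLS.T1

/-!
# The dual integral of a free sum
-/

set_option autoImplicit false

open MeasureTheory Set Filter Topology Matrix
open scoped ENNReal

namespace Pool.Agent.TH808

/-- nonnegative continuous sublinear functions -/
structure SL {n : ℕ} (h : (Fin n → ℝ) → ℝ) : Prop where
  nonneg : ∀ u, 0 ≤ h u
  cont : Continuous h
  add : ∀ u v, h (u + v) ≤ h u + h v
  smul : ∀ (t : ℝ) (u : Fin n → ℝ), 0 ≤ t → h (t • u) = t * h u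

lemma SL.zero {n : ℕ} {h : (Fin n → ℝ) → ℝ} (hh : SL h) : h 0 = 0 := by
  have := hh.smul 0 0 le_rfl
  simpa using this

/-- `∫ exp(a·u - h(u)) du` -/
noncomputable def gI {n : ℕ} (h : (Fin n → ℝ) → ℝ) (a : Fin n → ℝ) : ℝ≥0∞ :=
  ∫⁻ u : Fin n → ℝ, ENNReal.ofReal (Real.exp (a ⬝ᵥ u - h u))

/-- kernel -/
noncomputable def ww {n : ℕ} (h : (Fin n → ℝ) → ℝ) (a u : Fin n → ℝ) (τ : ℝ) : ℝ≥0∞ :=
  if h u < τ then ENNReal.ofReal (Real.exp (a ⬝ᵥ u)) else 0

/-- `∫_{h < τ} exp(a·u) du` -/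
noncomputable def GT {n : ℕ} (h : (Fin n → ℝ) → ℝ) (a : Fin n → ℝ) (τ : ℝ) : ℝ≥0∞ :=
  ∫⁻ u : Fin n → ℝ, ww h a u τ

variable {n k l : ℕ}

lemma ww_meas {h : (Fin n → ℝ) → ℝ} (hh : Measurable h) (a : Fin n → ℝ) :
    Measurable (fun p : (Fin n → ℝ) × ℝ => ww h a p.1 p.2) := by
  unfold ww
  refine Measurable.ite (measurableSet_lt (hh.comp measurable_fst) measurable_snd) ?_
    measurable_const
  have h1 : Continuous fun p : (Fin n → ℝ) × ℝ => a ⬝ᵥ p.1 := by fun_prop
  exact (Real.measurable_exp.comp h1.measurable).ennreal_ofReal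

lemma ww_meas1 {h : (Fin n → ℝ) → ℝ} (hh : Measurable h) (a : Fin n → ℝ) (τ : ℝ) :
    Measurable (fun u => ww h a u τ) :=
  (ww_meas hh a).comp (measurable_id.prodMk measurable_const)

lemma ww_meas2 {h : (Fin n → ℝ) → ℝ} (hh : Measurable h) (a u : Fin n → ℝ) :
    Measurable (fun τ => ww h a u τ) :=
  (ww_meas hh a).comp (measurable_const.prodMk measurable_id)

lemma GT_meas {h : (Fin n → ℝ) → ℝ} (hh : Measurable h) (a : Fin n → ℝ) :
    Measurable (GT h a) := by
  have h1 : Measurable (fun p : ℝ × (Fin n → ℝ) => ww h a p.2 p.1) :=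
    (ww_meas hh a).comp measurable_swap
  exact h1.lintegral_prod_right'

lemma GT_mono {h : (Fin n → ℝ) → ℝ} (a : Fin n → ℝ) : Monotone (GT h a) := by
  intro x y hxy
  refine lintegral_mono fun u => ?_
  unfold ww
  by_cases h1 : h u < x
  · rw [if_pos h1, if_pos (h1.trans_le hxy)]
  · rw [if_neg h1]; exact zero_le

lemma exp_tail {c θ : ℝ} (hθ : 0 < θ) :
    ∫⁻ τ in Ioi c, ENNReal.ofReal (Real.exp (-θ * τ)) =
      ENNReal.ofReal (Real.exp (-θ * c) / θ) := by
  have hneg : -θ < 0 := by linarith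
  rw [← ofReal_integral_eq_lintegral_ofReal (integrableOn_exp_mul_Ioi hneg c)
    (Eventually.of_forall fun x => (Real.exp_pos _).le), integral_exp_mul_Ioi hneg]
  congr 1
  field_simp

lemma GT_pos {h : (Fin n → ℝ) → ℝ} (hh : SL h) (a : Fin n → ℝ) {τ : ℝ} (hτ : 0 < τ) :
    0 < GT h a τ := by
  have hopen : IsOpen {u | h u < τ} := isOpen_lt hh.cont continuous_const
  have hne : ({u | h u < τ} : Set (Fin n → ℝ)).Nonempty := ⟨0, by
    show h 0 < τ
    rw [hh.zero]; exact hτ⟩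
  have hv : 0 < volume {u | h u < τ} := hopen.measure_pos _ hne
  unfold GT
  rw [lintegral_pos_iff_support (ww_meas1 hh.cont.measurable a τ)]
  refine hv.trans_le (measure_mono ?_)
  intro u hu
  rw [Function.mem_support]
  unfold ww
  rw [if_pos (show h u < τ from hu)]
  have := Real.exp_pos (a ⬝ᵥ u)
  simpa using this

/-- Laplace transform of `GT` -/
lemma lap {h : (Fin n → ℝ) → ℝ} (hh : SL h) (a : Fin n → ℝ) {θ : ℝ} (hθ : 0 < θ) :
    ∫⁻ τ in Ioi (0:ℝ), ENNReal.ofReal (Real.exp (-θ * τ)) * GT h a τ =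
      ENNReal.ofReal ((θ ^ (n + 1))⁻¹) * gI h (θ⁻¹ • a) := by
  have hm : Measurable h := hh.cont.measurable
  have he : Measurable (fun τ : ℝ => ENNReal.ofReal (Real.exp (-θ * τ))) :=
    (Real.measurable_exp.comp (measurable_const.mul measurable_id)).ennreal_ofReal
  -- Tonelli
  have h1 : ∫⁻ τ in Ioi (0:ℝ), ENNReal.ofReal (Real.exp (-θ * τ)) * GT h a τ =
      ∫⁻ u : Fin n → ℝ, ∫⁻ τ in Ioi (0:ℝ), ENNReal.ofReal (Real.exp (-θ * τ)) * ww h a u τ := by
    rw [lintegral_lintegral_swap]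
    · refine lintegral_congr fun τ => ?_
      unfold GT
      rw [lintegral_const_mul _ (ww_meas1 hm a τ)]
    · exact ((he.comp measurable_snd).mul (ww_meas hm a)).aemeasurable
  rw [h1]
  have h2 : ∀ u : Fin n → ℝ, ∫⁻ τ in Ioi (0:ℝ), ENNReal.ofReal (Real.exp (-θ * τ)) * ww h a u τ =
      ENNReal.ofReal θ⁻¹ * ENNReal.ofReal (Real.exp (a ⬝ᵥ u - θ * h u)) := by
    intro u
    have e1 : ∀ τ, ENNReal.ofReal (Real.exp (-θ * τ)) * ww h a u τ =
        (Ioi (h u)).indicator (fun τ => ENNReal.ofReal (Real.exp (-θ * τ))) τ *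
          ENNReal.ofReal (Real.exp (a ⬝ᵥ u)) := by
      intro τ
      unfold ww
      by_cases h3 : h u < τ
      · rw [if_pos h3, indicator_of_mem (mem_Ioi.2 h3)]
      · rw [if_neg h3, indicator_of_notMem (show τ ∉ Ioi (h u) from fun h => h3 h), mul_zero, zero_mul]
    simp_rw [e1]
    rw [lintegral_mul_const _ (he.indicator measurableSet_Ioi),
      lintegral_indicator measurableSet_Ioi, Measure.restrict_restrict measurableSet_Ioi,
      inter_eq_left.2 (Ioi_subset_Ioi (hh.nonneg u)), exp_tail hθ,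
      ← ENNReal.ofReal_mul (by positivity), ← ENNReal.ofReal_mul (by positivity)]
    congr 1
    rw [sub_eq_add_neg, Real.exp_add, ← neg_mul]
    field_simp
  simp_rw [h2]
  have hc1 : Measurable (fun u : Fin n → ℝ => ENNReal.ofReal (Real.exp (a ⬝ᵥ u - θ * h u))) := by
    have hc := hh.cont
    have : Continuous fun u : Fin n → ℝ => Real.exp (a ⬝ᵥ u - θ * h u) := by fun_prop
    exact this.measurable.ennreal_ofReal
  rw [lintegral_const_mul _ hc1]
  -- scaling
  have hc2 : Measurable (fun w : Fin n → ℝ =>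
      ENNReal.ofReal (Real.exp ((θ⁻¹ • a) ⬝ᵥ w - h w))) := by
    have hc := hh.cont
    have : Continuous fun w : Fin n → ℝ => Real.exp ((θ⁻¹ • a) ⬝ᵥ w - h w) := by fun_prop
    exact this.measurable.ennreal_ofReal
  have h3 : ∫⁻ u : Fin n → ℝ, ENNReal.ofReal (Real.exp (a ⬝ᵥ u - θ * h u)) =
      ENNReal.ofReal ((θ ^ n)⁻¹) * gI h (θ⁻¹ • a) := by
    have h4 := lintegral_map (μ := (volume : Measure (Fin n → ℝ))) hc2
      (measurable_const_smul θ)
    have e : (fun x : Fin n → ℝ => θ • x) = (θ • ·) := rfl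
    rw [Measure.map_addHaar_smul volume hθ.ne', lintegral_smul_measure, Module.finrank_pi,
      Fintype.card_fin, abs_of_pos (by positivity)] at h4
    unfold gI
    rw [smul_eq_mul] at h4
    rw [h4]
    refine lintegral_congr fun u => ?_
    rw [hh.smul θ u hθ.le, smul_dotProduct, dotProduct_smul, smul_eq_mul, smul_eq_mul,
      ← mul_assoc, inv_mul_cancel₀ hθ.ne', one_mul]
  rw [h3, ← mul_assoc, ← ENNReal.ofReal_mul (by positivity)]
  congr 2
  rw [pow_succ]
  field_simp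

/-- the dual integral as a one-dimensional integral -/
lemma prodform {h1 : (Fin k → ℝ) → ℝ} {h2 : (Fin l → ℝ) → ℝ} (hh1 : SL h1) (hh2 : SL h2)
    (a : Fin k → ℝ) (b : Fin l → ℝ) :
    ∫⁻ u : Fin k → ℝ, ∫⁻ v : Fin l → ℝ,
      ENNReal.ofReal (Real.exp (a ⬝ᵥ u + b ⬝ᵥ v - max (h1 u) (h2 v))) =
    ∫⁻ τ in Ioi (0:ℝ), ENNReal.ofReal (Real.exp (-τ)) * (GT h1 a τ * GT h2 b τ) := by
  have hm1 : Measurable h1 := hh1.cont.measurable
  have hm2 : Measurable h2 := hh2.cont.measurable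
  have he : Measurable (fun τ : ℝ => ENNReal.ofReal (Real.exp (-τ))) :=
    (Real.measurable_exp.comp measurable_neg).ennreal_ofReal
  symm
  calc ∫⁻ τ in Ioi (0:ℝ), ENNReal.ofReal (Real.exp (-τ)) * (GT h1 a τ * GT h2 b τ)
      = ∫⁻ τ in Ioi (0:ℝ), ∫⁻ u : Fin k → ℝ,
          ENNReal.ofReal (Real.exp (-τ)) * (ww h1 a u τ * GT h2 b τ) := by
        refine lintegral_congr fun τ => ?_
        rw [lintegral_const_mul _ ((ww_meas1 hm1 a τ).mul_const _),
          lintegral_mul_const _ (ww_meas1 hm1 a τ)]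
        rfl
    _ = ∫⁻ u : Fin k → ℝ, ∫⁻ τ in Ioi (0:ℝ),
          ENNReal.ofReal (Real.exp (-τ)) * (ww h1 a u τ * GT h2 b τ) := by
        rw [lintegral_lintegral_swap]
        refine Measurable.aemeasurable ?_
        exact (he.comp measurable_fst).mul (((ww_meas hm1 a).comp measurable_swap).mul
          ((GT_meas hm2 b).comp measurable_fst))
    _ = ∫⁻ u : Fin k → ℝ, ∫⁻ v : Fin l → ℝ, ∫⁻ τ in Ioi (0:ℝ),
          ENNReal.ofReal (Real.exp (-τ)) * (ww h1 a u τ * ww h2 b v τ) := by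
        refine lintegral_congr fun u => ?_
        rw [lintegral_lintegral_swap]
        · refine lintegral_congr fun τ => ?_
          rw [lintegral_const_mul _ ((ww_meas1 hm2 b τ).const_mul _),
            lintegral_const_mul _ (ww_meas1 hm2 b τ)]
          rfl
        · refine Measurable.aemeasurable ?_
          exact (he.comp measurable_snd).mul (((ww_meas2 hm1 a u).comp measurable_snd).mul
            (ww_meas hm2 b))
    _ = _ := by
        refine lintegral_congr fun u => lintegral_congr fun v => ?_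
        have e1 : ∀ τ, ENNReal.ofReal (Real.exp (-τ)) * (ww h1 a u τ * ww h2 b v τ) =
            (Ioi (max (h1 u) (h2 v))).indicator
              (fun τ => ENNReal.ofReal (Real.exp (-1 * τ))) τ *
              (ENNReal.ofReal (Real.exp (a ⬝ᵥ u)) * ENNReal.ofReal (Real.exp (b ⬝ᵥ v))) := by
          intro τ
          unfold ww
          by_cases h3 : h1 u < τ
          · by_cases h4 : h2 v < τ
            · rw [if_pos h3, if_pos h4, indicator_of_mem (mem_Ioi.2 (max_lt h3 h4)), neg_one_mul]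
            · rw [if_pos h3, if_neg h4, indicator_of_notMem
                (show τ ∉ Ioi (max (h1 u) (h2 v)) from fun h => h4
                ((le_max_right _ _).trans_lt h)), mul_zero, mul_zero, zero_mul]
          · rw [if_neg h3, indicator_of_notMem
                (show τ ∉ Ioi (max (h1 u) (h2 v)) from
                  fun h => h3 ((le_max_left _ _).trans_lt h)),
              zero_mul, mul_zero, zero_mul]
        simp_rw [e1]
        have he' : Measurable (fun τ : ℝ => ENNReal.ofReal (Real.exp (-1 * τ))) :=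
          (Real.measurable_exp.comp (measurable_const.mul measurable_id)).ennreal_ofReal
        rw [lintegral_mul_const _ (he'.indicator measurableSet_Ioi),
          lintegral_indicator measurableSet_Ioi, Measure.restrict_restrict measurableSet_Ioi,
          inter_eq_left.2 (Ioi_subset_Ioi ((hh1.nonneg u).trans (le_max_left _ _))),
          exp_tail one_pos, ← ENNReal.ofReal_mul (by positivity),
          ← ENNReal.ofReal_mul (by positivity)]
        congr 1
        rw [div_one, ← Real.exp_add, ← Real.exp_add]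
        congr 1
        ring

/-- log-concavity -/
lemma GT_logc {h : (Fin n → ℝ) → ℝ} (hh : SL h) (a : Fin n → ℝ) {x y t : ℝ} (ht0 : 0 < t)
    (ht1 : t < 1) : GT h a x ^ (1 - t) * GT h a y ^ t ≤ GT h a ((1 - t) * x + t * y) := by
  have hm : Measurable h := hh.cont.measurable
  refine H212R2.KLS.PLt.pln t ht0 ht1 n (fun u => ww h a u x) (fun u => ww h a u y)
    (fun u => ww h a u ((1 - t) * x + t * y)) (ww_meas1 hm a x) (ww_meas1 hm a y)
    (ww_meas1 hm a _) fun u v => ?_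
  have t1 : 0 < 1 - t := by linarith
  unfold ww
  by_cases h1 : h u < x
  · by_cases h2 : h v < y
    · have h3 : h ((1 - t) • u + t • v) < (1 - t) * x + t * y := by
        calc h ((1 - t) • u + t • v) ≤ h ((1 - t) • u) + h (t • v) := hh.add _ _
          _ = (1 - t) * h u + t * h v := by rw [hh.smul _ _ t1.le, hh.smul _ _ ht0.le]
          _ < _ := by nlinarith
      rw [if_pos h1, if_pos h2, if_pos h3, ENNReal.ofReal_rpow_of_pos (Real.exp_pos _),
        ENNReal.ofReal_rpow_of_pos (Real.exp_pos _), ← ENNReal.ofReal_mul (by positivity),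
        ← Real.exp_mul, ← Real.exp_mul, ← Real.exp_add]
      refine le_of_eq ?_
      congr 2
      rw [dotProduct_add, dotProduct_smul, dotProduct_smul, smul_eq_mul, smul_eq_mul]
      ring
    · rw [if_neg h2, ENNReal.zero_rpow_of_pos ht0, mul_zero]; exact zero_le
  · rw [if_neg h1, ENNReal.zero_rpow_of_pos t1, zero_mul]; exact zero_le

/-- finiteness of the level integrals -/
lemma GT_fin {h1 : (Fin k → ℝ) → ℝ} {h2 : (Fin l → ℝ) → ℝ} (hh2 : SL h2)
    (a : Fin k → ℝ) (b : Fin l → ℝ)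
    (hJ : ∫⁻ τ in Ioi (0:ℝ), ENNReal.ofReal (Real.exp (-τ)) * (GT h1 a τ * GT h2 b τ) ≠ ∞)
    {x : ℝ} (hx : 0 < x) : GT h1 a x ≠ ∞ := by
  intro hcon
  apply hJ
  rw [eq_top_iff]
  have hsub : Ioi x ⊆ Ioi (0:ℝ) := Ioi_subset_Ioi hx.le
  have he : Measurable (fun τ : ℝ => ENNReal.ofReal (Real.exp (-1 * τ))) :=
    (Real.measurable_exp.comp (measurable_const.mul measurable_id)).ennreal_ofReal
  calc (∞ : ℝ≥0∞) = ENNReal.ofReal (Real.exp (-1 * x) / 1) * (GT h1 a x * GT h2 b x) := by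
        rw [hcon, ENNReal.top_mul (GT_pos hh2 b hx).ne', ENNReal.mul_top]
        have := Real.exp_pos (-1 * x)
        simpa using this
    _ = ∫⁻ τ in Ioi x, ENNReal.ofReal (Real.exp (-1 * τ)) * (GT h1 a x * GT h2 b x) := by
        rw [lintegral_mul_const _ he, exp_tail one_pos]
    _ ≤ ∫⁻ τ in Ioi x, ENNReal.ofReal (Real.exp (-τ)) * (GT h1 a τ * GT h2 b τ) := by
        refine lintegral_mono_ae ?_
        refine (ae_restrict_iff' measurableSet_Ioi).2 (Eventually.of_forall fun τ hτ => ?_)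
        have hτ' : x ≤ τ := (mem_Ioi.1 hτ).le
        rw [neg_one_mul]
        gcongr
        · exact GT_mono a hτ'
        · exact GT_mono b hτ'
    _ ≤ _ := lintegral_mono_set hsub

lemma GT_LC {h : (Fin n → ℝ) → ℝ} (hh : SL h) (a : Fin n → ℝ)
    (hfin : ∀ x, 0 < x → GT h a x ≠ ∞) : LC (fun τ => (GT h a τ).toReal) := by
  have hpos : ∀ x, 0 < x → 0 < (GT h a x).toReal := fun x hx =>
    ENNReal.toReal_pos (GT_pos hh a hx).ne' (hfin x hx)
  refine ⟨hpos, ?_⟩
  rw [concaveOn_iff_forall_pos]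
  refine ⟨convex_Ioi 0, fun x hx y hy α β hα hβ hαβ => ?_⟩
  have hx0 : 0 < x := hx
  have hy0 : 0 < y := hy
  obtain rfl : α = 1 - β := by linarith
  have hβ1 : β < 1 := by linarith
  have hz : 0 < (1 - β) * x + β * y := by positivity
  have h := GT_logc hh a (x := x) (y := y) hβ hβ1
  have h' := ENNReal.toReal_mono (hfin _ hz) h
  rw [ENNReal.toReal_mul, ← ENNReal.toReal_rpow, ← ENNReal.toReal_rpow] at h'
  have h'' := Real.log_le_log (mul_pos (Real.rpow_pos_of_pos (hpos x hx0) _)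
    (Real.rpow_pos_of_pos (hpos y hy0) _)) h'
  rw [Real.log_mul (Real.rpow_pos_of_pos (hpos x hx0) _).ne'
    (Real.rpow_pos_of_pos (hpos y hy0) _).ne', Real.log_rpow (hpos x hx0),
    Real.log_rpow (hpos y hy0)] at h''
  simpa [smul_eq_mul] using h''

lemma GT_lint {h : (Fin n → ℝ) → ℝ} (a : Fin n → ℝ)
    (hfin : ∀ x, 0 < x → GT h a x ≠ ∞) (θ : ℝ) :
    ∫⁻ τ in Ioi (0:ℝ), ENNReal.ofReal (Real.exp (-θ * τ) * (GT h a τ).toReal) =
      ∫⁻ τ in Ioi (0:ℝ), ENNReal.ofReal (Real.exp (-θ * τ)) * GT h a τ := by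
  refine setLIntegral_congr_fun measurableSet_Ioi fun τ hτ => ?_
  rw [ENNReal.ofReal_mul (Real.exp_pos _).le, ENNReal.ofReal_toReal (hfin τ hτ)]

/-- the Laplace bound in real terms -/
lemma lap_real {h : (Fin n → ℝ) → ℝ} (hh : SL h) (a : Fin n → ℝ)
    (hfin : ∀ x, 0 < x → GT h a x ≠ ∞) {θ : ℝ} (hθ : 0 < θ)
    (hint : IntegrableOn (fun x => Real.exp (-θ * x) * (GT h a x).toReal) (Ioi 0)) :
    gI h (θ⁻¹ • a) = ENNReal.ofReal
      (θ ^ (n + 1) * ∫ x in Ioi (0:ℝ), Real.exp (-θ * x) * (GT h a x).toReal) := by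
  rw [ENNReal.ofReal_mul (by positivity), ofReal_integral_eq_lintegral_ofReal hint
    (Eventually.of_forall fun x => mul_nonneg (Real.exp_pos _).le ENNReal.toReal_nonneg),
    GT_lint a hfin, lap hh a hθ, ← mul_assoc, ← ENNReal.ofReal_mul (by positivity),
    mul_inv_cancel₀ (by positivity), ENNReal.ofReal_one, one_mul]

/-- **the dual integral of a free sum** -/
theorem dual {h1 : (Fin k → ℝ) → ℝ} {h2 : (Fin l → ℝ) → ℝ} (hh1 : SL h1) (hh2 : SL h2)
    (hk : 1 ≤ k) (a : Fin k → ℝ) (b : Fin l → ℝ) :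
    ENNReal.ofReal (TT k l) * ((⨅ z, gI h1 z) * (⨅ z, gI h2 z)) ≤
      ∫⁻ u : Fin k → ℝ, ∫⁻ v : Fin l → ℝ,
        ENNReal.ofReal (Real.exp (a ⬝ᵥ u + b ⬝ᵥ v - max (h1 u) (h2 v))) := by
  rw [prodform hh1 hh2]
  by_cases hJ : ∫⁻ τ in Ioi (0:ℝ), ENNReal.ofReal (Real.exp (-τ)) *
      (GT h1 a τ * GT h2 b τ) = ∞
  · rw [hJ]; exact le_top
  have hJ' : ∫⁻ τ in Ioi (0:ℝ), ENNReal.ofReal (Real.exp (-τ)) *
      (GT h2 b τ * GT h1 a τ) ≠ ∞ := by
    simp_rw [mul_comm (GT h2 b _) (GT h1 a _)]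
    exact hJ
  have hf1 : ∀ x, 0 < x → GT h1 a x ≠ ∞ := fun x hx => GT_fin hh2 a b hJ hx
  have hf2 : ∀ x, 0 < x → GT h2 b x ≠ ∞ := fun x hx => GT_fin hh1 b a hJ' hx
  have hG := GT_LC hh1 a hf1
  have hH := GT_LC hh2 b hf2
  set G : ℝ → ℝ := fun τ => (GT h1 a τ).toReal with hGd
  set H : ℝ → ℝ := fun τ => (GT h2 b τ).toReal with hHd
  have mG : MonotoneOn G (Ioi 0) := fun x _ y hy hxy =>
    ENNReal.toReal_mono (hf1 y hy) (GT_mono a hxy)
  have mH : MonotoneOn H (Ioi 0) := fun x _ y hy hxy =>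
    ENNReal.toReal_mono (hf2 y hy) (GT_mono b hxy)
  have hlin : ∫⁻ τ in Ioi (0:ℝ), ENNReal.ofReal (Real.exp (-τ) * (G τ * H τ)) =
      ∫⁻ τ in Ioi (0:ℝ), ENNReal.ofReal (Real.exp (-τ)) * (GT h1 a τ * GT h2 b τ) := by
    refine setLIntegral_congr_fun measurableSet_Ioi fun τ hτ => ?_
    simp only [hGd, hHd]
    rw [ENNReal.ofReal_mul (Real.exp_pos _).le, ENNReal.ofReal_mul ENNReal.toReal_nonneg,
      ENNReal.ofReal_toReal (hf1 τ hτ), ENNReal.ofReal_toReal (hf2 τ hτ)]
  have hnn : ∀ τ, 0 ≤ Real.exp (-τ) * (G τ * H τ) := fun τ =>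
    mul_nonneg (Real.exp_pos _).le (mul_nonneg ENNReal.toReal_nonneg ENNReal.toReal_nonneg)
  have hint : IntegrableOn (fun x => Real.exp (-x) * (G x * H x)) (Ioi 0) := by
    refine ⟨?_, ?_⟩
    · have hc : Continuous fun x : ℝ => Real.exp (-x) := by fun_prop
      exact hc.aestronglyMeasurable.mul (hG.aesm.mul hH.aesm)
    · rw [hasFiniteIntegral_iff_ofReal (Eventually.of_forall hnn), hlin]
      exact lt_top_iff_ne_top.2 hJ
  -- the infima are finite
  have hintG : IntegrableOn (fun x => Real.exp (-x) * G x) (Ioi 0) := by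
    refine exp_integrable_of_prod hH hG mH mG ?_
    refine hint.congr_fun (fun x _ => ?_) measurableSet_Ioi
    show Real.exp (-x) * (G x * H x) = Real.exp (-x) * (H x * G x)
    ring
  have hintH : IntegrableOn (fun x => Real.exp (-x) * H x) (Ioi 0) :=
    exp_integrable_of_prod hG hH mG mH hint
  have hI1 : (⨅ z, gI h1 z) ≠ ∞ := by
    refine ne_top_of_le_ne_top ?_ (iInf_le _ ((1:ℝ)⁻¹ • a))
    rw [lap_real hh1 a hf1 one_pos (by simpa using hintG)]
    exact ENNReal.ofReal_ne_top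
  have hI2 : (⨅ z, gI h2 z) ≠ ∞ := by
    refine ne_top_of_le_ne_top ?_ (iInf_le _ ((1:ℝ)⁻¹ • b))
    rw [lap_real hh2 b hf2 one_pos (by simpa using hintH)]
    exact ENNReal.ofReal_ne_top
  have key := oneD hG hH mG mH hint hk (m1 := (⨅ z, gI h1 z).toReal)
    (m2 := (⨅ z, gI h2 z).toReal) ENNReal.toReal_nonneg ENNReal.toReal_nonneg
    (fun θ hθ hi => by
      have h3 : (⨅ z, gI h1 z) ≤ gI h1 (θ⁻¹ • a) := iInf_le _ _
      rw [lap_real hh1 a hf1 hθ hi] at h3
      refine ENNReal.toReal_le_of_le_ofReal ?_ h3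
      exact mul_nonneg (by positivity) (integral_nonneg fun x =>
        mul_nonneg (Real.exp_pos _).le ENNReal.toReal_nonneg))
    (fun θ hθ hi => by
      have h3 : (⨅ z, gI h2 z) ≤ gI h2 (θ⁻¹ • b) := iInf_le _ _
      rw [lap_real hh2 b hf2 hθ hi] at h3
      refine ENNReal.toReal_le_of_le_ofReal ?_ h3
      exact mul_nonneg (by positivity) (integral_nonneg fun x =>
        mul_nonneg (Real.exp_pos _).le ENNReal.toReal_nonneg))
  have h4 := ENNReal.ofReal_le_ofReal key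
  rw [ENNReal.ofReal_mul (TT_pos k l).le, ENNReal.ofReal_mul ENNReal.toReal_nonneg,
    ENNReal.ofReal_toReal hI1, ENNReal.ofReal_toReal hI2,
    ofReal_integral_eq_lintegral_ofReal hint (Eventually.of_forall hnn), hlin] at h4
  exact h4

end Pool.Agent.TH808
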