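import Mathlib

/-!
# The volume of a free sum
-/

set_option autoImplicit false

open MeasureTheory Set Filter Topology
open scoped ENNReal Pointwise

namespace Pool.Agent.TH808

/-- indicator of `x ∈ s • K` -/
noncomputable def kk {E : Type*} [SMul ℝ E] (K : Set E) (x : E) (s : ℝ) : ℝ≥0∞ :=
  K.indicator 1 (s⁻¹ • x)

/-- `∫_0^∞ e^{-s} 1[x ∈ sK] ds` -/
noncomputable def FF {E : Type*} [SMul ℝ E] (K : Set E) (x : E) : ℝ≥0∞ :=
  ∫⁻ s in Ioi (0:ℝ), ENNReal.ofReal (Real.exp (-s)) * kk K x s

section

variable {E : Type*} [NormedAddCommGroup E] [NormedSpace ℝ E] [FiniteDimensional ℝ E]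
  [MeasurableSpace E] [BorelSpace E]

lemma kk_meas {K : Set E} (hK : MeasurableSet K) :
    Measurable (fun p : E × ℝ => kk K p.1 p.2) := by
  unfold kk
  have h1 : Measurable (fun p : E × ℝ => p.2⁻¹ • p.1) := measurable_snd.inv.smul measurable_fst
  exact (measurable_one.indicator hK).comp h1

lemma kk_meas2 {K : Set E} (hK : MeasurableSet K) (x : E) :
    Measurable (fun s : ℝ => kk K x s) :=
  (kk_meas hK).comp (measurable_const.prodMk measurable_id)

lemma exp_meas : Measurable (fun s : ℝ => ENNReal.ofReal (Real.exp (-s))) :=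
  (Real.measurable_exp.comp measurable_neg).ennreal_ofReal

lemma FF_meas {K : Set E} (hK : MeasurableSet K) : Measurable (FF K) := by
  unfold FF
  have h : Measurable (fun p : E × ℝ => ENNReal.ofReal (Real.exp (-p.2)) * kk K p.1 p.2) :=
    (exp_meas.comp measurable_snd).mul (kk_meas hK)
  exact h.lintegral_prod_right'

lemma gamma_lint (d : ℕ) :
    ∫⁻ s in Ioi (0:ℝ), ENNReal.ofReal (Real.exp (-s) * s ^ d) = (d.factorial : ℝ≥0∞) := by
  have hd : (0:ℝ) < (d:ℝ) + 1 := by positivity
  have h1 : IntegrableOn (fun x : ℝ => Real.exp (-x) * x ^ d) (Ioi 0) := by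
    refine (Real.GammaIntegral_convergent hd).congr_fun (fun x _ => ?_) measurableSet_Ioi
    simp only [add_sub_cancel_right, Real.rpow_natCast]
  rw [← ofReal_integral_eq_lintegral_ofReal h1]
  · have h2 : ∫ x in Ioi (0:ℝ), Real.exp (-x) * x ^ d = d.factorial := by
      rw [← Real.Gamma_nat_eq_factorial, Real.Gamma_eq_integral hd]
      refine setIntegral_congr_fun measurableSet_Ioi fun x _ => ?_
      simp only [add_sub_cancel_right, Real.rpow_natCast]
    rw [h2, ENNReal.ofReal_natCast]
  · refine (ae_restrict_iff' measurableSet_Ioi).2 (Eventually.of_forall fun x hx => ?_)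
    have : (0:ℝ) < x := hx
    show (0:ℝ) ≤ Real.exp (-x) * x ^ d
    positivity

/-- `∫ FF K = d! μ(K)` -/
lemma FF_int (μ : Measure E) [μ.IsAddHaarMeasure] {K : Set E} (hK : MeasurableSet K) :
    ∫⁻ x, FF K x ∂μ = ((Module.finrank ℝ E).factorial : ℝ≥0∞) * μ K := by
  unfold FF
  rw [lintegral_lintegral_swap]
  · have h1 : ∀ s ∈ Ioi (0:ℝ), ∫⁻ x, ENNReal.ofReal (Real.exp (-s)) * kk K x s ∂μ =
        ENNReal.ofReal (Real.exp (-s) * s ^ (Module.finrank ℝ E)) * μ K := by
      intro s hs
      have hs0 : (0:ℝ) < s := hs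
      have hkm : Measurable (fun x => kk K x s) :=
        (kk_meas hK).comp (measurable_id.prodMk measurable_const)
      rw [lintegral_const_mul _ hkm]
      have h2 : ∀ x, kk K x s = (s • K).indicator 1 x := by
        intro x
        unfold kk
        by_cases hx : s⁻¹ • x ∈ K
        · rw [indicator_of_mem hx, indicator_of_mem ((mem_smul_set_iff_inv_smul_mem₀ hs0.ne' _ _).2 hx)]
          rfl
        · rw [indicator_of_notMem hx, indicator_of_notMem
            (fun h => hx ((mem_smul_set_iff_inv_smul_mem₀ hs0.ne' _ _).1 h))]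
      simp_rw [h2]
      rw [lintegral_indicator_one (hK.const_smul₀ s), Measure.addHaar_smul,
        abs_of_pos (by positivity), ENNReal.ofReal_mul (Real.exp_pos _).le, mul_assoc]
    rw [setLIntegral_congr_fun measurableSet_Ioi h1, lintegral_mul_const, gamma_lint]
    exact ((Real.measurable_exp.comp measurable_neg).mul (measurable_id.pow_const _)).ennreal_ofReal
  · exact ((exp_meas.comp measurable_snd).mul (kk_meas hK)).aemeasurable

end

/-- convolution bound for the exponential measure -/
lemma exp_conv {f g r : ℝ → ℝ≥0∞} (hf : Measurable f)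
    (hf1 : ∀ s, f s ≤ 1) (hg1 : ∀ s, g s = 0 ∨ g s = 1)
    (h : ∀ s t : ℝ, 0 < s → 0 < t → g t = 1 → f s ≤ r (s + t)) :
    (∫⁻ s in Ioi (0:ℝ), ENNReal.ofReal (Real.exp (-s)) * f s) *
      (∫⁻ t in Ioi (0:ℝ), ENNReal.ofReal (Real.exp (-t)) * g t) ≤
      ∫⁻ s in Ioi (0:ℝ), ENNReal.ofReal (Real.exp (-s)) * r s := by
  set C := ∫⁻ s in Ioi (0:ℝ), ENNReal.ofReal (Real.exp (-s)) * f s with hC
  set D := ∫⁻ s in Ioi (0:ℝ), ENNReal.ofReal (Real.exp (-s)) * r s with hD
  have hexp1 : ∀ c : ℝ, ∫⁻ s in Ioi c, ENNReal.ofReal (Real.exp (-s)) =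
      ENNReal.ofReal (Real.exp (-c)) := by
    intro c
    rw [← ofReal_integral_eq_lintegral_ofReal (integrableOn_exp_neg_Ioi c)
      (Eventually.of_forall fun x => (Real.exp_pos _).le), integral_exp_neg_Ioi]
  have hC1 : C ≠ ∞ := by
    refine ne_top_of_le_ne_top ENNReal.ofReal_ne_top (b := ENNReal.ofReal (Real.exp (-0))) ?_
    rw [← hexp1 0, hC]
    refine lintegral_mono fun s => ?_
    calc ENNReal.ofReal (Real.exp (-s)) * f s ≤ ENNReal.ofReal (Real.exp (-s)) * 1 := by
          gcongr; exact hf1 s
      _ = _ := mul_one _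
  set T : Set ℝ := {t | 0 < t ∧ g t = 1} with hT
  have hstep : ∀ t ∈ T, C * ENNReal.ofReal (Real.exp (-t)) ≤ D := by
    rintro t ⟨ht0, ht1⟩
    have e1 : C * ENNReal.ofReal (Real.exp (-t)) =
        ∫⁻ s in Ioi (0:ℝ), ENNReal.ofReal (Real.exp (-(s + t))) * f s := by
      have hem : Measurable (fun s => ENNReal.ofReal (Real.exp (-s)) * f s) := exp_meas.mul hf
      rw [hC, ← lintegral_mul_const _ hem]
      refine lintegral_congr fun s => ?_
      rw [neg_add, Real.exp_add, ENNReal.ofReal_mul (Real.exp_pos _).le]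
      ring
    rw [e1]
    calc ∫⁻ s in Ioi (0:ℝ), ENNReal.ofReal (Real.exp (-(s + t))) * f s
        ≤ ∫⁻ s in Ioi (0:ℝ), ENNReal.ofReal (Real.exp (-(s + t))) * r (s + t) := by
          refine lintegral_mono_ae ?_
          refine (ae_restrict_iff' measurableSet_Ioi).2 (Eventually.of_forall fun s hs => ?_)
          gcongr
          exact h s t hs ht0 ht1
      _ = ∫⁻ s : ℝ, (Ioi t).indicator
            (fun s => ENNReal.ofReal (Real.exp (-s)) * r s) (s + t) := by
          rw [← lintegral_indicator measurableSet_Ioi]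
          refine lintegral_congr fun s => ?_
          by_cases hs : 0 < s
          · rw [indicator_of_mem (mem_Ioi.2 hs),
              indicator_of_mem (show s + t ∈ Ioi t from by rw [mem_Ioi]; linarith)]
          · rw [indicator_of_notMem (show s ∉ Ioi (0:ℝ) from hs),
              indicator_of_notMem (show s + t ∉ Ioi t from by rw [mem_Ioi]; linarith)]
      _ = ∫⁻ s in Ioi t, ENNReal.ofReal (Real.exp (-s)) * r s := by
          rw [lintegral_add_right_eq_self
            (fun s => (Ioi t).indicator (fun s => ENNReal.ofReal (Real.exp (-s)) * r s) s) t,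
            lintegral_indicator measurableSet_Ioi]
      _ ≤ D := lintegral_mono_set (Ioi_subset_Ioi ht0.le)
  rcases T.eq_empty_or_nonempty with hTe | hTne
  · have h0 : ∫⁻ t in Ioi (0:ℝ), ENNReal.ofReal (Real.exp (-t)) * g t = 0 := by
      rw [setLIntegral_congr_fun measurableSet_Ioi (g := fun _ => (0:ℝ≥0∞)) fun t ht => ?_]
      · simp
      · rcases hg1 t with h2 | h2
        · simp only [h2, mul_zero]
        · exact absurd (show t ∈ T from ⟨ht, h2⟩) (by rw [hTe]; exact notMem_empty t)
    rw [h0, mul_zero]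
    exact zero_le
  · have hbdd : BddBelow T := ⟨0, fun t ht => ht.1.le⟩
    set t0 := sInf T with ht0
    have hclosed : IsClosed {t : ℝ | C * ENNReal.ofReal (Real.exp (-t)) ≤ D} := by
      refine isClosed_le ?_ continuous_const
      refine (ENNReal.continuous_const_mul hC1).comp (ENNReal.continuous_ofReal.comp ?_)
      fun_prop
    have hmem : t0 ∈ {t : ℝ | C * ENNReal.ofReal (Real.exp (-t)) ≤ D} :=
      closure_minimal hstep hclosed (csInf_mem_closure hTne hbdd)
    refine le_trans ?_ hmem
    gcongr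
    calc ∫⁻ t in Ioi (0:ℝ), ENNReal.ofReal (Real.exp (-t)) * g t
        ≤ ∫⁻ t in Ici t0, ENNReal.ofReal (Real.exp (-t)) := by
          rw [← lintegral_indicator measurableSet_Ioi, ← lintegral_indicator measurableSet_Ici]
          refine lintegral_mono fun t => ?_
          by_cases ht : 0 < t
          · rw [indicator_of_mem (mem_Ioi.2 ht)]
            rcases hg1 t with h2 | h2
            · rw [h2, mul_zero]; exact zero_le
            · rw [h2, mul_one, indicator_of_mem
                (show t ∈ Ici t0 from csInf_le hbdd ⟨ht, h2⟩)]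
          · rw [indicator_of_notMem (show t ∉ Ioi (0:ℝ) from ht)]; exact zero_le
      _ = ENNReal.ofReal (Real.exp (-t0)) := by
          rw [← hexp1 t0]
          exact setLIntegral_congr Ioi_ae_eq_Ici.symm

section compact

variable {V : Type*} [NormedAddCommGroup V] [NormedSpace ℝ V]

lemma hull_step {s : Set V} (hs : IsCompact s) (n : ℕ) :
    ∃ K : Set V, IsCompact K ∧ K ⊆ convexHull ℝ s ∧
      ∀ t : Finset V, (t : Set V) ⊆ s → t.card ≤ n + 1 → convexHull ℝ (t : Set V) ⊆ K := by
  classical
  induction n with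
  | zero =>
    refine ⟨s, hs, subset_convexHull ℝ s, fun t hts hcard => ?_⟩
    rcases Nat.eq_zero_or_pos t.card with h | h
    · rw [Finset.card_eq_zero] at h
      subst h
      simp
    · have h1 : t.card = 1 := by omega
      obtain ⟨x, rfl⟩ := Finset.card_eq_one.1 h1
      simpa using hts
  | succ n ih =>
    obtain ⟨K, hK, hKs, hKt⟩ := ih
    set f : V × V × ℝ → V := fun p => (1 - p.2.2) • p.1 + p.2.2 • p.2.1 with hf
    have hfc : Continuous f := by fun_prop
    refine ⟨K ∪ f '' (s ×ˢ K ×ˢ Icc (0:ℝ) 1), hK.union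
      ((hs.prod (hK.prod isCompact_Icc)).image hfc), ?_, ?_⟩
    · refine union_subset hKs ?_
      rintro _ ⟨⟨x, y, r⟩, ⟨hx, hy, hr⟩, rfl⟩
      exact (convex_convexHull ℝ s) (subset_convexHull ℝ s hx) (hKs hy)
        (by linarith [hr.2]) hr.1 (by ring)
    · intro t hts hcard
      rcases Nat.lt_or_ge (n + 1) t.card with h | h
      · obtain ⟨x, t', hxt', rfl, hcard'⟩ := Finset.card_eq_succ.1 (show t.card = (n + 1) + 1 by omega)
        have hne : (t' : Set V).Nonempty := by
          rw [Finset.coe_nonempty, ← Finset.card_pos]; omega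
        rw [Finset.coe_insert, convexHull_insert hne]
        intro z hz
        rw [mem_convexJoin] at hz
        obtain ⟨x', hx', y, hy, hz⟩ := hz
        rw [mem_singleton_iff] at hx'
        subst hx'
        have hyK : y ∈ K := hKt t' (fun w hw => hts (by simp [Finset.mem_coe.1 hw])) (by omega) hy
        rw [segment_eq_image] at hz
        obtain ⟨r, hr, rfl⟩ := hz
        refine Or.inr ⟨(x', y, r), ⟨hts (by simp), hyK, hr⟩, rfl⟩
      · exact (hKt t hts h).trans subset_union_left

/-- The convex hull of a compact set in a finite-dimensional space is compact. -/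
theorem isCompact_convexHull_of_isCompact [FiniteDimensional ℝ V] {s : Set V}
    (hs : IsCompact s) : IsCompact (convexHull ℝ s) := by
  classical
  obtain ⟨K, hK, hKs, hKt⟩ := hull_step hs (Module.finrank ℝ V)
  have : convexHull ℝ s = K := by
    refine Subset.antisymm ?_ hKs
    rw [convexHull_eq_union]
    refine iUnion_subset fun t => iUnion_subset fun hts => iUnion_subset fun hai => ?_
    refine hKt t hts ?_
    have := hai.card_le_finrank_succ
    simpa using this.trans (Nat.succ_le_succ (Submodule.finrank_le _))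
  rw [this]
  exact hK

end compact

/-- the free sum in a product -/
def fsum {E F : Type*} [AddCommGroup E] [Module ℝ E] [AddCommGroup F] [Module ℝ F]
    (A : Set E) (B : Set F) : Set (E × F) :=
  convexHull ℝ ((fun x => (x, (0 : F))) '' A ∪ (fun y => ((0 : E), y)) '' B)

lemma fsum_mem {E F : Type*} [AddCommGroup E] [Module ℝ E] [AddCommGroup F] [Module ℝ F]
    {A : Set E} {B : Set F} {x : E} {y : F} {s t : ℝ} (hs : 0 < s) (ht : 0 < t)
    (hx : s⁻¹ • x ∈ A) (hy : t⁻¹ • y ∈ B) : (s + t)⁻¹ • (x, y) ∈ fsum A B := by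
  have h1 : (s⁻¹ • x, (0 : F)) ∈ fsum A B :=
    subset_convexHull ℝ _ (Or.inl ⟨_, hx, rfl⟩)
  have h2 : ((0 : E), t⁻¹ • y) ∈ fsum A B :=
    subset_convexHull ℝ _ (Or.inr ⟨_, hy, rfl⟩)
  have h3 := (convex_convexHull ℝ _) h1 h2 (a := s / (s + t)) (b := t / (s + t))
    (by positivity) (by positivity) (by field_simp)
  have e : (s / (s + t)) • (s⁻¹ • x, (0 : F)) + (t / (s + t)) • ((0 : E), t⁻¹ • y) =
      (s + t)⁻¹ • (x, y) := by
    rw [Prod.smul_mk, Prod.smul_mk, Prod.smul_mk, Prod.mk_add_mk, smul_zero, smul_zero, add_zero,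
      zero_add, smul_smul, smul_smul]
    congr 2
    · field_simp
    · field_simp
  rw [e] at h3
  exact h3

lemma fsum_compact {E F : Type*} [NormedAddCommGroup E] [NormedSpace ℝ E] [FiniteDimensional ℝ E]
    [NormedAddCommGroup F] [NormedSpace ℝ F] [FiniteDimensional ℝ F]
    {A : Set E} {B : Set F} (hA : IsCompact A) (hB : IsCompact B) : IsCompact (fsum A B) := by
  refine isCompact_convexHull_of_isCompact (IsCompact.union ?_ ?_)
  · exact hA.image (by fun_prop)
  · exact hB.image (by fun_prop)

/-- **the volume of a free sum** -/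
theorem vol_fsum {k l : ℕ} {A : Set (Fin k → ℝ)} {B : Set (Fin l → ℝ)} (hA : IsCompact A)
    (hB : IsCompact B) :
    ((k.factorial : ℝ≥0∞) * volume A) * ((l.factorial : ℝ≥0∞) * volume B) ≤
      ((k + l).factorial : ℝ≥0∞) *
        ((volume : Measure (Fin k → ℝ)).prod (volume : Measure (Fin l → ℝ))) (fsum A B) := by
  have hK := (fsum_compact hA hB).isClosed.measurableSet
  have h1 := FF_int (volume : Measure (Fin k → ℝ)) hA.isClosed.measurableSet
  have h2 := FF_int (volume : Measure (Fin l → ℝ)) hB.isClosed.measurableSet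
  have : ((volume : Measure (Fin k → ℝ)).prod (volume : Measure (Fin l → ℝ))).IsAddHaarMeasure :=
    Measure.prod.instIsAddHaarMeasure _ _
  have h3 := FF_int ((volume : Measure (Fin k → ℝ)).prod (volume : Measure (Fin l → ℝ))) hK
  have e3 : Module.finrank ℝ ((Fin k → ℝ) × (Fin l → ℝ)) = k + l := by
    rw [Module.finrank_prod, Module.finrank_pi, Module.finrank_pi, Fintype.card_fin,
      Fintype.card_fin]
  rw [e3] at h3
  rw [Module.finrank_pi, Fintype.card_fin] at h1 h2
  rw [← h1, ← h2, ← h3, lintegral_prod _ (FF_meas hK).aemeasurable]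
  calc (∫⁻ x, FF A x) * ∫⁻ y, FF B y = ∫⁻ x, ∫⁻ y, FF A x * FF B y := by
        rw [← lintegral_mul_const _ (FF_meas hA.isClosed.measurableSet)]
        refine lintegral_congr fun x => ?_
        rw [lintegral_const_mul _ (FF_meas hB.isClosed.measurableSet)]
    _ ≤ _ := by
        refine lintegral_mono fun x => lintegral_mono fun y => ?_
        refine exp_conv (kk_meas2 hA.isClosed.measurableSet x) ?_ ?_ ?_
        · intro s
          unfold kk
          exact indicator_le_self' (fun _ _ => zero_le) _
        · intro t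
          unfold kk
          by_cases hy : t⁻¹ • y ∈ B
          · right; rw [indicator_of_mem hy]; rfl
          · left; rw [indicator_of_notMem hy]
        · intro s t hs ht hg
          unfold kk at hg ⊢
          have hy : t⁻¹ • y ∈ B := by
            by_contra hcon
            rw [indicator_of_notMem hcon] at hg
            exact zero_ne_one hg
          by_cases hx : s⁻¹ • x ∈ A
          · rw [indicator_of_mem (fsum_mem hs ht hx hy)]
            rw [indicator_of_mem hx]
            exact le_rfl
          · rw [indicator_of_notMem hx]; exact zero_le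

end Pool.Agent.TH808
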