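import Pool.Agent.TH808.Two

/-!
# Free sums in general position
-/

set_option autoImplicit false

open MeasureTheory Set Filter Topology Matrix
open scoped ENNReal

namespace Pool.Agent.TH808

variable {n k l : ℕ}

/-- **free sums, linear version** -/
theorem two_lin (F1 : (Fin k → ℝ) →ₗ[ℝ] (Fin (k + l) → ℝ))
    (F2 : (Fin l → ℝ) →ₗ[ℝ] (Fin (k + l) → ℝ)) {A : Set (Fin k → ℝ)} {B : Set (Fin l → ℝ)}
    (hA : IsCompact A) (hB : IsCompact B) (hA0 : (0 : Fin k → ℝ) ∈ A) (hB0 : (0 : Fin l → ℝ) ∈ B)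
    {c1 c2 : ℝ} (hc1 : 0 ≤ c1) (hc2 : 0 ≤ c2)
    (h1 : ∀ z, ENNReal.ofReal (c1 * sv k) ≤ MZ A z)
    (h2 : ∀ z, ENNReal.ofReal (c2 * sv l) ≤ MZ B z)
    (hi : (interior (convexHull ℝ (F1 '' A ∪ F2 '' B))).Nonempty) (z : Fin (k + l) → ℝ) :
    ENNReal.ofReal (c1 * c2 * sv (k + l)) ≤ MZ (convexHull ℝ (F1 '' A ∪ F2 '' B)) z := by
  set T : (Fin (k + l) → ℝ) →ₗ[ℝ] (Fin (k + l) → ℝ) :=
    (F1.coprod F2).comp (Sp k l).symm.toLinearMap with hT
  have hTS : ∀ p, T (Sp k l p) = F1 p.1 + F2 p.2 := by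
    intro p
    rw [hT, LinearMap.comp_apply, LinearEquiv.coe_coe, LinearEquiv.symm_apply_apply,
      LinearMap.coprod_apply]
  have himg : T '' (Sp k l '' fsum A B) = convexHull ℝ (F1 '' A ∪ F2 '' B) := by
    rw [image_image]
    have e1 : (fun p => T (Sp k l p)) '' fsum A B = (F1.coprod F2) '' fsum A B := by
      refine image_congr fun p _ => ?_
      rw [hTS, LinearMap.coprod_apply]
    rw [e1, fsum, LinearMap.image_convexHull, image_union, image_image, image_image]
    simp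
  have hsurj : LinearMap.range T = ⊤ := by
    apply Submodule.eq_top_of_nonempty_interior'
    refine hi.mono (interior_mono ?_)
    rw [← himg]
    exact image_subset_range _ _
  have hdet : LinearMap.det T ≠ 0 := by
    have hbij : Function.Bijective T :=
      ⟨LinearMap.injective_iff_surjective.2 (LinearMap.range_eq_top.1 hsurj),
        LinearMap.range_eq_top.1 hsurj⟩
    exact (LinearEquiv.ofBijective T hbij).isUnit_det'.ne_zero
  obtain ⟨z0, rfl⟩ := LinearMap.range_eq_top.1 hsurj z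
  rw [← himg, MZ_lin T hdet ((fsum_compact hA hB).image Sp_cont)]
  exact two_std hA hB hA0 hB0 hc1 hc2 h1 h2 z0

/-- convex hulls commute with translations -/
lemma hull_add (q : Fin n → ℝ) (S : Set (Fin n → ℝ)) :
    convexHull ℝ ((fun x => x + q) '' S) = (fun x => x + q) '' convexHull ℝ S := by
  have h := (AffineEquiv.constVAdd ℝ (Fin n → ℝ) q).toAffineMap.image_convexHull S
  have e : ∀ X : Set (Fin n → ℝ),
      (AffineEquiv.constVAdd ℝ (Fin n → ℝ) q).toAffineMap '' X = (fun x => x + q) '' X := by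
    intro X
    refine image_congr fun x _ => ?_
    show q +ᵥ x = x + q
    rw [vadd_eq_add, add_comm]
  rw [e, e] at h
  exact h.symm

/-- **free sums, affine version** -/
theorem two_aff (hn : k + l = n) (f : (Fin k → ℝ) →ᵃ[ℝ] (Fin n → ℝ))
    (g : (Fin l → ℝ) →ᵃ[ℝ] (Fin n → ℝ)) {A : Set (Fin k → ℝ)} {B : Set (Fin l → ℝ)}
    (hA : IsCompact A) (hB : IsCompact B) {a : Fin k → ℝ} (ha : a ∈ A) {b : Fin l → ℝ}
    (hb : b ∈ B) (hab : f a = g b) {c1 c2 : ℝ} (hc1 : 0 ≤ c1) (hc2 : 0 ≤ c2)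
    (h1 : ∀ z, ENNReal.ofReal (c1 * sv k) ≤ MZ A z)
    (h2 : ∀ z, ENNReal.ofReal (c2 * sv l) ≤ MZ B z)
    (hi : (interior (convexHull ℝ (f '' A ∪ g '' B))).Nonempty) (z : Fin n → ℝ) :
    ENNReal.ofReal (c1 * c2 * sv n) ≤ MZ (convexHull ℝ (f '' A ∪ g '' B)) z := by
  subst hn
  set q := f a with hq
  set A' : Set (Fin k → ℝ) := (fun x => x + -a) '' A with hA'
  set B' : Set (Fin l → ℝ) := (fun x => x + -b) '' B with hB'
  have hAc : IsCompact A' := hA.image (by fun_prop)
  have hBc : IsCompact B' := hB.image (by fun_prop)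
  have hf : f '' A = (fun x => x + q) '' (f.linear '' A') := by
    rw [hA', image_image, image_image]
    refine image_congr fun x _ => ?_
    have h3 := f.map_vadd a (x - a)
    rw [vadd_eq_add, sub_add_cancel, vadd_eq_add] at h3
    rw [h3, ← sub_eq_add_neg]
  have hg : g '' B = (fun x => x + q) '' (g.linear '' B') := by
    rw [hB', image_image, image_image]
    refine image_congr fun x _ => ?_
    have h3 := g.map_vadd b (x - b)
    rw [vadd_eq_add, sub_add_cancel, vadd_eq_add] at h3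
    rw [h3, ← sub_eq_add_neg, hab]
  have hK : convexHull ℝ (f '' A ∪ g '' B) =
      (fun x => x + q) '' convexHull ℝ (f.linear '' A' ∪ g.linear '' B') := by
    rw [hf, hg, ← image_union, hull_add]
  have hA0 : (0 : Fin k → ℝ) ∈ A' := ⟨a, ha, by simp⟩
  have hB0 : (0 : Fin l → ℝ) ∈ B' := ⟨b, hb, by simp⟩
  have hK0c : IsCompact (convexHull ℝ (f.linear '' A' ∪ g.linear '' B')) := by
    refine isCompact_convexHull_of_isCompact (IsCompact.union ?_ ?_)
    · exact hAc.image (LinearMap.continuous_of_finiteDimensional f.linear)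
    · exact hBc.image (LinearMap.continuous_of_finiteDimensional g.linear)
  have hK0n : (convexHull ℝ (f.linear '' A' ∪ g.linear '' B')).Nonempty :=
    ⟨f.linear 0, subset_convexHull ℝ _ (Or.inl ⟨0, hA0, rfl⟩)⟩
  rw [hK] at hi ⊢
  have hi0 : (interior (convexHull ℝ (f.linear '' A' ∪ g.linear '' B'))).Nonempty := by
    have h3 := (Homeomorph.addRight q).image_interior
      (convexHull ℝ (f.linear '' A' ∪ g.linear '' B'))
    have e : ⇑(Homeomorph.addRight q) = fun x => x + q := rfl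
    rw [e] at h3
    rw [← h3] at hi
    exact hi.of_image
  have e2 : z = (z - q) + q := by rw [sub_add_cancel]
  rw [e2, MZ_add hK0c hK0n]
  refine two_lin f.linear g.linear hAc hBc hA0 hB0 hc1 hc2 (fun w => ?_) (fun w => ?_) hi0 _
  · have e3 : w = (w + a) + -a := by abel
    rw [e3, hA', MZ_add hA ⟨a, ha⟩]
    exact h1 _
  · have e3 : w = (w + b) + -b := by abel
    rw [e3, hB', MZ_add hB ⟨b, hb⟩]
    exact h2 _

end Pool.Agent.TH808
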