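import Pool.Agent.TH808.Pow

/-!
# The growth constant
-/

set_option autoImplicit false

open MeasureTheory Set Filter Topology Matrix
open scoped ENNReal Pointwise

namespace Pool.Agent.TH808

variable {n k l : ℕ}

/-- some body in dimension `m` has normalised Mahler volume at most `x` -/
def Ach (m : ℕ) (x : ℝ) : Prop :=
  ∃ C : Set (Fin m → ℝ), BD C ∧ ∃ c, MZ C c ≤ ENNReal.ofReal (x * sv m)

lemma Ach.join {x y : ℝ} (hx : 0 ≤ x) (_hy : 0 ≤ y) (h1 : Ach k x) (h2 : Ach l y) :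
    Ach (k + l + 1) (x * y) := by
  obtain ⟨A, hA, a, ha⟩ := h1
  obtain ⟨B, hB, b, hb⟩ := h2
  obtain ⟨C, hC, c, hc⟩ := TH808.join hA hB a b
  refine ⟨C, hC, c, hc.trans ?_⟩
  have hk := sv_pos k
  have hl := sv_pos l
  have hkl := sv_pos (k + l + 1)
  calc ENNReal.ofReal (sv (k + l + 1) / (sv k * sv l)) * (MZ A a * MZ B b) ≤
      ENNReal.ofReal (sv (k + l + 1) / (sv k * sv l)) *
        (ENNReal.ofReal (x * sv k) * ENNReal.ofReal (y * sv l)) := by gcongr
    _ = ENNReal.ofReal (x * y * sv (k + l + 1)) := by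
        rw [← ENNReal.ofReal_mul (by positivity), ← ENNReal.ofReal_mul (by positivity)]
        congr 1
        field_simp

lemma vol0 : (volume : Measure (Fin 0 → ℝ)) univ = 1 := by
  rw [Measure.volume_pi_eq_dirac (fun i => i.elim0)]; simp

lemma Ach.point : Ach 0 1 := by
  have hc : IsCompact (univ : Set (Fin 0 → ℝ)) := by
    have : (univ : Set (Fin 0 → ℝ)) = {0} := by
      ext x; simp [Subsingleton.elim x 0]
    rw [this]
    exact isCompact_singleton
  refine ⟨univ, ⟨hc, convex_univ, by simp⟩, 0, ?_⟩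
  have hsl := su_SL hc (mem_univ 0)
  have hz : ∀ x, su (univ : Set (Fin 0 → ℝ)) x = 0 := fun x => by
    rw [Subsingleton.elim x 0, hsl.zero]
  have e1 : sv 0 = 1 := by unfold sv; norm_num
  unfold MZ gI
  simp only [lintegral_unique, vol0, hz, zero_dotProduct, e1]
  simp

lemma Ach.pow {x : ℝ} (hx : 0 ≤ x) (h : Ach n x) (q : ℕ) : Ach (q * (n + 1) + n) (x ^ (q + 1)) := by
  induction q with
  | zero => simpa using h
  | succ q ih =>
    have h1 := Ach.join (by positivity) hx ih h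
    have e : q * (n + 1) + n + n + 1 = (q + 1) * (n + 1) + n := by ring
    rw [e, ← pow_succ] at h1
    exact h1

lemma Ach.add {m : ℕ} {x : ℝ} (hx : 0 ≤ x) (h : Ach m x) (s : ℕ) : Ach (m + s) x := by
  induction s with
  | zero => exact h
  | succ s ih =>
    have h1 := Ach.join hx zero_le_one ih Ach.point
    rwa [mul_one, add_zero] at h1

/-- `sv m ≤ (m+1) e^(m+1)` -/
lemma sv_le (m : ℕ) : sv m ≤ (m + 1) * Real.exp 1 ^ (m + 1) := by
  unfold sv
  have h := Real.pow_div_factorial_le_exp ((m:ℝ) + 1) (by positivity) (m + 1)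
  rw [Nat.factorial_succ] at h
  push_cast at h
  have h0 : (0:ℝ) < m.factorial := by positivity
  have e : Real.exp ((m:ℝ) + 1) = Real.exp 1 ^ (m + 1) := by
    rw [← Real.exp_nat_mul]; push_cast; ring_nf
  rw [e, div_le_iff₀ (by positivity)] at h
  rw [div_le_iff₀ h0]
  linarith

/-- **the growth constant** -/
theorem growth : ∃ g : ℝ, 0 ≤ g ∧ g ≤ 1 ∧
    (∀ (n : ℕ) (K : Set (Fin n → ℝ)), BD K → ∀ z, ENNReal.ofReal (g ^ (n + 1) * sv n) ≤ MZ K z) ∧
    ∀ g' : ℝ, g < g' → ∃ m0 : ℕ, ∀ m : ℕ, m0 ≤ m → ∃ K : Set (Fin m → ℝ), BD K ∧ ∃ z,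
      MZ K z ≤ ENNReal.ofReal ((Real.exp 1 * g') ^ m) := by
  set S : Set ℝ := {x | 0 ≤ x ∧ ∃ n, Ach n (x ^ (n + 1))} with hS
  have h1S : (1:ℝ) ∈ S := ⟨zero_le_one, 0, by simpa using Ach.point⟩
  have hbdd : BddBelow S := ⟨0, fun x hx => hx.1⟩
  set g := sInf S with hg
  have hg0 : 0 ≤ g := le_csInf ⟨1, h1S⟩ fun x hx => hx.1
  have hg1 : g ≤ 1 := csInf_le hbdd h1S
  refine ⟨g, hg0, hg1, ?_, ?_⟩
  · intro n K hK z
    by_cases htop : MZ K z = ∞
    · rw [htop]; exact le_top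
    have hsv := sv_pos n
    set r : ℝ := (MZ K z).toReal / sv n with hr
    have hr0 : 0 ≤ r := div_nonneg ENNReal.toReal_nonneg hsv.le
    have hMZ : MZ K z = ENNReal.ofReal (r * sv n) := by
      rw [hr, div_mul_cancel₀ _ hsv.ne', ENNReal.ofReal_toReal htop]
    set x : ℝ := r ^ (((n + 1 : ℕ) : ℝ)⁻¹) with hx
    have hx0 : 0 ≤ x := Real.rpow_nonneg hr0 _
    have hxr : x ^ (n + 1) = r := Real.rpow_inv_natCast_pow hr0 (Nat.succ_ne_zero n)
    have hxS : x ∈ S := ⟨hx0, n, K, hK, z, by rw [hxr, hMZ]⟩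
    have hgx : g ≤ x := csInf_le hbdd hxS
    rw [hMZ]
    apply ENNReal.ofReal_le_ofReal
    rw [← hxr]
    gcongr
  · intro g' hg'
    obtain ⟨x1, hx1S, hx1⟩ := exists_lt_of_csInf_lt ⟨1, h1S⟩ hg'
    -- we may take `x ≤ 1`
    obtain ⟨x, hxS, hxg, hx1⟩ : ∃ x ∈ S, x < g' ∧ x ≤ 1 := by
      rcases le_total x1 1 with h | h
      · exact ⟨x1, hx1S, hx1, h⟩
      · exact ⟨1, h1S, h.trans_lt hx1, le_rfl⟩
    obtain ⟨hx0, n, hn⟩ := hxS
    obtain ⟨y, hxy, hyg⟩ := exists_between hxg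
    have hy0 : 0 < y := hx0.trans_lt hxy
    -- eventually `(m + 1) c ≤ (g'/y)^m`
    have hρ : 1 < g' / y := by rw [lt_div_iff₀ hy0]; linarith
    have hlim := tendsto_pow_const_div_const_pow_of_one_lt 1 hρ
    set c : ℝ := 2 * Real.exp 1 * (y ^ n)⁻¹ * y with hc
    have hc0 : 0 < c := by positivity
    have hev : ∀ᶠ m : ℕ in atTop, (m:ℝ) ^ 1 / (g' / y) ^ m < c⁻¹ := by
      have := hlim.eventually (gt_mem_nhds (show (0:ℝ) < c⁻¹ by positivity))
      exact this
    obtain ⟨m1, hm1⟩ := eventually_atTop.1 hev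
    refine ⟨max (max m1 n) 1, fun m hm => ?_⟩
    have hmm1 : m1 ≤ m := (le_max_left _ _).trans ((le_max_left _ _).trans hm)
    have hmn : n ≤ m := (le_max_right _ _).trans ((le_max_left _ _).trans hm)
    have hm1' : 1 ≤ m := (le_max_right _ _).trans hm
    -- the body
    set q : ℕ := (m + 1) / (n + 1) - 1 with hq
    have hdiv : 1 ≤ (m + 1) / (n + 1) := by
      rw [Nat.one_le_div_iff (by omega)]
      omega
    set s : ℕ := (m + 1) % (n + 1) with hs
    have hms : (q + 1) * (n + 1) + s = m + 1 := by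
      have h1 : q + 1 = (m + 1) / (n + 1) := by omega
      rw [h1, hs, mul_comm]
      exact Nat.div_add_mod _ _
    have hsn : s ≤ n := by
      have := Nat.mod_lt (m + 1) (show 0 < n + 1 by omega)
      omega
    have hach := (hn.pow (by positivity) q).add (by positivity) s
    have hdim : q * (n + 1) + n + s = m := by
      have : (q + 1) * (n + 1) = q * (n + 1) + n + 1 := by ring
      omega
    rw [hdim, ← pow_mul] at hach
    obtain ⟨K, hK, z, hz⟩ := hach
    refine ⟨K, hK, z, hz.trans (ENNReal.ofReal_le_ofReal ?_)⟩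
    have hexp : m + 1 - n ≤ (n + 1) * (q + 1) := by
      have : (n + 1) * (q + 1) = (q + 1) * (n + 1) := by ring
      omega
    have h1 : x ^ ((n + 1) * (q + 1)) ≤ y ^ (m + 1 - n) := by
      calc x ^ ((n + 1) * (q + 1)) ≤ x ^ (m + 1 - n) := pow_le_pow_of_le_one hx0 hx1 hexp
        _ ≤ y ^ (m + 1 - n) := by gcongr
    have h2 : y ^ (m + 1 - n) = y ^ m * ((y ^ n)⁻¹ * y) := by
      have h3 : y ^ (m + 1 - n) * y ^ n = y ^ m * y := by
        rw [← pow_add, ← pow_succ]
        congr 1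
        omega
      field_simp
      rw [h3, mul_comm]
    have h5 := hm1 m hmm1
    have hg'0 : 0 < g' := hy0.trans hyg
    rw [pow_one, div_lt_iff₀ (by positivity), inv_mul_eq_div, lt_div_iff₀ hc0] at h5
    have hm1R : (1:ℝ) ≤ m := by exact_mod_cast hm1'
    calc x ^ ((n + 1) * (q + 1)) * sv m
        ≤ (y ^ m * ((y ^ n)⁻¹ * y)) * ((m + 1) * Real.exp 1 ^ (m + 1)) := by
          rw [← h2]
          have := sv_pos m
          have := sv_le m
          gcongr
      _ ≤ (y ^ m * ((y ^ n)⁻¹ * y)) * ((2 * m) * Real.exp 1 ^ (m + 1)) := by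
          gcongr
          linarith
      _ = (m * c) * (y ^ m * Real.exp 1 ^ m) := by
          rw [hc, pow_succ]; ring
      _ ≤ (g' / y) ^ m * (y ^ m * Real.exp 1 ^ m) := by gcongr
      _ = (Real.exp 1 * g') ^ m := by
          rw [div_pow, mul_pow]
          field_simp

end Pool.Agent.TH808
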