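import Pool.Agent.TH808.Base

/-!
# Joins: exact formulas
-/

set_option autoImplicit false

open MeasureTheory Set Filter Topology Matrix
open scoped ENNReal Pointwise

namespace Pool.Agent.TH808

variable {n k l : ℕ}

/-! ### the exact volume of a free sum -/

lemma exp_sup {g : ℝ → ℝ≥0∞} {D : ℝ≥0∞} (hg1 : ∀ s, g s = 0 ∨ g s = 1)
    (h : ∀ t : ℝ, 0 < t → g t = 1 → ENNReal.ofReal (Real.exp (-t)) ≤ D) :
    (∫⁻ t in Ioi (0:ℝ), ENNReal.ofReal (Real.exp (-t)) * g t) ≤ D := by
  have hexp1 : ∀ c : ℝ, ∫⁻ s in Ioi c, ENNReal.ofReal (Real.exp (-s)) =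
      ENNReal.ofReal (Real.exp (-c)) := by
    intro c
    rw [← ofReal_integral_eq_lintegral_ofReal (integrableOn_exp_neg_Ioi c)
      (Eventually.of_forall fun x => (Real.exp_pos _).le), integral_exp_neg_Ioi]
  set T : Set ℝ := {t | 0 < t ∧ g t = 1} with hT
  rcases T.eq_empty_or_nonempty with hTe | hTne
  · have h0 : ∫⁻ t in Ioi (0:ℝ), ENNReal.ofReal (Real.exp (-t)) * g t = 0 := by
      rw [setLIntegral_congr_fun measurableSet_Ioi (g := fun _ => (0:ℝ≥0∞)) fun t ht => ?_]
      · simp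
      · rcases hg1 t with h2 | h2
        · simp only [h2, mul_zero]
        · exact absurd (show t ∈ T from ⟨ht, h2⟩) (by rw [hTe]; exact notMem_empty t)
    rw [h0]
    exact zero_le
  · have hbdd : BddBelow T := ⟨0, fun t ht => ht.1.le⟩
    set t0 := sInf T with ht0
    have hclosed : IsClosed {t : ℝ | ENNReal.ofReal (Real.exp (-t)) ≤ D} := by
      refine isClosed_le (ENNReal.continuous_ofReal.comp ?_) continuous_const
      fun_prop
    have hmem : t0 ∈ {t : ℝ | ENNReal.ofReal (Real.exp (-t)) ≤ D} :=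
      closure_minimal (fun t ht => h t ht.1 ht.2) hclosed (csInf_mem_closure hTne hbdd)
    refine le_trans ?_ hmem
    calc ∫⁻ t in Ioi (0:ℝ), ENNReal.ofReal (Real.exp (-t)) * g t
        ≤ ∫⁻ t in Ici t0, ENNReal.ofReal (Real.exp (-t)) := by
          rw [← lintegral_indicator measurableSet_Ioi, ← lintegral_indicator measurableSet_Ici]
          refine lintegral_mono fun t => ?_
          by_cases ht : 0 < t
          · rw [indicator_of_mem (mem_Ioi.2 ht)]
            rcases hg1 t with h2 | h2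
            · rw [h2, mul_zero]; exact zero_le
            · rw [h2, mul_one, indicator_of_mem
                (show t ∈ Ici t0 from csInf_le hbdd ⟨ht, h2⟩)]
          · rw [indicator_of_notMem (show t ∉ Ioi (0:ℝ) from ht)]; exact zero_le
      _ = ENNReal.ofReal (Real.exp (-t0)) := by
          rw [← hexp1 t0]
          exact setLIntegral_congr Ioi_ae_eq_Ici.symm

lemma kk_01 {E : Type*} [SMul ℝ E] (K : Set E) (x : E) (s : ℝ) : kk K x s = 0 ∨ kk K x s = 1 := by
  unfold kk
  by_cases hy : s⁻¹ • x ∈ K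
  · right; rw [indicator_of_mem hy]; rfl
  · left; rw [indicator_of_notMem hy]

lemma kk_one {E : Type*} [SMul ℝ E] {K : Set E} {x : E} {s : ℝ} (h : kk K x s = 1) :
    s⁻¹ • x ∈ K := by
  by_contra hcon
  unfold kk at h
  rw [indicator_of_notMem hcon] at h
  exact zero_ne_one h

lemma FF_ge {E : Type*} [AddCommGroup E] [Module ℝ E] {K : Set E} (hK : Convex ℝ K)
    (h0 : (0 : E) ∈ K) {x : E} {s : ℝ} (hs : 0 ≤ s) (hx : x ∈ s • K) :
    ENNReal.ofReal (Real.exp (-s)) ≤ FF K x := by
  obtain ⟨a, ha, rfl⟩ := hx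
  have hexp1 : ∫⁻ r in Ioi s, ENNReal.ofReal (Real.exp (-r)) = ENNReal.ofReal (Real.exp (-s)) := by
    rw [← ofReal_integral_eq_lintegral_ofReal (integrableOn_exp_neg_Ioi s)
      (Eventually.of_forall fun x => (Real.exp_pos _).le), integral_exp_neg_Ioi]
  rw [← hexp1]
  unfold FF
  calc ∫⁻ r in Ioi s, ENNReal.ofReal (Real.exp (-r))
      = ∫⁻ r in Ioi s, ENNReal.ofReal (Real.exp (-r)) * kk K (s • a) r := by
        refine setLIntegral_congr_fun measurableSet_Ioi fun r hr => ?_
        have hr' : s < r := hr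
        have hr0 : 0 < r := hs.trans_lt hr'
        have hmem : r⁻¹ • s • a ∈ K := by
          rw [smul_smul]
          refine hK.smul_mem_of_zero_mem h0 ha ⟨by positivity, ?_⟩
          rw [inv_mul_le_iff₀ hr0, mul_one]
          exact hr'.le
        have h1 : kk K (s • a) r = 1 := by
          unfold kk
          rw [indicator_of_mem hmem]
          rfl
        rw [h1, mul_one]
    _ ≤ _ := lintegral_mono_set (Ioi_subset_Ioi hs)

lemma fsum_rep {E F : Type*} [AddCommGroup E] [Module ℝ E] [AddCommGroup F] [Module ℝ F]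
    {A : Set E} {B : Set F} (hA : Convex ℝ A) (hB : Convex ℝ B) (hA0 : A.Nonempty)
    (hB0 : B.Nonempty) {p : E × F} (hp : p ∈ fsum A B) :
    ∃ s t : ℝ, 0 ≤ s ∧ 0 ≤ t ∧ s + t = 1 ∧ p.1 ∈ s • A ∧ p.2 ∈ t • B := by
  have hconv : Convex ℝ {p : E × F | ∃ s t : ℝ, 0 ≤ s ∧ 0 ≤ t ∧ s + t = 1 ∧ p.1 ∈ s • A ∧
      p.2 ∈ t • B} := by
    rintro ⟨x1, y1⟩ ⟨s1, t1, hs1, ht1, h1, hx1, hy1⟩ ⟨x2, y2⟩ ⟨s2, t2, hs2, ht2, h2, hx2, hy2⟩
      a b ha hb hab
    refine ⟨a * s1 + b * s2, a * t1 + b * t2, by positivity, by positivity, ?_, ?_, ?_⟩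
    · calc a * s1 + b * s2 + (a * t1 + b * t2) = a * (s1 + t1) + b * (s2 + t2) := by ring
        _ = 1 := by rw [h1, h2, mul_one, mul_one, hab]
    · show a • x1 + b • x2 ∈ (a * s1 + b * s2) • A
      rw [hA.add_smul (by positivity) (by positivity), mul_smul, mul_smul]
      exact add_mem_add (smul_mem_smul_set hx1) (smul_mem_smul_set hx2)
    · show a • y1 + b • y2 ∈ (a * t1 + b * t2) • B
      rw [hB.add_smul (by positivity) (by positivity), mul_smul, mul_smul]
      exact add_mem_add (smul_mem_smul_set hy1) (smul_mem_smul_set hy2)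
  refine convexHull_min ?_ hconv hp
  obtain ⟨a0, ha0⟩ := hA0
  obtain ⟨b0, hb0⟩ := hB0
  rintro _ (⟨x, hx, rfl⟩ | ⟨y, hy, rfl⟩)
  · refine ⟨1, 0, zero_le_one, le_rfl, by norm_num, ?_, ?_⟩
    · rw [one_smul]; exact hx
    · exact ⟨b0, hb0, zero_smul _ _⟩
  · refine ⟨0, 1, le_rfl, zero_le_one, by norm_num, ?_, ?_⟩
    · exact ⟨a0, ha0, zero_smul _ _⟩
    · rw [one_smul]; exact hy

/-- **upper bound for the volume of a free sum** -/
theorem vol_fsum_le {A : Set (Fin k → ℝ)} {B : Set (Fin l → ℝ)} (hAc : IsCompact A)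
    (hBc : IsCompact B) (hA : Convex ℝ A) (hB : Convex ℝ B) (hA0 : (0 : Fin k → ℝ) ∈ A)
    (hB0 : (0 : Fin l → ℝ) ∈ B) :
    ((k + l).factorial : ℝ≥0∞) *
        ((volume : Measure (Fin k → ℝ)).prod (volume : Measure (Fin l → ℝ))) (fsum A B) ≤
      ((k.factorial : ℝ≥0∞) * volume A) * ((l.factorial : ℝ≥0∞) * volume B) := by
  have hK := (fsum_compact hAc hBc).isClosed.measurableSet
  have h1 := FF_int (volume : Measure (Fin k → ℝ)) hAc.isClosed.measurableSet
  have h2 := FF_int (volume : Measure (Fin l → ℝ)) hBc.isClosed.measurableSet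
  have : ((volume : Measure (Fin k → ℝ)).prod (volume : Measure (Fin l → ℝ))).IsAddHaarMeasure :=
    Measure.prod.instIsAddHaarMeasure _ _
  have h3 := FF_int ((volume : Measure (Fin k → ℝ)).prod (volume : Measure (Fin l → ℝ))) hK
  have e3 : Module.finrank ℝ ((Fin k → ℝ) × (Fin l → ℝ)) = k + l := by
    rw [Module.finrank_prod, Module.finrank_pi, Module.finrank_pi, Fintype.card_fin,
      Fintype.card_fin]
  rw [e3] at h3
  rw [Module.finrank_pi, Fintype.card_fin] at h1 h2
  rw [← h1, ← h2, ← h3, lintegral_prod _ (FF_meas hK).aemeasurable]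
  calc ∫⁻ x, ∫⁻ y, FF (fsum A B) (x, y) ≤ ∫⁻ x, ∫⁻ y, FF A x * FF B y := by
        refine lintegral_mono fun x => lintegral_mono fun y => ?_
        refine exp_sup (fun s => kk_01 _ _ s) fun r hr hg => ?_
        obtain ⟨s, t, hs, ht, hst, hx, hy⟩ := fsum_rep hA hB ⟨0, hA0⟩ ⟨0, hB0⟩ (kk_one hg)
        have hx' : x ∈ (r * s) • A := by
          have h4 : r⁻¹ • x ∈ s • A := hx
          have h5 := smul_mem_smul_set (a := r) h4
          rwa [smul_smul, smul_inv_smul₀ hr.ne'] at h5
        have hy' : y ∈ (r * t) • B := by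
          have h4 : r⁻¹ • y ∈ t • B := hy
          have h5 := smul_mem_smul_set (a := r) h4
          rwa [smul_smul, smul_inv_smul₀ hr.ne'] at h5
        calc ENNReal.ofReal (Real.exp (-r)) =
            ENNReal.ofReal (Real.exp (-(r * s))) * ENNReal.ofReal (Real.exp (-(r * t))) := by
              rw [← ENNReal.ofReal_mul (Real.exp_pos _).le, ← Real.exp_add]
              congr 2
              linear_combination r * hst
          _ ≤ _ := mul_le_mul' (FF_ge hA hA0 (by positivity) hx')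
              (FF_ge hB hB0 (by positivity) hy')
    _ = (∫⁻ x, FF A x) * ∫⁻ y, FF B y := by
        rw [← lintegral_mul_const _ (FF_meas hAc.isClosed.measurableSet)]
        refine lintegral_congr fun x => ?_
        rw [lintegral_const_mul _ (FF_meas hBc.isClosed.measurableSet)]

/-! ### cones -/

/-- the cone with apex `0` over `B × {1}` -/
def cn (B : Set (Fin l → ℝ)) : Set ((Fin l → ℝ) × (Fin 1 → ℝ)) :=
  {p | p.2 ∈ seg1 ∧ p.1 ∈ (p.2 0) • B}

lemma cn_convex {B : Set (Fin l → ℝ)} (hB : Convex ℝ B) : Convex ℝ (cn B) := by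
  rintro ⟨x1, y1⟩ ⟨h1, h1'⟩ ⟨x2, y2⟩ ⟨h2, h2'⟩ a b ha hb hab
  simp only at h1 h1' h2 h2'
  refine ⟨⟨?_, ?_⟩, ?_⟩
  · show 0 ≤ a * y1 0 + b * y2 0
    have := mul_nonneg ha h1.1
    have := mul_nonneg hb h2.1
    linarith
  · show a * y1 0 + b * y2 0 ≤ 1
    have e1 := mul_le_mul_of_nonneg_left h1.2 ha
    have e2 := mul_le_mul_of_nonneg_left h2.2 hb
    linarith
  · show a • x1 + b • x2 ∈ (a * y1 0 + b * y2 0) • B
    rw [hB.add_smul (mul_nonneg ha h1.1) (mul_nonneg hb h2.1), mul_smul, mul_smul]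
    exact add_mem_add (smul_mem_smul_set h1') (smul_mem_smul_set h2')

lemma cn_img {B : Set (Fin l → ℝ)} :
    cn B = (fun q : (Fin l → ℝ) × (Fin 1 → ℝ) => (q.2 0 • q.1, q.2)) '' (B ×ˢ seg1) := by
  ext ⟨x, y⟩
  constructor
  · rintro ⟨h1, ⟨b, hb, hx⟩⟩
    exact ⟨(b, y), ⟨hb, h1⟩, by simp only [Prod.mk.injEq, and_true]; exact hx⟩
  · rintro ⟨⟨b, s⟩, ⟨hb, hs⟩, he⟩
    simp only [Prod.mk.injEq] at he
    obtain ⟨rfl, rfl⟩ := he
    exact ⟨hs, ⟨b, hb, rfl⟩⟩

lemma cn_compact {B : Set (Fin l → ℝ)} (hB : IsCompact B) : IsCompact (cn B) := by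
  rw [cn_img]
  refine (hB.prod seg1_compact).image ?_
  fun_prop

lemma cn_zero {B : Set (Fin l → ℝ)} (hB : B.Nonempty) : (0 : (Fin l → ℝ) × (Fin 1 → ℝ)) ∈ cn B := by
  obtain ⟨b, hb⟩ := hB
  exact ⟨seg1_zero, ⟨b, hb, by simp⟩⟩

lemma beta2 (k : ℕ) : ∫⁻ y : Fin 1 → ℝ, seg1.indicator
    (fun y => ENNReal.ofReal ((y 0) ^ k)) y = ENNReal.ofReal (((k:ℝ) + 1)⁻¹) := by
  have h1 := (volume_preserving_funUnique (Fin 1) ℝ)
  have hm : Measurable (fun s : ℝ => (Icc (0:ℝ) 1).indicator
      (fun s => ENNReal.ofReal (s ^ k)) s) := by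
    refine Measurable.indicator ?_ measurableSet_Icc
    exact (measurable_id.pow_const _).ennreal_ofReal
  have h2 := h1.lintegral_comp hm
  have h3 : ∫⁻ u : Fin 1 → ℝ, seg1.indicator (fun y => ENNReal.ofReal ((y 0) ^ k)) u =
      ∫⁻ u : Fin 1 → ℝ, (Icc (0:ℝ) 1).indicator (fun s => ENNReal.ofReal (s ^ k))
        (MeasurableEquiv.funUnique (Fin 1) ℝ u) := by
    refine lintegral_congr fun u => ?_
    have e : MeasurableEquiv.funUnique (Fin 1) ℝ u = u 0 := rfl
    rw [e]
    by_cases h : u ∈ seg1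
    · rw [indicator_of_mem h, indicator_of_mem (show u 0 ∈ Icc (0:ℝ) 1 from h)]
    · rw [indicator_of_notMem h, indicator_of_notMem (show u 0 ∉ Icc (0:ℝ) 1 from h)]
  have h4 := h3.trans h2
  rw [h4, lintegral_indicator measurableSet_Icc, setLIntegral_congr Ioc_ae_eq_Icc.symm,
    ← ofReal_integral_eq_lintegral_ofReal]
  · rw [← intervalIntegral.integral_of_le zero_le_one, integral_pow]
    congr 1
    simp
  · have : Continuous fun s : ℝ => s ^ k := by fun_prop
    exact (this.integrableOn_Icc (a := 0) (b := 1)).mono_set Ioc_subset_Icc_self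
  · refine (ae_restrict_iff' measurableSet_Ioc).2 (Eventually.of_forall fun s hs => ?_)
    have : 0 ≤ s := hs.1.le
    show (0:ℝ) ≤ s ^ k
    positivity

/-- the volume of a cone -/
lemma vol_cn {B : Set (Fin l → ℝ)} (hBc : IsCompact B) :
    ((volume : Measure (Fin l → ℝ)).prod (volume : Measure (Fin 1 → ℝ))) (cn B) =
      ENNReal.ofReal (((l:ℝ) + 1)⁻¹) * volume B := by
  have hK := (cn_compact hBc).isClosed.measurableSet
  rw [Measure.prod_apply_symm hK]
  calc ∫⁻ y : Fin 1 → ℝ, volume ((fun x => (x, y)) ⁻¹' cn B)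
      = ∫⁻ y : Fin 1 → ℝ, seg1.indicator (fun y => ENNReal.ofReal ((y 0) ^ l)) y * volume B := by
        refine lintegral_congr fun y => ?_
        by_cases hy : y ∈ seg1
        · rw [indicator_of_mem hy]
          have hsub : (fun x => (x, y)) ⁻¹' cn B = (y 0) • B := by
            ext x
            exact ⟨fun hx => hx.2, fun hx => ⟨hy, hx⟩⟩
          rw [hsub]
          have := hy.1
          rw [Measure.addHaar_smul, Module.finrank_pi, Fintype.card_fin,
            abs_of_nonneg (by positivity)]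
        · rw [indicator_of_notMem hy, zero_mul]
          have hsub : (fun x => (x, y)) ⁻¹' cn B = (∅ : Set (Fin l → ℝ)) := by
            rw [eq_empty_iff_forall_notMem]
            intro x hx
            exact hy hx.1
          rw [hsub, measure_empty]
    _ = _ := by
        rw [lintegral_mul_const _, beta2]
        refine Measurable.indicator ?_ seg1_compact.measurableSet
        exact ((measurable_pi_apply 0).pow_const _).ennreal_ofReal

/-- the support function of a cone -/
lemma su_cn {B : Set (Fin l → ℝ)} (hB : IsCompact B) (hB0 : B.Nonempty) (v : Fin l → ℝ)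
    (r : Fin 1 → ℝ) : su (Sp l 1 '' cn B) (Sp l 1 (v, r)) = max (su B v + r 0) 0 := by
  have hc := (cn_compact hB).image (Sp_cont (k := l) (l := 1))
  have hne : (Sp l 1 '' cn B).Nonempty := ⟨_, 0, cn_zero hB0, rfl⟩
  refine le_antisymm (su_le hne ?_) (max_le ?_ ?_)
  · rintro _ ⟨⟨x, s⟩, ⟨hs, ⟨b, hb, hx⟩⟩, rfl⟩
    simp only at hs hx
    rw [Sp_dot]
    simp only
    rw [← hx, smul_dotProduct, smul_eq_mul, dot1]
    have h1 := le_su hB hb v
    have h2 : s 0 * (b ⬝ᵥ v) + s 0 * r 0 ≤ s 0 * (su B v + r 0) := by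
      have := mul_le_mul_of_nonneg_left h1 hs.1
      linarith
    refine h2.trans ?_
    rcases le_total (su B v + r 0) 0 with h | h
    · exact (mul_nonpos_of_nonneg_of_nonpos hs.1 h).trans (le_max_right _ _)
    · refine le_trans ?_ (le_max_left _ _)
      nlinarith [hs.2]
  · rw [← le_sub_iff_add_le]
    refine su_le hB0 fun y hy => ?_
    have := le_su hc ⟨(y, fun _ => 1), ⟨by simp [seg1], ⟨y, hy, by simp⟩⟩, rfl⟩ (Sp l 1 (v, r))
    rw [Sp_dot] at this
    simp only at this
    rw [dot1, one_mul] at this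
    linarith
  · have := le_su hc ⟨_, cn_zero hB0, rfl⟩ (Sp l 1 (v, r))
    rw [map_zero, zero_dotProduct] at this
    exact this

lemma gI_scale {h : (Fin n → ℝ) → ℝ} (hh : SL h) (a : Fin n → ℝ) {θ : ℝ} (hθ : 0 < θ) :
    ∫⁻ u : Fin n → ℝ, ENNReal.ofReal (Real.exp (θ * (a ⬝ᵥ u - h u))) =
      ENNReal.ofReal ((θ ^ n)⁻¹) * gI h a := by
  have hc2 : Measurable (fun w : Fin n → ℝ => ENNReal.ofReal (Real.exp (a ⬝ᵥ w - h w))) :=
    gI_meas hh.cont a
  have h4 := lintegral_map (μ := (volume : Measure (Fin n → ℝ))) hc2 (measurable_const_smul θ)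
  have e : (fun x : Fin n → ℝ => θ • x) = (θ • ·) := rfl
  rw [Measure.map_addHaar_smul volume hθ.ne', lintegral_smul_measure, Module.finrank_pi,
    Fintype.card_fin, abs_of_pos (by positivity)] at h4
  unfold gI
  rw [smul_eq_mul] at h4
  rw [h4]
  refine lintegral_congr fun u => ?_
  rw [hh.smul θ u hθ.le, dotProduct_smul, smul_eq_mul, mul_sub]

/-- the level integral of a cone -/
lemma GT_cn {B : Set (Fin l → ℝ)} (hB : IsCompact B) (hB0 : (0 : Fin l → ℝ) ∈ B) (b : Fin l → ℝ)
    {t : ℝ} (ht : 0 < t) {τ : ℝ} (hτ : 0 < τ) :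
    GT (su (Sp l 1 '' cn B)) (Sp l 1 (t • b, fun _ => t)) τ =
      ENNReal.ofReal (Real.exp (t * τ) * (t ^ (l + 1))⁻¹) * gI (su B) b := by
  have hc := (cn_compact hB).image (Sp_cont (k := l) (l := 1))
  have hsm := su_cont hc
  have hSL := su_SL hB hB0
  unfold GT
  rw [← Sp_mp.lintegral_comp (ww_meas1 hsm.measurable _ τ), lintegral_prod]
  · have h1 := (volume_preserving_funUnique (Fin 1) ℝ)
    have hin : ∀ v : Fin l → ℝ, ∫⁻ r : Fin 1 → ℝ,
        ww (su (Sp l 1 '' cn B)) (Sp l 1 (t • b, fun _ => t)) (Sp l 1 (v, r)) τ =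
        ENNReal.ofReal (Real.exp (t * τ) / t) *
          ENNReal.ofReal (Real.exp (t * (b ⬝ᵥ v - su B v))) := by
      intro v
      have hm : Measurable (fun s : ℝ => (Iio (τ - su B v)).indicator
          (fun s => ENNReal.ofReal (Real.exp (t * s))) s * ENNReal.ofReal (Real.exp (t * (b ⬝ᵥ v)))) := by
        refine Measurable.mul_const (Measurable.indicator ?_ measurableSet_Iio) _
        exact (Real.measurable_exp.comp (measurable_const.mul measurable_id)).ennreal_ofReal
      have h2 := h1.lintegral_comp hm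
      have h3 : ∫⁻ r : Fin 1 → ℝ,
          ww (su (Sp l 1 '' cn B)) (Sp l 1 (t • b, fun _ => t)) (Sp l 1 (v, r)) τ =
          ∫⁻ u : Fin 1 → ℝ, (Iio (τ - su B v)).indicator
            (fun s => ENNReal.ofReal (Real.exp (t * s))) (MeasurableEquiv.funUnique (Fin 1) ℝ u) *
              ENNReal.ofReal (Real.exp (t * (b ⬝ᵥ v))) := by
        refine lintegral_congr fun u => ?_
        have e : MeasurableEquiv.funUnique (Fin 1) ℝ u = u 0 := rfl
        rw [e]
        unfold ww
        rw [su_cn hB ⟨0, hB0⟩, Sp_dot]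
        simp only
        rw [dot1, smul_dotProduct, smul_eq_mul]
        by_cases h : u 0 < τ - su B v
        · rw [if_pos (max_lt (by linarith) hτ), indicator_of_mem (mem_Iio.2 h),
            ← ENNReal.ofReal_mul (Real.exp_pos _).le, ← Real.exp_add]
          congr 2
          ring
        · rw [if_neg (fun h' => h (by
            have := (le_max_left _ _).trans_lt h'
            linarith)), indicator_of_notMem (show u 0 ∉ Iio (τ - su B v) from h), zero_mul]
      have h4 := h3.trans h2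
      rw [h4, lintegral_mul_const _ (by
          refine Measurable.indicator ?_ measurableSet_Iio
          exact (Real.measurable_exp.comp (measurable_const.mul measurable_id)).ennreal_ofReal),
        lintegral_indicator measurableSet_Iio, setLIntegral_congr Iio_ae_eq_Iic,
        ← ofReal_integral_eq_lintegral_ofReal (integrableOn_exp_mul_Iic ht _)
          (Eventually.of_forall fun x => (Real.exp_pos _).le), integral_exp_mul_Iic ht,
        ← ENNReal.ofReal_mul (by positivity), ← ENNReal.ofReal_mul (by positivity)]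
      congr 1
      rw [show t * (τ - su B v) = t * τ + -(t * su B v) by ring, Real.exp_add,
        show t * (b ⬝ᵥ v - su B v) = t * (b ⬝ᵥ v) + -(t * su B v) by ring, Real.exp_add]
      ring
    simp_rw [hin]
    have hc1 : Measurable (fun v : Fin l → ℝ =>
        ENNReal.ofReal (Real.exp (t * (b ⬝ᵥ v - su B v)))) := by
      have hcs := su_cont hB
      have : Continuous fun v : Fin l → ℝ => Real.exp (t * (b ⬝ᵥ v - su B v)) := by fun_prop
      exact this.measurable.ennreal_ofReal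
    rw [lintegral_const_mul _ hc1, gI_scale hSL b ht, ← mul_assoc,
      ← ENNReal.ofReal_mul (by positivity)]
    congr 2
    rw [pow_succ]
    field_simp
  · exact ((ww_meas1 hsm.measurable _ τ).comp Sp_mp.measurable).aemeasurable

end Pool.Agent.TH808
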