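import Pool.Agent.TH808.Cov

/-!
# The one-dimensional inequality for log-concave functions
-/

set_option autoImplicit false

open MeasureTheory Set Filter Topology
open scoped ENNReal

namespace Pool.Agent.TH808

/-- positive log-concave functions on the half line -/
structure LC (g : ℝ → ℝ) : Prop where
  pos : ∀ x, 0 < x → 0 < g x
  conc : ConcaveOn ℝ (Ioi 0) (fun x => Real.log (g x))

variable {G H g : ℝ → ℝ}

lemma LC.contOn (h : LC g) : ContinuousOn g (Ioi 0) := by
  have h1 : ContinuousOn (fun x => Real.log (g x)) (Ioi 0) := h.conc.continuousOn isOpen_Ioi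
  have h2 : ContinuousOn (fun x => Real.exp (Real.log (g x))) (Ioi 0) := h1.rexp
  exact h2.congr fun x hx => (Real.exp_log (h.pos x hx)).symm

lemma LC.aesm (h : LC g) : AEStronglyMeasurable g (volume.restrict (Ioi 0)) :=
  h.contOn.aestronglyMeasurable measurableSet_Ioi

lemma LC.mul_exp (h : LC g) (c : ℝ) : LC (fun x => Real.exp (c * x) * g x) where
  pos := fun x hx => mul_pos (Real.exp_pos _) (h.pos x hx)
  conc := by
    have h1 : ConcaveOn ℝ (Ioi (0:ℝ)) (fun x : ℝ => c * x) :=
      ⟨convex_Ioi 0, fun x _ y _ a b _ _ _ => by simp only [smul_eq_mul]; linarith [mul_comm c x]⟩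
    refine (h1.add h.conc).congr fun x hx => ?_
    simp only [Pi.add_apply]
    rw [Real.log_mul (Real.exp_pos _).ne' (h.pos x hx).ne', Real.log_exp]

lemma LC.mul (hG : LC G) (hH : LC H) : LC (fun x => G x * H x) where
  pos := fun x hx => mul_pos (hG.pos x hx) (hH.pos x hx)
  conc := by
    refine (hG.conc.add hH.conc).congr fun x hx => ?_
    simp only [Pi.add_apply]
    rw [Real.log_mul (hG.pos x hx).ne' (hH.pos x hx).ne']

lemma LC.inv_convex (h : LC g) (c : ℝ) :
    ConvexOn ℝ (Ioi 0) (fun x => Real.exp (c * x) / g x) := by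
  have h1 : ConvexOn ℝ (Ioi (0:ℝ)) (fun x : ℝ => c * x) :=
    ⟨convex_Ioi 0, fun x _ y _ a b _ _ _ => by simp only [smul_eq_mul]; linarith [mul_comm c x]⟩
  have h2 : ConvexOn ℝ (Ioi (0:ℝ)) (fun x : ℝ => c * x - Real.log (g x)) := h1.sub h.conc
  have h3 : ConvexOn ℝ (Ioi (0:ℝ)) (Real.exp ∘ fun x : ℝ => c * x - Real.log (g x)) := by
    refine ⟨convex_Ioi 0, fun x hx y hy a b ha hb hab => ?_⟩
    have h4 := h2.2 hx hy ha hb hab
    have h5 := convexOn_exp.2 (mem_univ (c * x - Real.log (g x)))
      (mem_univ (c * y - Real.log (g y))) ha hb hab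
    simp only [Function.comp]
    exact (Real.exp_le_exp.2 h4).trans h5
  refine h3.congr fun x hx => ?_
  simp only [Function.comp]
  rw [Real.exp_sub, Real.exp_log (h.pos x hx)]

/-- an integrable log-concave function decays exponentially -/
lemma LC.decay (h : LC g) (hi : IntegrableOn g (Ioi 0)) :
    ∃ ε : ℝ, 0 < ε ∧ IntegrableOn (fun x => Real.exp (ε * x) * g x) (Ioi 0) := by
  obtain ⟨x1, x2, hx1, h12, hlt⟩ : ∃ x1 x2, 0 < x1 ∧ x1 < x2 ∧ g x2 < g x1 := by
    by_contra hcon
    push Not at hcon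
    have h1 : IntegrableOn (fun _ : ℝ => g 1) (Ioi 1) := by
      refine Integrable.mono' (hi.mono_set (Ioi_subset_Ioi zero_le_one))
        aestronglyMeasurable_const ?_
      refine (ae_restrict_iff' measurableSet_Ioi).2 (Eventually.of_forall fun x hx => ?_)
      rw [Real.norm_eq_abs, abs_of_pos (h.pos 1 one_pos)]
      exact hcon 1 x one_pos hx
    rw [integrableOn_const_iff] at h1
    rcases h1 with h1 | h1
    · exact (h.pos 1 one_pos).ne' (by simpa using h1)
    · rw [Real.volume_Ioi] at h1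
      exact lt_irrefl _ h1
  set δ : ℝ := (Real.log (g x1) - Real.log (g x2)) / (x2 - x1) with hδ
  have hd : 0 < x2 - x1 := by linarith
  have hδ0 : 0 < δ := by
    refine div_pos ?_ hd
    have := Real.log_lt_log (h.pos x2 (hx1.trans h12)) hlt
    linarith
  have hb : ∀ x, x2 ≤ x → g x ≤ g x2 * Real.exp (-(δ * (x - x2))) := by
    intro x hx
    rcases hx.eq_or_lt with e | hx
    · subst e; simp
    have hs := h.conc.neg.slope_mono_adjacent (x := x1) (y := x2) (z := x) hx1
      (hx1.trans (h12.trans hx)) h12 hx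
    simp only [Pi.neg_apply] at hs
    have hp : 0 < x - x2 := by linarith
    have hs' : δ ≤ (-Real.log (g x) - -Real.log (g x2)) / (x - x2) := by
      refine le_trans (le_of_eq ?_) hs
      rw [hδ]; congr 1; ring
    rw [le_div_iff₀ hp] at hs'
    have h3 : Real.log (g x) ≤ Real.log (g x2) + -(δ * (x - x2)) := by linarith
    have h4 := Real.exp_le_exp.2 h3
    rw [Real.exp_add, Real.exp_log (h.pos x (by linarith)), Real.exp_log (h.pos x2 (by linarith))] at h4
    exact h4
  refine ⟨δ / 2, by positivity, ?_⟩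
  have hm := (h.mul_exp (δ / 2)).aesm
  have hU : Ioi (0:ℝ) = Ioc 0 x2 ∪ Ioi x2 := by
    rw [Ioc_union_Ioi_eq_Ioi (by linarith)]
  rw [hU]
  refine IntegrableOn.union ?_ ?_
  · refine Integrable.mono' (g := fun x => Real.exp (δ / 2 * x2) * g x)
      ((hi.mono_set Ioc_subset_Ioi_self).const_mul _) (hm.mono_measure
        (Measure.restrict_mono_set _ Ioc_subset_Ioi_self)) ?_
    refine (ae_restrict_iff' measurableSet_Ioc).2 (Eventually.of_forall fun x hx => ?_)
    have hg := h.pos x hx.1
    rw [Real.norm_eq_abs, abs_of_pos (by positivity)]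
    have : Real.exp (δ / 2 * x) ≤ Real.exp (δ / 2 * x2) :=
      Real.exp_le_exp.2 (mul_le_mul_of_nonneg_left hx.2 (by positivity))
    gcongr
  · have hint : IntegrableOn (fun x => g x2 * Real.exp (δ * x2) * Real.exp (-(δ / 2) * x)) (Ioi x2) :=
      (integrableOn_exp_mul_Ioi (by linarith : -(δ / 2) < 0) x2).const_mul _
    have hsub : Ioi x2 ⊆ Ioi (0:ℝ) := Ioi_subset_Ioi (by linarith)
    refine Integrable.mono' hint (hm.mono_measure (Measure.restrict_mono_set _ hsub)) ?_
    refine (ae_restrict_iff' measurableSet_Ioi).2 (Eventually.of_forall fun x hx => ?_)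
    have hx' : x2 < x := hx
    have hg := h.pos x (by linarith)
    rw [Real.norm_eq_abs, abs_of_pos (by positivity)]
    calc Real.exp (δ / 2 * x) * g x ≤ Real.exp (δ / 2 * x) * (g x2 * Real.exp (-(δ * (x - x2)))) := by
          gcongr; exact hb x hx'.le
      _ = g x2 * Real.exp (δ * x2) * Real.exp (-(δ / 2) * x) := by
          rw [show Real.exp (δ / 2 * x) * (g x2 * Real.exp (-(δ * (x - x2)))) =
            g x2 * (Real.exp (δ / 2 * x) * Real.exp (-(δ * (x - x2)))) by ring,
            mul_assoc, ← Real.exp_add, ← Real.exp_add]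
          congr 2; ring

/-- the first moment of an integrable log-concave function -/
lemma LC.moment (h : LC g) (hi : IntegrableOn g (Ioi 0)) :
    IntegrableOn (fun x => x * g x) (Ioi 0) := by
  obtain ⟨ε, hε, hint⟩ := h.decay hi
  refine Integrable.mono' (g := fun x => ε⁻¹ * (Real.exp (ε * x) * g x)) (hint.const_mul _)
    (continuous_id.aestronglyMeasurable.mul h.aesm) ?_
  refine (ae_restrict_iff' measurableSet_Ioi).2 (Eventually.of_forall fun x hx => ?_)
  have hx0 : (0:ℝ) < x := hx
  have hg := h.pos x hx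
  rw [Real.norm_eq_abs, abs_of_pos (by positivity)]
  have h1 : ε * x ≤ Real.exp (ε * x) := by
    have := Real.add_one_le_exp (ε * x); linarith
  have h2 : x ≤ ε⁻¹ * Real.exp (ε * x) := by
    rw [inv_mul_eq_div, le_div_iff₀ hε]; linarith
  calc x * g x ≤ ε⁻¹ * Real.exp (ε * x) * g x := by gcongr
    _ = _ := by ring

/-- existence of an exponential tilt with a prescribed mean -/
lemma exists_tilt (hH : LC H) (hmono : MonotoneOn H (Ioi 0))
    (h1 : IntegrableOn (fun x => Real.exp (-x) * H x) (Ioi 0)) {M : ℝ} (hM : 0 < M) :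
    ∃ θ : ℝ, 0 < θ ∧ IntegrableOn (fun x => Real.exp (-θ * x) * H x) (Ioi 0) ∧
      ∫ x in Ioi (0:ℝ), x * (Real.exp (-θ * x) * H x) =
        M * ∫ x in Ioi (0:ℝ), Real.exp (-θ * x) * H x := by
  set f : ℝ → ℝ → ℝ≥0∞ := fun θ x => ENNReal.ofReal (Real.exp ((M - x) * θ) * H x) with hf
  set Θ : ℝ → ℝ≥0∞ := fun θ => ∫⁻ x in Ioi (0:ℝ), f θ x with hΘ
  have hfm : ∀ θ, AEMeasurable (f θ) (volume.restrict (Ioi 0)) := by
    intro θ
    have hc : Continuous fun x : ℝ => Real.exp ((M - x) * θ) := by fun_prop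
    exact ((hc.aestronglyMeasurable.mul hH.aesm).aemeasurable).ennreal_ofReal
  -- lower semicontinuity
  have hlsc : LowerSemicontinuous Θ := by
    intro θ
    refine lowerSemicontinuousAt_iff_le_liminf.2 ?_
    have h2 := lintegral_liminf_le' (μ := volume.restrict (Ioi (0:ℝ))) (u := 𝓝 θ) (f := f)
      (fun θ' => hfm θ')
    refine le_trans (le_of_eq ?_) h2
    simp only [hΘ]
    refine lintegral_congr fun x => ?_
    have hc : Continuous fun θ' : ℝ => f θ' x :=
      ENNReal.continuous_ofReal.comp (by fun_prop)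
    exact ((hc.tendsto θ).liminf_eq).symm
  -- integrability and finiteness
  have hfin : ∀ θ, Θ θ < ⊤ ↔ IntegrableOn (fun x => Real.exp (-θ * x) * H x) (Ioi 0) := by
    intro θ
    have e : ∀ x, f θ x = ENNReal.ofReal (Real.exp (M * θ)) *
        ENNReal.ofReal (Real.exp (-θ * x) * H x) := by
      intro x
      simp only [hf]
      rw [← ENNReal.ofReal_mul (Real.exp_pos _).le, ← mul_assoc, ← Real.exp_add]
      congr 3; ring
    have e2 : Θ θ = ENNReal.ofReal (Real.exp (M * θ)) *
        ∫⁻ x in Ioi (0:ℝ), ENNReal.ofReal (Real.exp (-θ * x) * H x) := by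
      simp only [hΘ]
      simp_rw [e]
      rw [lintegral_const_mul' _ _ ENNReal.ofReal_ne_top]
    have hp : ENNReal.ofReal (Real.exp (M * θ)) ≠ 0 := by
      rw [Ne, ENNReal.ofReal_eq_zero, not_le]; exact Real.exp_pos _
    have hsm : AEStronglyMeasurable (fun x => Real.exp (-θ * x) * H x) (volume.restrict (Ioi 0)) :=
      (hH.mul_exp (-θ)).aesm
    have h3 := hasFiniteIntegral_iff_ofReal (μ := volume.restrict (Ioi (0:ℝ)))
      (f := fun x => Real.exp (-θ * x) * H x)
      ((ae_restrict_iff' measurableSet_Ioi).2 (Eventually.of_forall fun x hx =>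
        ((hH.mul_exp (-θ)).pos x hx).le))
    constructor
    · intro h
      refine ⟨hsm, h3.2 ?_⟩
      rw [e2] at h
      rcases ENNReal.mul_lt_top_iff.1 h with h | h | h
      · exact h.2
      · exact absurd h hp
      · rw [h]; exact ENNReal.zero_lt_top
    · intro h
      rw [e2]
      exact ENNReal.mul_lt_top ENNReal.ofReal_lt_top (h3.1 h.2)
  have hΘ1 : Θ 1 < ⊤ := by
    rw [hfin]
    simpa using h1
  -- growth at infinity
  have hgrow : ∃ C : ℝ, 1 ≤ C ∧ ∀ θ, C ≤ θ → Θ 1 ≤ Θ θ := by
    set c0 : ℝ := H (M / 4) * (M / 4) with hc0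
    have hc0p : 0 < c0 := mul_pos (hH.pos _ (by positivity)) (by positivity)
    obtain ⟨C, hC1, hC⟩ : ∃ C : ℝ, 1 ≤ C ∧ (Θ 1).toReal ≤ Real.exp (M / 2 * C) * c0 := by
      refine ⟨max 1 ((Θ 1).toReal / c0 / (M / 2)), le_max_left _ _, ?_⟩
      have h5 : (Θ 1).toReal / c0 ≤ M / 2 * max 1 ((Θ 1).toReal / c0 / (M / 2)) := by
        have := le_max_right 1 ((Θ 1).toReal / c0 / (M / 2))
        rw [div_le_iff₀ (by positivity)] at this
        linarith
      have h6 := Real.add_one_le_exp (M / 2 * max 1 ((Θ 1).toReal / c0 / (M / 2)))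
      have h7 : (Θ 1).toReal / c0 ≤ Real.exp (M / 2 * max 1 ((Θ 1).toReal / c0 / (M / 2))) := by
        linarith
      rwa [div_le_iff₀ hc0p] at h7
    refine ⟨C, hC1, fun θ hθ => ?_⟩
    have h8 : ENNReal.ofReal (Real.exp (M / 2 * C) * c0) ≤ Θ θ := by
      have h9 : ∫⁻ x in Ioo (M / 4) (M / 2), ENNReal.ofReal (Real.exp (M / 2 * C) * H (M / 4)) ≤
          Θ θ := by
        simp only [hΘ]
        refine (setLIntegral_mono_ae' measurableSet_Ioo (Eventually.of_forall fun x hx => ?_)).trans
          (lintegral_mono_set (fun x hx => (by positivity : (0:ℝ) < M / 4).trans hx.1))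
        refine ENNReal.ofReal_le_ofReal ?_
        have hx0 : 0 < x := (by positivity : (0:ℝ) < M / 4).trans hx.1
        have h10 : H (M / 4) ≤ H x := hmono (by positivity : (0:ℝ) < M / 4) hx0 hx.1.le
        have h11 : Real.exp (M / 2 * C) ≤ Real.exp ((M - x) * θ) := by
          refine Real.exp_le_exp.2 ?_
          have h12 : M / 2 ≤ M - x := by linarith [hx.2]
          nlinarith
        have := (hH.pos (M / 4) (by positivity)).le
        gcongr
      refine le_trans (le_of_eq ?_) h9
      rw [setLIntegral_const, Real.volume_Ioo, ← ENNReal.ofReal_mul (by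
        have := (hH.pos (M / 4) (by positivity)).le
        positivity)]
      congr 1
      rw [hc0]; ring
    refine le_trans ?_ h8
    rw [← ENNReal.ofReal_toReal hΘ1.ne]
    exact ENNReal.ofReal_le_ofReal hC
  obtain ⟨C, hC1, hC⟩ := hgrow
  have hne : (Icc (0:ℝ) C).Nonempty := ⟨1, zero_le_one, hC1⟩
  obtain ⟨θ, hθ, hmin⟩ := LowerSemicontinuousOn.exists_isMinOn hne isCompact_Icc
    (hlsc.lowerSemicontinuousOn (Icc 0 C))
  have hminall : ∀ θ', 0 ≤ θ' → Θ θ ≤ Θ θ' := by
    intro θ' h0
    rcases le_total θ' C with h | h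
    · exact hmin ⟨h0, h⟩
    · have h1C : (1:ℝ) ∈ Icc 0 C := ⟨zero_le_one, hC1⟩
      have h2 : Θ θ ≤ Θ 1 := hmin h1C
      exact h2.trans (hC θ' h)
  have hθfin : Θ θ < ⊤ := (hminall 1 zero_le_one).trans_lt hΘ1
  have hθ0 : 0 < θ := by
    refine lt_of_le_of_ne hθ.1 ?_
    rintro rfl
    rw [hfin] at hθfin
    have h1' : IntegrableOn (fun _ : ℝ => H 1) (Ioi 1) := by
      refine Integrable.mono' (hθfin.mono_set (Ioi_subset_Ioi zero_le_one))
        aestronglyMeasurable_const ?_
      refine (ae_restrict_iff' measurableSet_Ioi).2 (Eventually.of_forall fun x hx => ?_)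
      rw [Real.norm_eq_abs, abs_of_pos (hH.pos 1 one_pos)]
      have hx' : (1:ℝ) < x := hx
      have h01 : (1:ℝ) ∈ Ioi (0:ℝ) := mem_Ioi.2 one_pos
      have h0x : x ∈ Ioi (0:ℝ) := mem_Ioi.2 (one_pos.trans hx')
      have := hmono h01 h0x hx'.le
      simpa using this
    rw [integrableOn_const_iff] at h1'
    rcases h1' with h1' | h1'
    · exact (hH.pos 1 one_pos).ne' (by simpa using h1')
    · rw [Real.volume_Ioi] at h1'
      exact lt_irrefl _ h1'
  have hint : IntegrableOn (fun x => Real.exp (-θ * x) * H x) (Ioi 0) := (hfin θ).1 hθfin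
  refine ⟨θ, hθ0, hint, ?_⟩
  -- stationarity through the moment generating function
  obtain ⟨ε, hε, hdec⟩ := (hH.mul_exp (-θ)).decay hint
  set w : ℝ → ℝ≥0∞ := f θ with hw
  set μ : Measure ℝ := (volume.restrict (Ioi (0:ℝ))).withDensity w with hμ
  set X : ℝ → ℝ := fun x => M - x with hX
  have hwfin : ∀ᵐ x ∂(volume.restrict (Ioi (0:ℝ))), w x < ⊤ :=
    Eventually.of_forall fun x => ENNReal.ofReal_lt_top
  have hwr : ∀ x, 0 < x → (w x).toReal = Real.exp ((M - x) * θ) * H x := by
    intro x hx
    exact ENNReal.toReal_ofReal (mul_pos (Real.exp_pos _) (hH.pos x hx)).le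
  have hset : ∀ t, |t| < ε → t ∈ ProbabilityTheory.integrableExpSet X μ := by
    intro t ht
    show Integrable (fun x => Real.exp (t * X x)) μ
    rw [hμ, integrable_withDensity_iff_integrable_smul₀' (hfm θ) hwfin]
    have hb : IntegrableOn (fun x => Real.exp (M * θ + |t| * M) *
        (Real.exp (ε * x) * (Real.exp (-θ * x) * H x))) (Ioi 0) := hdec.const_mul _
    have hm1 : AEStronglyMeasurable (fun x => (w x).toReal • Real.exp (t * X x))
        (volume.restrict (Ioi 0)) := by
      have hc : Continuous fun x : ℝ => Real.exp (t * X x) := by simp only [hX]; fun_prop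
      exact ((hfm θ).ennreal_toReal.aestronglyMeasurable).smul hc.aestronglyMeasurable
    refine Integrable.mono' hb hm1 ?_
    refine (ae_restrict_iff' measurableSet_Ioi).2 (Eventually.of_forall fun x hx => ?_)
    have hx0 : (0:ℝ) < x := hx
    have hHx := hH.pos x hx
    rw [hwr x hx, smul_eq_mul, Real.norm_eq_abs, abs_of_pos (by positivity)]
    have e1 : Real.exp ((M - x) * θ) * H x * Real.exp (t * X x) =
        Real.exp ((M - x) * θ + t * X x) * H x := by rw [Real.exp_add]; ring
    have e2 : Real.exp (M * θ + |t| * M) * (Real.exp (ε * x) * (Real.exp (-θ * x) * H x)) =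
        Real.exp (M * θ + |t| * M + ε * x + -θ * x) * H x := by
      rw [Real.exp_add (M * θ + |t| * M + ε * x), Real.exp_add (M * θ + |t| * M) (ε * x)]; ring
    rw [e1, e2]
    have h3 : (M - x) * θ + t * X x ≤ M * θ + |t| * M + ε * x + -θ * x := by
      simp only [hX]
      have h4 : t * M ≤ |t| * M := mul_le_mul_of_nonneg_right (le_abs_self t) hM.le
      have h5 : -t * x ≤ ε * x := mul_le_mul_of_nonneg_right (by
        have := neg_abs_le t; linarith) hx0.le
      nlinarith
    have := Real.exp_le_exp.2 h3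
    gcongr
  have hball : Metric.ball (0:ℝ) ε ⊆ ProbabilityTheory.integrableExpSet X μ := by
    intro t ht
    exact hset t (by simpa [Real.dist_eq] using ht)
  have hint0 : (0:ℝ) ∈ interior (ProbabilityTheory.integrableExpSet X μ) :=
    mem_interior.2 ⟨_, hball, Metric.isOpen_ball, Metric.mem_ball_self hε⟩
  have hderiv := ProbabilityTheory.hasDerivAt_mgf hint0
  have hmgf : ∀ t, |t| < ε → ENNReal.ofReal (ProbabilityTheory.mgf X μ t) = Θ (θ + t) := by
    intro t ht
    have hI := hset t ht
    unfold ProbabilityTheory.mgf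
    rw [ofReal_integral_eq_lintegral_ofReal hI (Eventually.of_forall fun x => (Real.exp_pos _).le),
      hμ, lintegral_withDensity_eq_lintegral_mul₀ (hfm θ) (by
        have hc : Continuous fun x : ℝ => Real.exp (t * X x) := by simp only [hX]; fun_prop
        exact hc.measurable.ennreal_ofReal.aemeasurable)]
    simp only [hΘ]
    refine setLIntegral_congr_fun measurableSet_Ioi fun x hx => ?_
    simp only [Pi.mul_apply, hf, hX]
    have hHx := hH.pos x hx
    rw [← ENNReal.ofReal_mul (by positivity)]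
    congr 1
    rw [mul_add, Real.exp_add]
    have : t * (M - x) = (M - x) * t := mul_comm _ _
    rw [this]; ring
  have hlocmin : IsLocalMin (ProbabilityTheory.mgf X μ) 0 := by
    have hev : ∀ᶠ t in 𝓝 (0:ℝ), |t| < min ε θ := by
      have := Metric.ball_mem_nhds (0:ℝ) (lt_min hε hθ0)
      filter_upwards [this] with t ht
      simpa [Real.dist_eq] using ht
    filter_upwards [hev] with t ht
    have h1 := hmgf t (ht.trans_le (min_le_left _ _))
    have h0 := hmgf 0 (by simpa using hε)
    rw [add_zero] at h0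
    have h2 := hminall (θ + t) (by
      have := (abs_lt.1 (ht.trans_le (min_le_right _ _))).1; linarith)
    rw [← h0, ← h1] at h2
    exact (ENNReal.ofReal_le_ofReal_iff (ProbabilityTheory.mgf_nonneg)).1 h2
  have hz := hlocmin.hasDerivAt_eq_zero hderiv
  have hconv : ∫ x, X x * Real.exp (0 * X x) ∂μ =
      ∫ x in Ioi (0:ℝ), Real.exp (M * θ) * (M * (Real.exp (-θ * x) * H x) -
        x * (Real.exp (-θ * x) * H x)) := by
    rw [hμ, integral_withDensity_eq_integral_toReal_smul₀ (hfm θ) hwfin]
    refine setIntegral_congr_fun measurableSet_Ioi fun x hx => ?_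
    simp only [zero_mul, Real.exp_zero, mul_one, smul_eq_mul]
    rw [hwr x hx, show (M - x) * θ = M * θ + -θ * x by ring, Real.exp_add]
    simp only [hX]
    ring
  rw [hconv, integral_const_mul] at hz
  have hmom : IntegrableOn (fun x => x * (Real.exp (-θ * x) * H x)) (Ioi 0) :=
    (hH.mul_exp (-θ)).moment hint
  rw [integral_sub (hint.const_mul M) hmom, integral_const_mul] at hz
  have := (mul_eq_zero.1 hz).resolve_left (Real.exp_pos _).ne'
  linarith

end Pool.Agent.TH808
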