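import Pool.Agent.TH808.OneD

/-!
# The one-dimensional inequality: conclusion
-/

set_option autoImplicit false

open MeasureTheory Set Filter Topology
open scoped ENNReal

namespace Pool.Agent.TH808

variable {G H : ℝ → ℝ}

lemma exp_integrable_of_prod (hG : LC G) (hH : LC H) (mG : MonotoneOn G (Ioi 0))
    (mH : MonotoneOn H (Ioi 0))
    (hJ : IntegrableOn (fun x => Real.exp (-x) * (G x * H x)) (Ioi 0)) :
    IntegrableOn (fun x => Real.exp (-x) * H x) (Ioi 0) := by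
  have hm : AEStronglyMeasurable (fun x => Real.exp (-x) * H x) (volume.restrict (Ioi 0)) := by
    have hc : Continuous fun x : ℝ => Real.exp (-x) := by fun_prop
    exact hc.aestronglyMeasurable.mul hH.aesm
  have hU : Ioi (0:ℝ) = Ioc 0 1 ∪ Ioi 1 := by rw [Ioc_union_Ioi_eq_Ioi zero_le_one]
  rw [hU]
  refine IntegrableOn.union ?_ ?_
  · refine Integrable.mono' (g := fun _ => H 1) ?_
      (hm.mono_measure (Measure.restrict_mono_set _ Ioc_subset_Ioi_self)) ?_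
    · exact integrableOn_const (by simp) (by simp)
    · refine (ae_restrict_iff' measurableSet_Ioc).2 (Eventually.of_forall fun x hx => ?_)
      have hHx := hH.pos x hx.1
      rw [Real.norm_eq_abs, abs_of_pos (by positivity)]
      have h1 : H x ≤ H 1 := mH hx.1 (mem_Ioi.2 one_pos) hx.2
      have h2 : Real.exp (-x) ≤ 1 := Real.exp_le_one_iff.2 (by linarith [hx.1])
      nlinarith
  · have hsub : Ioi (1:ℝ) ⊆ Ioi 0 := Ioi_subset_Ioi zero_le_one
    have hG1 := hG.pos 1 one_pos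
    refine Integrable.mono' (g := fun x => (G 1)⁻¹ * (Real.exp (-x) * (G x * H x)))
      ((hJ.mono_set hsub).const_mul _) (hm.mono_measure (Measure.restrict_mono_set _ hsub)) ?_
    refine (ae_restrict_iff' measurableSet_Ioi).2 (Eventually.of_forall fun x hx => ?_)
    have hx1 : (1:ℝ) < x := hx
    have hx0 : (0:ℝ) < x := one_pos.trans hx1
    have hHx := hH.pos x hx0
    have hGx : G 1 ≤ G x := mG (mem_Ioi.2 one_pos) hx0 hx1.le
    rw [Real.norm_eq_abs, abs_of_pos (by positivity), inv_mul_eq_div, le_div_iff₀ hG1]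
    have : Real.exp (-x) * H x * G 1 ≤ Real.exp (-x) * H x * G x := by gcongr
    linarith

/-- **Products of Laplace transforms.** -/
theorem prod_bound (hG : LC G) (hH : LC H) (mG : MonotoneOn G (Ioi 0))
    (mH : MonotoneOn H (Ioi 0))
    (hJ : IntegrableOn (fun x => Real.exp (-x) * (G x * H x)) (Ioi 0)) :
    ∃ θ2 : ℝ, 0 < θ2 ∧ IntegrableOn (fun x => Real.exp (-θ2 * x) * H x) (Ioi 0) ∧
      ∀ θ1 : ℝ, 0 < θ1 → 1 < θ1 + θ2 →
        IntegrableOn (fun x => Real.exp (-θ1 * x) * G x) (Ioi 0) ∧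
        (θ1 + θ2 - 1) * ((∫ x in Ioi (0:ℝ), Real.exp (-θ1 * x) * G x) *
          ∫ x in Ioi (0:ℝ), Real.exp (-θ2 * x) * H x) ≤
            ∫ x in Ioi (0:ℝ), Real.exp (-x) * (G x * H x) := by
  set φ : ℝ → ℝ := fun x => Real.exp (-x) * (G x * H x) with hφ
  have hφLC : LC φ := by
    have := (hG.mul hH).mul_exp (-1)
    have e : (fun x => Real.exp (-1 * x) * (G x * H x)) = φ := by
      funext x; simp only [hφ, neg_mul, one_mul]
    rwa [e] at this
  have hmom : IntegrableOn (fun x => x * φ x) (Ioi 0) := hφLC.moment hJ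
  have hpos : ∀ F : ℝ → ℝ, (∀ x, 0 < x → 0 < F x) → IntegrableOn F (Ioi 0) →
      0 < ∫ x in Ioi (0:ℝ), F x := by
    intro F hF hFi
    have h0 : 0 ≤ ∫ x in Ioi (0:ℝ), F x :=
      setIntegral_nonneg measurableSet_Ioi fun x hx => (hF x hx).le
    rcases h0.eq_or_lt with h | h
    · exact (no_pos (fun x hx => (hF x hx).le) hFi h.symm (u := 0) (v := 1) le_rfl one_pos
        (fun x hx _ => hF x hx)).elim
    · exact h
  have hJ0 : 0 < ∫ x in Ioi (0:ℝ), φ x := hpos φ hφLC.pos hJ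
  have hM0 : 0 < ∫ x in Ioi (0:ℝ), x * φ x :=
    hpos _ (fun x hx => mul_pos hx (hφLC.pos x hx)) hmom
  set J := ∫ x in Ioi (0:ℝ), φ x with hJdef
  set M : ℝ := (∫ x in Ioi (0:ℝ), x * φ x) / J with hM
  have hMpos : 0 < M := div_pos hM0 hJ0
  obtain ⟨θ2, hθ2, hint2, hmean⟩ :=
    exists_tilt hH mH (exp_integrable_of_prod hG hH mG mH hJ) hMpos
  refine ⟨θ2, hθ2, hint2, fun θ1 hθ1 hsum => ?_⟩
  set a1 : ℝ → ℝ := fun x => Real.exp ((1 - θ2) * x) / G x with ha1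
  set a2 : ℝ → ℝ := fun x => Real.exp ((1 - θ1) * x) / H x with ha2
  have e1 : ∀ x, 0 < x → a1 x * φ x = Real.exp (-θ2 * x) * H x := by
    intro x hx
    have hGx := (hG.pos x hx).ne'
    simp only [ha1, hφ]
    rw [show -θ2 * x = (1 - θ2) * x + -x by ring, Real.exp_add]
    field_simp
  have e2 : ∀ x, 0 < x → a2 x * φ x = Real.exp (-θ1 * x) * G x := by
    intro x hx
    have hHx := (hH.pos x hx).ne'
    simp only [ha2, hφ]
    rw [show -θ1 * x = (1 - θ1) * x + -x by ring, Real.exp_add]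
    field_simp
  have e3 : ∀ x, 0 < x → a1 x * a2 x * φ x = Real.exp ((1 - θ1 - θ2) * x) := by
    intro x hx
    have hHx := (hH.pos x hx).ne'
    have hGx := (hG.pos x hx).ne'
    simp only [ha1, ha2, hφ]
    rw [show (1 - θ1 - θ2) * x = (1 - θ2) * x + (1 - θ1) * x + -x by ring, Real.exp_add,
      Real.exp_add]
    field_simp
  have hneg : 1 - θ1 - θ2 < 0 := by linarith
  have hexpint : IntegrableOn (fun x => Real.exp ((1 - θ1 - θ2) * x)) (Ioi 0) :=
    integrableOn_exp_mul_Ioi hneg 0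
  have c1 : ∫ x in Ioi (0:ℝ), x * (a1 x * φ x) =
      ∫ x in Ioi (0:ℝ), x * (Real.exp (-θ2 * x) * H x) :=
    setIntegral_congr_fun measurableSet_Ioi fun x hx => by
      show x * (a1 x * φ x) = _
      rw [e1 x hx]
  have c2 : ∫ x in Ioi (0:ℝ), a1 x * φ x = ∫ x in Ioi (0:ℝ), Real.exp (-θ2 * x) * H x :=
    setIntegral_congr_fun measurableSet_Ioi fun x hx => e1 x hx
  have hcov := cov (φ := φ) (a1 := a1) (a2 := a2) (M := M) hφLC.pos (hG.inv_convex (1 - θ2))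
    (hH.inv_convex (1 - θ1)) (fun x hx => div_pos (Real.exp_pos _) (hG.pos x hx))
    (fun x hx => div_pos (Real.exp_pos _) (hH.pos x hx)) hφLC.aesm hJ hmom
    (hint2.congr_fun (fun x hx => (e1 x hx).symm) measurableSet_Ioi)
    (((hH.mul_exp (-θ2)).moment hint2).congr_fun (fun x hx => by rw [e1 x hx]) measurableSet_Ioi)
    (hexpint.congr_fun (fun x hx => (e3 x hx).symm) measurableSet_Ioi)
    (by rw [hM]; field_simp; rfl)
    (by rw [c1, c2]; exact hmean)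
  obtain ⟨hi, hle⟩ := hcov
  refine ⟨hi.congr_fun (fun x hx => e2 x hx) measurableSet_Ioi, ?_⟩
  rw [setIntegral_congr_fun measurableSet_Ioi (g := fun x => Real.exp (-θ2 * x) * H x)
      (fun x hx => e1 x hx),
    setIntegral_congr_fun measurableSet_Ioi (g := fun x => Real.exp (-θ1 * x) * G x)
      (fun x hx => e2 x hx),
    setIntegral_congr_fun measurableSet_Ioi (g := fun x => Real.exp ((1 - θ1 - θ2) * x))
      (fun x hx => e3 x hx), integral_exp_mul_Ioi hneg] at hle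
  simp only [mul_zero, Real.exp_zero] at hle
  have hc : 0 < θ1 + θ2 - 1 := by linarith
  have e4 : J * (-1 / (1 - θ1 - θ2)) = J / (θ1 + θ2 - 1) := by
    have h1 : (1 - θ1 - θ2) ≠ 0 := hneg.ne
    have h2 : (θ1 + θ2 - 1) ≠ 0 := hc.ne'
    field_simp
    ring
  rw [e4, le_div_iff₀ hc] at hle
  calc _ = (∫ x in Ioi (0:ℝ), Real.exp (-θ2 * x) * H x) *
        (∫ x in Ioi (0:ℝ), Real.exp (-θ1 * x) * G x) * (θ1 + θ2 - 1) := by ring
    _ ≤ J := hle

/-- the constant of the supermultiplicative inequality -/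
noncomputable def TT (k l : ℕ) : ℝ :=
  ((k + l + 1 : ℕ) : ℝ) ^ (k + l + 1) / (((k + 1 : ℕ) : ℝ) ^ (k + 1) * ((l + 1 : ℕ) : ℝ) ^ (l + 1))

lemma TT_pos (k l : ℕ) : 0 < TT k l := by unfold TT; positivity

/-- arithmetic-geometric mean inequality -/
lemma amgm (k l : ℕ) (hk : 1 ≤ k) {s : ℝ} (hs0 : 0 < s) (hs1 : s < 1) :
    (1 - s) ^ k * s ^ (l + 1) * ((k + l + 1 : ℕ) : ℝ) ^ (k + l + 1) ≤
      (k : ℝ) ^ k * ((l + 1 : ℕ) : ℝ) ^ (l + 1) := by
  have hk0 : (0:ℝ) < k := by exact_mod_cast hk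
  have hn0 : (0:ℝ) < ((k + l + 1 : ℕ) : ℝ) := by positivity
  have hl0 : (0:ℝ) < ((l + 1 : ℕ) : ℝ) := by positivity
  set N : ℝ := ((k + l + 1 : ℕ) : ℝ) with hN
  set L : ℝ := ((l + 1 : ℕ) : ℝ) with hL
  have hsum : (k:ℝ) / N + L / N = 1 := by
    rw [← add_div, div_eq_one_iff_eq hn0.ne', hN, hL]; push_cast; ring
  have h1s : 0 < 1 - s := by linarith
  have h := Real.geom_mean_le_arith_mean2_weighted (w₁ := k / N) (w₂ := L / N)
    (p₁ := (1 - s) / k) (p₂ := s / L) (by positivity) (by positivity) (by positivity)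
    (by positivity) hsum
  have e : (k:ℝ) / N * ((1 - s) / k) + L / N * (s / L) = 1 / N := by field_simp; ring
  rw [e] at h
  have h2 := pow_le_pow_left₀ (by positivity) h (k + l + 1)
  rw [mul_pow, ← Real.rpow_natCast _ (k + l + 1), ← Real.rpow_natCast _ (k + l + 1),
    ← Real.rpow_mul (by positivity), ← Real.rpow_mul (by positivity)] at h2
  have e1 : (k:ℝ) / N * ((k + l + 1 : ℕ) : ℝ) = (k : ℕ) := by rw [← hN]; field_simp
  have e2 : L / N * ((k + l + 1 : ℕ) : ℝ) = ((l + 1 : ℕ) : ℝ) := by rw [← hN, ← hL]; field_simp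
  rw [e1, e2, Real.rpow_natCast, Real.rpow_natCast, div_pow, div_pow, div_pow, one_pow] at h2
  have h3 : (1 - s) ^ k * s ^ (l + 1) / ((k:ℝ) ^ k * L ^ (l + 1)) ≤ 1 / N ^ (k + l + 1) := by
    refine le_trans (le_of_eq ?_) h2
    field_simp
  rw [div_le_div_iff₀ (by positivity) (by positivity), one_mul] at h3
  exact h3

/-- **The one-dimensional inequality.** -/
theorem oneD (hG : LC G) (hH : LC H) (mG : MonotoneOn G (Ioi 0)) (mH : MonotoneOn H (Ioi 0))
    (hJ : IntegrableOn (fun x => Real.exp (-x) * (G x * H x)) (Ioi 0)) {k l : ℕ} (hk : 1 ≤ k)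
    {m1 m2 : ℝ} (_hm1 : 0 ≤ m1) (hm2 : 0 ≤ m2)
    (hG1 : ∀ θ : ℝ, 0 < θ → IntegrableOn (fun x => Real.exp (-θ * x) * G x) (Ioi 0) →
      m1 ≤ θ ^ (k + 1) * ∫ x in Ioi (0:ℝ), Real.exp (-θ * x) * G x)
    (hH1 : ∀ θ : ℝ, 0 < θ → IntegrableOn (fun x => Real.exp (-θ * x) * H x) (Ioi 0) →
      m2 ≤ θ ^ (l + 1) * ∫ x in Ioi (0:ℝ), Real.exp (-θ * x) * H x) :
    TT k l * (m1 * m2) ≤ ∫ x in Ioi (0:ℝ), Real.exp (-x) * (G x * H x) := by
  obtain ⟨θ2, hθ2, hint2, hall⟩ := prod_bound hG hH mG mH hJ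
  have h2 := hH1 θ2 hθ2 hint2
  set B := ∫ x in Ioi (0:ℝ), Real.exp (-θ2 * x) * H x with hB
  have hB0 : 0 ≤ B := setIntegral_nonneg measurableSet_Ioi fun x hx =>
    ((hH.mul_exp (-θ2)).pos x hx).le
  -- it suffices to find `θ1`
  suffices hs : ∃ θ1 : ℝ, 0 < θ1 ∧ 1 < θ1 + θ2 ∧
      TT k l * (θ1 ^ (k + 1) * θ2 ^ (l + 1)) ≤ θ1 + θ2 - 1 by
    obtain ⟨θ1, hθ1, hsum, hT⟩ := hs
    obtain ⟨hint1, hle⟩ := hall θ1 hθ1 hsum
    have h1 := hG1 θ1 hθ1 hint1
    set A := ∫ x in Ioi (0:ℝ), Real.exp (-θ1 * x) * G x with hA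
    have hA0 : 0 ≤ A := setIntegral_nonneg measurableSet_Ioi fun x hx =>
      ((hG.mul_exp (-θ1)).pos x hx).le
    refine le_trans ?_ hle
    calc TT k l * (m1 * m2) ≤ TT k l * ((θ1 ^ (k + 1) * A) * (θ2 ^ (l + 1) * B)) := by
          have := (TT_pos k l).le
          gcongr
      _ = TT k l * (θ1 ^ (k + 1) * θ2 ^ (l + 1)) * (A * B) := by ring
      _ ≤ (θ1 + θ2 - 1) * (A * B) := by gcongr
  rcases lt_or_ge θ2 1 with hlt | hge
  · -- the main case
    have hk0 : (0:ℝ) < k := by exact_mod_cast hk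
    have h1s : 0 < 1 - θ2 := by linarith
    refine ⟨(1 - θ2) * (k + 1) / k, by positivity, ?_, ?_⟩
    · have : (1 - θ2) * (k + 1) / k = (1 - θ2) + (1 - θ2) / k := by field_simp
      rw [this]
      have : 0 < (1 - θ2) / k := by positivity
      linarith
    · have e0 : (1 - θ2) * (k + 1) / k + θ2 - 1 = (1 - θ2) / k := by field_simp; ring
      rw [e0]
      have h := amgm k l hk hθ2 hlt
      unfold TT
      have e1 : ((1 - θ2) * (k + 1) / k : ℝ) ^ (k + 1) =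
          (1 - θ2) ^ k * (1 - θ2) * ((k + 1 : ℕ) : ℝ) ^ (k + 1) / ((k:ℝ) ^ k * k) := by
        push_cast
        rw [div_pow, mul_pow, pow_succ (1 - θ2), pow_succ (k:ℝ)]
      rw [e1]
      have hl1 : (0:ℝ) < ((l + 1 : ℕ) : ℝ) := by positivity
      have hk1 : (0:ℝ) < ((k + 1 : ℕ) : ℝ) := by positivity
      rw [show ((k + l + 1 : ℕ) : ℝ) ^ (k + l + 1) /
          (((k + 1 : ℕ) : ℝ) ^ (k + 1) * ((l + 1 : ℕ) : ℝ) ^ (l + 1)) *
          ((1 - θ2) ^ k * (1 - θ2) * ((k + 1 : ℕ) : ℝ) ^ (k + 1) / ((k:ℝ) ^ k * k) *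
            θ2 ^ (l + 1)) =
          ((1 - θ2) ^ k * θ2 ^ (l + 1) * ((k + l + 1 : ℕ) : ℝ) ^ (k + l + 1)) /
            ((k:ℝ) ^ k * ((l + 1 : ℕ) : ℝ) ^ (l + 1)) * ((1 - θ2) / k) by field_simp]
      have h3 : ((1 - θ2) ^ k * θ2 ^ (l + 1) * ((k + l + 1 : ℕ) : ℝ) ^ (k + l + 1)) /
            ((k:ℝ) ^ k * ((l + 1 : ℕ) : ℝ) ^ (l + 1)) ≤ 1 := by
        rw [div_le_one (by positivity)]
        exact h
      calc _ ≤ 1 * ((1 - θ2) / k) := by gcongr
        _ = _ := one_mul _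
  · -- the degenerate case
    set c : ℝ := TT k l * θ2 ^ (l + 1) with hc
    have hc0 : 0 < c := mul_pos (TT_pos k l) (by positivity)
    set ρ : ℝ := min 1 (1 / c) with hρ
    have hρ0 : 0 < ρ := lt_min one_pos (by positivity)
    refine ⟨ρ, hρ0, by linarith, ?_⟩
    have h1 : ρ ^ k ≤ ρ := by
      calc ρ ^ k ≤ ρ ^ 1 := pow_le_pow_of_le_one hρ0.le (min_le_left _ _) hk
        _ = ρ := pow_one _
    have h3 : ρ * c ≤ 1 := by
      have := min_le_right 1 (1 / c)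
      calc ρ * c ≤ 1 / c * c := by gcongr
        _ = 1 := by field_simp
    calc TT k l * (ρ ^ (k + 1) * θ2 ^ (l + 1)) = ρ ^ k * ρ * c := by rw [hc, pow_succ]; ring
      _ ≤ ρ * ρ * c := by gcongr
      _ = ρ * (ρ * c) := by ring
      _ ≤ ρ * 1 := by gcongr
      _ ≤ ρ + θ2 - 1 := by linarith

end Pool.Agent.TH808
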