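import Pool.Agent.TH808.Join

/-!
# Joins and powers
-/

set_option autoImplicit false

open MeasureTheory Set Filter Topology Matrix
open scoped ENNReal Pointwise

namespace Pool.Agent.TH808

variable {n k l : ℕ}

/-- **the dual integral of a join** -/
theorem dual_join {h : (Fin k → ℝ) → ℝ} (hh : SL h) {B : Set (Fin l → ℝ)} (hB : IsCompact B)
    (hB0 : (0 : Fin l → ℝ) ∈ B) (a : Fin k → ℝ) (b : Fin l → ℝ) {t : ℝ} (ht0 : 0 < t)
    (ht1 : t < 1) :
    ∫⁻ u : Fin k → ℝ, ∫⁻ v : Fin (l + 1) → ℝ,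
      ENNReal.ofReal (Real.exp (((1 - t) • a) ⬝ᵥ u + (Sp l 1 (t • b, fun _ => t)) ⬝ᵥ v -
        max (h u) (su (Sp l 1 '' cn B) v))) =
    ENNReal.ofReal ((t ^ (l + 1))⁻¹ * ((1 - t) ^ (k + 1))⁻¹) * (gI h a * gI (su B) b) := by
  have t1 : 0 < 1 - t := by linarith
  have hQc := (cn_compact hB).image (Sp_cont (k := l) (l := 1))
  have hQ0 : (0 : Fin (l + 1) → ℝ) ∈ Sp l 1 '' cn B := ⟨0, cn_zero ⟨0, hB0⟩, map_zero _⟩
  rw [prodform hh (su_SL hQc hQ0)]
  have e1 : ∀ τ ∈ Ioi (0:ℝ), ENNReal.ofReal (Real.exp (-τ)) *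
      (GT h ((1 - t) • a) τ * GT (su (Sp l 1 '' cn B)) (Sp l 1 (t • b, fun _ => t)) τ) =
      (ENNReal.ofReal (t ^ (l + 1))⁻¹ * gI (su B) b) *
        (ENNReal.ofReal (Real.exp (-(1 - t) * τ)) * GT h ((1 - t) • a) τ) := by
    intro τ hτ
    rw [GT_cn hB hB0 b ht0 hτ]
    have e2 : ENNReal.ofReal (Real.exp (-τ)) *
        ENNReal.ofReal (Real.exp (t * τ) * (t ^ (l + 1))⁻¹) =
        ENNReal.ofReal (t ^ (l + 1))⁻¹ * ENNReal.ofReal (Real.exp (-(1 - t) * τ)) := by
      rw [← ENNReal.ofReal_mul (by positivity), ← ENNReal.ofReal_mul (by positivity)]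
      congr 1
      rw [show -(1 - t) * τ = -τ + t * τ by ring, Real.exp_add]
      ring
    calc ENNReal.ofReal (Real.exp (-τ)) * (GT h ((1 - t) • a) τ *
          (ENNReal.ofReal (Real.exp (t * τ) * (t ^ (l + 1))⁻¹) * gI (su B) b)) =
        (ENNReal.ofReal (Real.exp (-τ)) *
          ENNReal.ofReal (Real.exp (t * τ) * (t ^ (l + 1))⁻¹)) *
          (gI (su B) b * GT h ((1 - t) • a) τ) := by ring
      _ = _ := by rw [e2]; ring
  rw [setLIntegral_congr_fun measurableSet_Ioi e1, lintegral_const_mul, lap hh _ t1, smul_smul,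
    inv_mul_cancel₀ t1.ne', one_smul, ENNReal.ofReal_mul (by positivity)]
  · ring
  · have he : Measurable (fun τ : ℝ => ENNReal.ofReal (Real.exp (-(1 - t) * τ))) :=
      (Real.measurable_exp.comp (measurable_const.mul measurable_id)).ennreal_ofReal
    exact he.mul (GT_meas hh.cont.measurable _)

/-- a convex body -/
structure BD {n : ℕ} (K : Set (Fin n → ℝ)) : Prop where
  comp : IsCompact K
  conv : Convex ℝ K
  int : (interior K).Nonempty

lemma BD.vol_ne {K : Set (Fin n → ℝ)} (h : BD K) : volume K ≠ 0 :=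
  (Measure.measure_pos_of_nonempty_interior volume h.int).ne'

lemma BD.trans {K : Set (Fin n → ℝ)} (h : BD K) (c : Fin n → ℝ) :
    BD ((fun x => x + c) '' K) where
  comp := h.comp.image (by fun_prop)
  conv := by
    have h1 := h.conv.translate c
    have h2 : (fun z => c + z) '' K = (fun x => x + c) '' K := by
      refine image_congr fun z _ => ?_
      exact add_comm _ _
    rwa [h2] at h1
  int := by
    have h3 := (Homeomorph.addRight c).image_interior K
    have e : ⇑(Homeomorph.addRight c) = fun x => x + c := rfl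
    rw [e] at h3
    rw [← h3]
    exact h.int.image _

lemma fact_ne' (m : ℕ) : (m.factorial : ℝ≥0∞) ≠ 0 := by
  exact_mod_cast (Nat.factorial_pos m).ne'

/-- **joins**, with the origin in both bodies -/
theorem join0 {A : Set (Fin k → ℝ)} {B : Set (Fin l → ℝ)} (hA : BD A) (hB : BD B)
    (hA0 : (0 : Fin k → ℝ) ∈ A) (hB0 : (0 : Fin l → ℝ) ∈ B) (a : Fin k → ℝ) (b : Fin l → ℝ) :
    ∃ C : Set (Fin (k + l + 1) → ℝ), BD C ∧ ∃ c, MZ C c ≤
      ENNReal.ofReal (sv (k + l + 1) / (sv k * sv l)) * (MZ A a * MZ B b) := by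
  set Q : Set (Fin (l + 1) → ℝ) := Sp l 1 '' cn B with hQ
  have hQc : IsCompact Q := (cn_compact hB.comp).image (Sp_cont (k := l) (l := 1))
  have hQcv : Convex ℝ Q := (cn_convex hB.conv).linear_image (Sp l 1).toLinearMap
  have hQ0 : (0 : Fin (l + 1) → ℝ) ∈ Q := ⟨0, cn_zero ⟨0, hB0⟩, map_zero _⟩
  have hQv : volume Q = ENNReal.ofReal (((l:ℝ) + 1)⁻¹) * volume B := by
    have hm := Sp_mp.measure_preimage (s := Q) hQc.measurableSet.nullMeasurableSet
    rw [hQ, preimage_image_eq _ (Sp l 1).injective, ← hQ, vol_cn hB.comp] at hm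
    exact hm.symm
  set C : Set (Fin (k + (l + 1)) → ℝ) := Sp k (l + 1) '' fsum A Q with hC
  have hCc : IsCompact C := (fsum_compact hA.comp hQc).image Sp_cont
  have hCcv : Convex ℝ C := (convex_convexHull ℝ _).linear_image (Sp k (l + 1)).toLinearMap
  have hCm : ((volume : Measure (Fin k → ℝ)).prod (volume : Measure (Fin (l + 1) → ℝ)))
      (fsum A Q) = volume C := by
    have hm := Sp_mp.measure_preimage (s := C) hCc.measurableSet.nullMeasurableSet
    rwa [hC, preimage_image_eq _ (Sp k (l + 1)).injective] at hm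
  have hl1 : ENNReal.ofReal (((l:ℝ) + 1)⁻¹) ≠ 0 := by
    rw [Ne, ENNReal.ofReal_eq_zero, not_le]; positivity
  have hCv : volume C ≠ 0 := by
    intro h0
    have h1 := vol_fsum hA.comp hQc
    rw [hCm, h0, mul_zero, nonpos_iff_eq_zero, hQv] at h1
    have h2 : ((k.factorial : ℝ≥0∞) * volume A) *
        (((l + 1).factorial : ℝ≥0∞) * (ENNReal.ofReal (((l:ℝ) + 1)⁻¹) * volume B)) ≠ 0 :=
      mul_ne_zero (mul_ne_zero (fact_ne' k) hA.vol_ne)
        (mul_ne_zero (fact_ne' (l + 1)) (mul_ne_zero hl1 hB.vol_ne))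
    exact h2 h1
  refine ⟨C, ⟨hCc, hCcv, int_of_vol hCcv hCv⟩, ?_⟩
  set t : ℝ := ((l:ℝ) + 1) / ((k:ℝ) + l + 2) with ht
  have hkl : (0:ℝ) < (k:ℝ) + l + 2 := by positivity
  have ht0 : 0 < t := by positivity
  have e1 : 1 - t = ((k:ℝ) + 1) / ((k:ℝ) + l + 2) := by rw [ht]; field_simp; ring
  have t1 : 0 < 1 - t := by rw [e1]; positivity
  have ht1 : t < 1 := by linarith
  refine ⟨Sp k (l + 1) ((1 - t) • a, Sp l 1 (t • b, fun _ => t)), ?_⟩
  rw [← ENNReal.mul_le_mul_iff_right (fact_ne' (k + (l + 1))) (ENNReal.natCast_ne_top _)]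
  have hJ : gI (su C) (Sp k (l + 1) ((1 - t) • a, Sp l 1 (t • b, fun _ => t))) =
      ENNReal.ofReal ((t ^ (l + 1))⁻¹ * ((1 - t) ^ (k + 1))⁻¹) * (gI (su A) a * gI (su B) b) := by
    rw [hC, gI_fsum hA.comp hQc ⟨0, hA0⟩ ⟨0, hQ0⟩]
    exact dual_join (su_SL hA.comp hA0) hB.comp hB0 a b ht0 ht1
  have hv := vol_fsum_le hA.comp hQc hA.conv hQcv hA0 hQ0
  rw [hCm, hQv] at hv
  have hfl : ((l + 1).factorial : ℝ≥0∞) * ENNReal.ofReal (((l:ℝ) + 1)⁻¹) = (l.factorial : ℝ≥0∞) := by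
    rw [← ENNReal.ofReal_natCast, ← ENNReal.ofReal_natCast (l.factorial),
      ← ENNReal.ofReal_mul (by positivity), Nat.factorial_succ]
    congr 1
    push_cast
    field_simp
  unfold MZ
  rw [hJ]
  calc ((k + (l + 1)).factorial : ℝ≥0∞) * (volume C *
        (ENNReal.ofReal ((t ^ (l + 1))⁻¹ * ((1 - t) ^ (k + 1))⁻¹) * (gI (su A) a * gI (su B) b)))
      = (((k + (l + 1)).factorial : ℝ≥0∞) * volume C) *
        (ENNReal.ofReal ((t ^ (l + 1))⁻¹ * ((1 - t) ^ (k + 1))⁻¹) * (gI (su A) a * gI (su B) b)) := by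
        ring
    _ ≤ (((k.factorial : ℝ≥0∞) * volume A) *
        (((l + 1).factorial : ℝ≥0∞) * (ENNReal.ofReal (((l:ℝ) + 1)⁻¹) * volume B))) *
        (ENNReal.ofReal ((t ^ (l + 1))⁻¹ * ((1 - t) ^ (k + 1))⁻¹) * (gI (su A) a * gI (su B) b)) := by
        gcongr
    _ = ((k.factorial : ℝ≥0∞) * (((l + 1).factorial : ℝ≥0∞) * ENNReal.ofReal (((l:ℝ) + 1)⁻¹)) *
        ENNReal.ofReal ((t ^ (l + 1))⁻¹ * ((1 - t) ^ (k + 1))⁻¹)) *
        ((volume A * gI (su A) a) * (volume B * gI (su B) b)) := by ring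
    _ = (((k + (l + 1)).factorial : ℝ≥0∞) *
        ENNReal.ofReal (sv (k + l + 1) / (sv k * sv l))) *
        ((volume A * gI (su A) a) * (volume B * gI (su B) b)) := by
        congr 1
        rw [hfl, ← ENNReal.ofReal_natCast, ← ENNReal.ofReal_natCast,
          ← ENNReal.ofReal_natCast ((k + (l + 1)).factorial),
          ← ENNReal.ofReal_mul (by positivity), ← ENNReal.ofReal_mul (by positivity),
          ← ENNReal.ofReal_mul (by positivity)]
        congr 1
        rw [e1, ht]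
        unfold sv
        push_cast
        rw [show k + (l + 1) = k + l + 1 by ring, show (k:ℝ) + l + 1 + 1 = (k:ℝ) + l + 2 by ring,
          div_pow, div_pow]
        have hf1 : ((k + l + 1).factorial : ℝ) ≠ 0 := by positivity
        have hf2 : (k.factorial : ℝ) ≠ 0 := by positivity
        have hf3 : (l.factorial : ℝ) ≠ 0 := by positivity
        have hp : ((k:ℝ) + l + 2) ^ (k + l + 1 + 1) =
            ((k:ℝ) + l + 2) ^ (k + 1) * ((k:ℝ) + l + 2) ^ (l + 1) := by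
          rw [← pow_add]
          congr 1
          ring
        rw [hp]
        field_simp
    _ = _ := by ring

/-- **joins** -/
theorem join {A : Set (Fin k → ℝ)} {B : Set (Fin l → ℝ)} (hA : BD A) (hB : BD B)
    (a : Fin k → ℝ) (b : Fin l → ℝ) :
    ∃ C : Set (Fin (k + l + 1) → ℝ), BD C ∧ ∃ c, MZ C c ≤
      ENNReal.ofReal (sv (k + l + 1) / (sv k * sv l)) * (MZ A a * MZ B b) := by
  obtain ⟨p, hp⟩ := hA.int
  obtain ⟨q, hq⟩ := hB.int
  have hpA := interior_subset hp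
  have hqB := interior_subset hq
  obtain ⟨C, hC, c, hc⟩ := join0 (hA.trans (-p)) (hB.trans (-q)) ⟨p, hpA, by simp⟩
    ⟨q, hqB, by simp⟩ (a + -p) (b + -q)
  rw [MZ_add hA.comp ⟨p, hpA⟩, MZ_add hB.comp ⟨q, hqB⟩] at hc
  exact ⟨C, hC, c, hc⟩

end Pool.Agent.TH808
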