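import Pool.Agent.TH808.Gen

/-!
# Pyramids: exact formulas, and descent of the dimension
-/

set_option autoImplicit false

open MeasureTheory Set Filter Topology Matrix
open scoped ENNReal Pointwise

namespace Pool.Agent.TH808

variable {n k : ℕ}

/-- the segment `[0,1]` in `ℝ^1` -/
def seg1 : Set (Fin 1 → ℝ) := {v | 0 ≤ v 0 ∧ v 0 ≤ 1}

lemma seg1_compact : IsCompact seg1 := by
  have : seg1 = Icc (0 : Fin 1 → ℝ) 1 := by
    ext v
    simp [seg1, Pi.le_def, Fin.forall_fin_one]
  rw [this]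
  exact isCompact_Icc

lemma seg1_zero : (0 : Fin 1 → ℝ) ∈ seg1 := by simp [seg1]

lemma dot1 (x y : Fin 1 → ℝ) : x ⬝ᵥ y = x 0 * y 0 := by simp [dotProduct]

lemma su_seg1 (v : Fin 1 → ℝ) : su seg1 v = max (v 0) 0 := by
  refine le_antisymm (su_le ⟨0, seg1_zero⟩ fun x hx => ?_) (max_le ?_ ?_)
  · rw [dot1]
    rcases le_total (v 0) 0 with h | h
    · exact (mul_nonpos_of_nonneg_of_nonpos hx.1 h).trans (le_max_right _ _)
    · refine le_trans ?_ (le_max_left _ _)
      nlinarith [hx.2]
  · have := le_su seg1_compact (show (fun _ => 1 : Fin 1 → ℝ) ∈ seg1 by simp [seg1]) v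
    rw [dot1, one_mul] at this
    exact this
  · have := le_su seg1_compact seg1_zero v
    rwa [zero_dotProduct] at this

/-- the level integral of a segment -/
lemma GT_seg1 {t : ℝ} (ht : 0 < t) {τ : ℝ} (hτ : 0 < τ) :
    GT (su seg1) (fun _ => t) τ = ENNReal.ofReal (Real.exp (t * τ) / t) := by
  unfold GT
  have h1 := (volume_preserving_funUnique (Fin 1) ℝ)
  have hm : Measurable (fun s : ℝ => (Iio τ).indicator
      (fun s => ENNReal.ofReal (Real.exp (t * s))) s) := by
    refine Measurable.indicator ?_ measurableSet_Iio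
    exact (Real.measurable_exp.comp (measurable_const.mul measurable_id)).ennreal_ofReal
  have h2 := h1.lintegral_comp hm
  have h3 : ∫⁻ u : Fin 1 → ℝ, ww (su seg1) (fun _ => t) u τ =
      ∫⁻ u : Fin 1 → ℝ, (Iio τ).indicator (fun s => ENNReal.ofReal (Real.exp (t * s)))
        (MeasurableEquiv.funUnique (Fin 1) ℝ u) := by
    refine lintegral_congr fun u => ?_
    have e : MeasurableEquiv.funUnique (Fin 1) ℝ u = u 0 := rfl
    rw [e]
    unfold ww
    rw [su_seg1, dot1]
    by_cases h : u 0 < τ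
    · rw [if_pos (max_lt h hτ), indicator_of_mem (mem_Iio.2 h)]
    · rw [if_neg (fun h' => h ((le_max_left _ _).trans_lt h')),
        indicator_of_notMem (show u 0 ∉ Iio τ from h)]
  have h4 := h3.trans h2
  rw [h4, lintegral_indicator measurableSet_Iio, setLIntegral_congr Iio_ae_eq_Iic,
    ← ofReal_integral_eq_lintegral_ofReal (integrableOn_exp_mul_Iic ht τ)
      (Eventually.of_forall fun x => (Real.exp_pos _).le), integral_exp_mul_Iic ht]

/-- **the dual integral of a pyramid** -/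
theorem dual_pyr {h : (Fin k → ℝ) → ℝ} (hh : SL h) (a : Fin k → ℝ) {t : ℝ} (ht0 : 0 < t)
    (ht1 : t < 1) :
    ∫⁻ u : Fin k → ℝ, ∫⁻ v : Fin 1 → ℝ,
      ENNReal.ofReal (Real.exp (((1 - t) • a) ⬝ᵥ u + (fun _ => t) ⬝ᵥ v - max (h u) (su seg1 v))) =
    ENNReal.ofReal ((t * (1 - t) ^ (k + 1))⁻¹) * gI h a := by
  have t1 : 0 < 1 - t := by linarith
  rw [prodform hh (su_SL seg1_compact seg1_zero)]
  have e1 : ∀ τ ∈ Ioi (0:ℝ), ENNReal.ofReal (Real.exp (-τ)) *
      (GT h ((1 - t) • a) τ * GT (su seg1) (fun _ => t) τ) =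
      ENNReal.ofReal t⁻¹ * (ENNReal.ofReal (Real.exp (-(1 - t) * τ)) * GT h ((1 - t) • a) τ) := by
    intro τ hτ
    rw [GT_seg1 ht0 hτ]
    have e2 : ENNReal.ofReal (Real.exp (-τ)) * ENNReal.ofReal (Real.exp (t * τ) / t) =
        ENNReal.ofReal t⁻¹ * ENNReal.ofReal (Real.exp (-(1 - t) * τ)) := by
      rw [← ENNReal.ofReal_mul (by positivity), ← ENNReal.ofReal_mul (by positivity)]
      congr 1
      rw [show -(1 - t) * τ = -τ + t * τ by ring, Real.exp_add]
      field_simp
    calc ENNReal.ofReal (Real.exp (-τ)) *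
          (GT h ((1 - t) • a) τ * ENNReal.ofReal (Real.exp (t * τ) / t)) =
        (ENNReal.ofReal (Real.exp (-τ)) * ENNReal.ofReal (Real.exp (t * τ) / t)) *
          GT h ((1 - t) • a) τ := by ring
      _ = _ := by rw [e2, mul_assoc]
  rw [setLIntegral_congr_fun measurableSet_Ioi e1, lintegral_const_mul, lap hh _ t1, smul_smul,
    inv_mul_cancel₀ t1.ne', one_smul, ← mul_assoc, ← ENNReal.ofReal_mul (by positivity)]
  · congr 2
    rw [mul_inv]
  · have he : Measurable (fun τ : ℝ => ENNReal.ofReal (Real.exp (-(1 - t) * τ))) :=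
      (Real.measurable_exp.comp (measurable_const.mul measurable_id)).ennreal_ofReal
    exact he.mul (GT_meas hh.cont.measurable _)

/-- the slices of a pyramid -/
lemma fsum_seg1_sub {A : Set (Fin k → ℝ)} (hA : Convex ℝ A) (hA0 : (0 : Fin k → ℝ) ∈ A) :
    fsum A seg1 ⊆ {p : (Fin k → ℝ) × (Fin 1 → ℝ) | p.2 ∈ seg1 ∧ p.1 ∈ (1 - p.2 0) • A} := by
  refine convexHull_min ?_ ?_
  · rintro _ (⟨x, hx, rfl⟩ | ⟨y, hy, rfl⟩)
    · refine ⟨seg1_zero, ?_⟩
      show x ∈ (1 - (0 : Fin 1 → ℝ) 0) • A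
      rw [Pi.zero_apply, sub_zero, one_smul]
      exact hx
    · exact ⟨hy, ⟨0, hA0, smul_zero _⟩⟩
  · rintro ⟨x1, y1⟩ ⟨h1, h1'⟩ ⟨x2, y2⟩ ⟨h2, h2'⟩ a b ha hb hab
    simp only at h1 h1' h2 h2'
    have g1 : 0 ≤ 1 - y1 0 := by linarith [h1.2]
    have g2 : 0 ≤ 1 - y2 0 := by linarith [h2.2]
    refine ⟨⟨?_, ?_⟩, ?_⟩
    · show 0 ≤ a * y1 0 + b * y2 0
      have := mul_nonneg ha h1.1
      have := mul_nonneg hb h2.1
      linarith
    · show a * y1 0 + b * y2 0 ≤ 1
      have := mul_nonneg ha g1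
      have := mul_nonneg hb g2
      nlinarith
    · show a • x1 + b • x2 ∈ (1 - (a * y1 0 + b * y2 0)) • A
      have e : 1 - (a * y1 0 + b * y2 0) = a * (1 - y1 0) + b * (1 - y2 0) := by
        linear_combination -hab
      rw [e, hA.add_smul (by positivity) (by positivity), mul_smul, mul_smul]
      exact add_mem_add (smul_mem_smul_set h1') (smul_mem_smul_set h2')

lemma beta1 (k : ℕ) : ∫⁻ y : Fin 1 → ℝ, seg1.indicator
    (fun y => ENNReal.ofReal ((1 - y 0) ^ k)) y = ENNReal.ofReal (((k:ℝ) + 1)⁻¹) := by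
  have h1 := (volume_preserving_funUnique (Fin 1) ℝ)
  have hm : Measurable (fun s : ℝ => (Icc (0:ℝ) 1).indicator
      (fun s => ENNReal.ofReal ((1 - s) ^ k)) s) := by
    refine Measurable.indicator ?_ measurableSet_Icc
    exact ((measurable_const.sub measurable_id).pow_const _).ennreal_ofReal
  have h2 := h1.lintegral_comp hm
  have h3 : ∫⁻ u : Fin 1 → ℝ, seg1.indicator (fun y => ENNReal.ofReal ((1 - y 0) ^ k)) u =
      ∫⁻ u : Fin 1 → ℝ, (Icc (0:ℝ) 1).indicator (fun s => ENNReal.ofReal ((1 - s) ^ k))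
        (MeasurableEquiv.funUnique (Fin 1) ℝ u) := by
    refine lintegral_congr fun u => ?_
    have e : MeasurableEquiv.funUnique (Fin 1) ℝ u = u 0 := rfl
    rw [e]
    by_cases h : u ∈ seg1
    · rw [indicator_of_mem h, indicator_of_mem (show u 0 ∈ Icc (0:ℝ) 1 from h)]
    · rw [indicator_of_notMem h, indicator_of_notMem (show u 0 ∉ Icc (0:ℝ) 1 from h)]
  have h4 := h3.trans h2
  rw [h4, lintegral_indicator measurableSet_Icc, setLIntegral_congr Ioc_ae_eq_Icc.symm,
    ← ofReal_integral_eq_lintegral_ofReal]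
  · rw [← intervalIntegral.integral_of_le zero_le_one,
      intervalIntegral.integral_comp_sub_left (fun x : ℝ => x ^ k) 1, integral_pow]
    congr 1
    simp
  · have : Continuous fun s : ℝ => (1 - s) ^ k := by fun_prop
    exact (this.integrableOn_Icc (a := 0) (b := 1)).mono_set Ioc_subset_Icc_self
  · refine (ae_restrict_iff' measurableSet_Ioc).2 (Eventually.of_forall fun s hs => ?_)
    have : 0 ≤ 1 - s := by linarith [hs.2]
    show (0:ℝ) ≤ (1 - s) ^ k
    positivity

/-- the volume of a pyramid -/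
lemma vol_pyr {A : Set (Fin k → ℝ)} (hAc : IsCompact A) (hA : Convex ℝ A)
    (hA0 : (0 : Fin k → ℝ) ∈ A) :
    ((volume : Measure (Fin k → ℝ)).prod (volume : Measure (Fin 1 → ℝ))) (fsum A seg1) ≤
      ENNReal.ofReal (((k:ℝ) + 1)⁻¹) * volume A := by
  have hK := (fsum_compact hAc seg1_compact).isClosed.measurableSet
  rw [Measure.prod_apply_symm hK]
  calc ∫⁻ y : Fin 1 → ℝ, volume ((fun x => (x, y)) ⁻¹' fsum A seg1)
      ≤ ∫⁻ y : Fin 1 → ℝ, seg1.indicator (fun y => ENNReal.ofReal ((1 - y 0) ^ k)) y * volume A := by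
        refine lintegral_mono fun y => ?_
        by_cases hy : y ∈ seg1
        · rw [indicator_of_mem hy]
          have hsub : (fun x => (x, y)) ⁻¹' fsum A seg1 ⊆ (1 - y 0) • A := fun x hx =>
            (fsum_seg1_sub hA hA0 hx).2
          refine (measure_mono hsub).trans (le_of_eq ?_)
          have : 0 ≤ 1 - y 0 := by linarith [hy.2]
          rw [Measure.addHaar_smul, Module.finrank_pi, Fintype.card_fin,
            abs_of_nonneg (by positivity)]
        · rw [indicator_of_notMem hy, zero_mul, nonpos_iff_eq_zero]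
          have hsub : (fun x => (x, y)) ⁻¹' fsum A seg1 = (∅ : Set (Fin k → ℝ)) := by
            rw [eq_empty_iff_forall_notMem]
            intro x hx
            exact hy (fsum_seg1_sub hA hA0 hx).1
          rw [hsub, measure_empty]
    _ = _ := by
        rw [lintegral_mul_const _, beta1]
        refine Measurable.indicator ?_ seg1_compact.measurableSet
        exact ((measurable_const.sub (measurable_pi_apply 0)).pow_const _).ennreal_ofReal

/-- convex sets of positive volume have interior points -/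
lemma int_of_vol {S : Set (Fin n → ℝ)} (hS : Convex ℝ S) (hv : volume S ≠ 0) :
    (interior S).Nonempty := by
  by_contra hcon
  rw [not_nonempty_iff_eq_empty] at hcon
  apply hv
  have h1 := hS.addHaar_frontier (volume : Measure (Fin n → ℝ))
  refine measure_mono_null ?_ h1
  rw [← closure_sdiff_interior, hcon, sdiff_empty]
  exact subset_closure

/-- **descent**: Mahler's inequality in dimension `k + 1` implies it in dimension `k` -/
theorem descend (hmah : ∀ K : Set (Fin (k + 1) → ℝ), IsCompact K → Convex ℝ K →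
      (interior K).Nonempty → ∀ z, ENNReal.ofReal (sv (k + 1)) ≤ MZ K z)
    {K : Set (Fin k → ℝ)} (hKc : IsCompact K) (hK : Convex ℝ K) (hi : (interior K).Nonempty)
    (z : Fin k → ℝ) : ENNReal.ofReal (sv k) ≤ MZ K z := by
  -- move a point of the body to the origin
  obtain ⟨q, hq⟩ := hi
  have hqK : q ∈ K := interior_subset hq
  have e0 := MZ_add hKc ⟨q, hqK⟩ (-q) z
  set A : Set (Fin k → ℝ) := (fun x => x + -q) '' K with hA
  have hAc : IsCompact A := hKc.image (by fun_prop)
  have hA0 : (0 : Fin k → ℝ) ∈ A := ⟨q, hqK, by simp⟩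
  have hAcv : Convex ℝ A := by
    have h1 := hK.translate (-q)
    have h2 : (fun z => -q + z) '' K = A := by
      rw [hA]
      refine image_congr fun z _ => ?_
      abel
    rwa [h2] at h1
  have hAv : volume A ≠ 0 := by
    have h1 : volume A = volume K := by rw [hA]; simp
    rw [h1]
    exact (Measure.measure_pos_of_nonempty_interior volume ⟨q, hq⟩).ne'
  rw [← e0]
  set a := z + -q with ha
  set t : ℝ := 1 / ((k:ℝ) + 2) with ht
  have ht0 : 0 < t := by positivity
  have ht1 : t < 1 := by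
    rw [ht, div_lt_one (by positivity)]
    have : (0:ℝ) ≤ k := Nat.cast_nonneg k
    linarith
  -- the pyramid
  set P : Set (Fin (k + 1) → ℝ) := Sp k 1 '' fsum A seg1 with hP
  have hPc : IsCompact P := (fsum_compact hAc seg1_compact).image Sp_cont
  have hPcv : Convex ℝ P := (convex_convexHull ℝ _).linear_image (Sp k 1).toLinearMap
  have hm : ((volume : Measure (Fin k → ℝ)).prod (volume : Measure (Fin 1 → ℝ))) (fsum A seg1) =
      volume P := by
    have hm := Sp_mp.measure_preimage (s := P) hPc.measurableSet.nullMeasurableSet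
    rwa [hP, preimage_image_eq _ (Sp k 1).injective] at hm
  have hseg : volume seg1 ≠ 0 := by
    have : seg1 = Icc (0 : Fin 1 → ℝ) 1 := by
      ext v
      simp [seg1, Pi.le_def, Fin.forall_fin_one]
    rw [this, Real.volume_Icc_pi]
    simp
  have hPv : volume P ≠ 0 := by
    intro h0
    have h1 := vol_fsum hAc seg1_compact
    rw [hm, h0, mul_zero, nonpos_iff_eq_zero] at h1
    have hf : ∀ m : ℕ, (m.factorial : ℝ≥0∞) ≠ 0 := fun m => by
      exact_mod_cast (Nat.factorial_pos m).ne'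
    rcases mul_eq_zero.1 h1 with h2 | h2
    · rcases mul_eq_zero.1 h2 with h3 | h3
      · exact hf _ h3
      · exact hAv h3
    · rcases mul_eq_zero.1 h2 with h3 | h3
      · exact hf _ h3
      · exact hseg h3
  have hmain := hmah P hPc hPcv (int_of_vol hPcv hPv) (Sp k 1 ((1 - t) • a, fun _ => t))
  unfold MZ at hmain
  rw [hP, gI_fsum hAc seg1_compact ⟨0, hA0⟩ ⟨0, seg1_zero⟩, dual_pyr (su_SL hAc hA0) a ht0 ht1,
    ← hP, ← hm] at hmain
  have h5 : ENNReal.ofReal (sv (k + 1)) ≤
      ENNReal.ofReal (((k:ℝ) + 1)⁻¹ * (t * (1 - t) ^ (k + 1))⁻¹) * MZ A a := by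
    refine hmain.trans ?_
    have t1 : 0 < 1 - t := by linarith
    calc _ ≤ (ENNReal.ofReal (((k:ℝ) + 1)⁻¹) * volume A) *
          (ENNReal.ofReal ((t * (1 - t) ^ (k + 1))⁻¹) * gI (su A) a) := by
          gcongr
          exact vol_pyr hAc hAcv hA0
      _ = _ := by
          rw [ENNReal.ofReal_mul (by positivity)]
          unfold MZ
          ring
  -- arithmetic
  have t1 : 0 < 1 - t := by linarith
  set c : ℝ := ((k:ℝ) + 1)⁻¹ * (t * (1 - t) ^ (k + 1))⁻¹ with hc
  have hc0 : 0 < c := by positivity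
  have hcsv : sv (k + 1) = c * sv k := by
    have e1 : 1 - t = ((k:ℝ) + 1) / ((k:ℝ) + 2) := by rw [ht]; field_simp; ring
    rw [hc, e1, ht]
    unfold sv
    rw [Nat.factorial_succ]
    push_cast
    have hk0 : ((k.factorial : ℕ) : ℝ) ≠ 0 := by positivity
    have h1 : ((k:ℝ) + 1) ≠ 0 := by positivity
    have h2 : ((k:ℝ) + 2) ≠ 0 := by positivity
    rw [show (k:ℝ) + 1 + 1 = (k:ℝ) + 2 by ring, div_pow]
    field_simp
    ring
  rw [hcsv, ENNReal.ofReal_mul hc0.le] at h5
  have hcne : ENNReal.ofReal c ≠ 0 := by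
    rw [Ne, ENNReal.ofReal_eq_zero, not_le]; exact hc0
  exact (ENNReal.mul_le_mul_iff_right hcne ENNReal.ofReal_ne_top).1 h5

end Pool.Agent.TH808
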