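import Pool.Agent.TH808.Dual
import Pool.Agent.TH808.Vol

/-!
# Free sums of two bodies
-/

set_option autoImplicit false

open MeasureTheory Set Filter Topology Matrix
open scoped ENNReal

namespace Pool.Agent.TH808

variable {n k l : ℕ}

/-- support function -/
noncomputable def su {n : ℕ} (K : Set (Fin n → ℝ)) (y : Fin n → ℝ) : ℝ :=
  sSup ((fun x => x ⬝ᵥ y) '' K)

/-- the Mahler volume `vol(K) ∫ exp(z·y - h_K(y)) dy` of `K - z` -/
noncomputable def MZ {n : ℕ} (K : Set (Fin n → ℝ)) (z : Fin n → ℝ) : ℝ≥0∞ :=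
  volume K * gI (su K) z

lemma su_cont {K : Set (Fin n → ℝ)} (hK : IsCompact K) : Continuous (su K) := by
  refine hK.continuous_sSup (f := fun y x => x ⬝ᵥ y) ?_
  show Continuous fun p : (Fin n → ℝ) × (Fin n → ℝ) => p.2 ⬝ᵥ p.1
  fun_prop

lemma su_bdd {K : Set (Fin n → ℝ)} (hK : IsCompact K) (y : Fin n → ℝ) :
    BddAbove ((fun x => x ⬝ᵥ y) '' K) :=
  (hK.image (f := fun x => x ⬝ᵥ y) (by fun_prop)).bddAbove

lemma le_su {K : Set (Fin n → ℝ)} (hK : IsCompact K) {x : Fin n → ℝ} (hx : x ∈ K)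
    (y : Fin n → ℝ) : x ⬝ᵥ y ≤ su K y :=
  le_csSup (su_bdd hK y) ⟨x, hx, rfl⟩

lemma su_le {K : Set (Fin n → ℝ)} (hK : K.Nonempty) {y : Fin n → ℝ} {c : ℝ}
    (h : ∀ x ∈ K, x ⬝ᵥ y ≤ c) : su K y ≤ c := by
  refine csSup_le (hK.image _) ?_
  rintro _ ⟨x, hx, rfl⟩
  exact h x hx

lemma su_SL {K : Set (Fin n → ℝ)} (hK : IsCompact K) (h0 : (0 : Fin n → ℝ) ∈ K) : SL (su K) where
  nonneg u := by simpa using le_su hK h0 u
  cont := su_cont hK
  add u v := by
    refine su_le ⟨0, h0⟩ fun x hx => ?_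
    rw [dotProduct_add]
    exact add_le_add (le_su hK hx u) (le_su hK hx v)
  smul t u ht := by
    rcases ht.eq_or_lt with rfl | ht
    · rw [zero_smul, zero_mul]
      refine le_antisymm (su_le ⟨0, h0⟩ fun x _ => by simp) (by simpa using le_su hK h0 0)
    · refine le_antisymm (su_le ⟨0, h0⟩ fun x hx => ?_) ?_
      · rw [dotProduct_smul, smul_eq_mul]
        exact mul_le_mul_of_nonneg_left (le_su hK hx u) ht.le
      · rw [← le_div_iff₀' ht]
        refine su_le ⟨0, h0⟩ fun x hx => ?_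
        rw [le_div_iff₀' ht]
        have := le_su hK hx (t • u)
        rwa [dotProduct_smul, smul_eq_mul] at this

lemma gI_meas {h : (Fin n → ℝ) → ℝ} (hh : Continuous h) (a : Fin n → ℝ) :
    Measurable (fun u : Fin n → ℝ => ENNReal.ofReal (Real.exp (a ⬝ᵥ u - h u))) := by
  have : Continuous fun u : Fin n → ℝ => Real.exp (a ⬝ᵥ u - h u) := by fun_prop
  exact this.measurable.ennreal_ofReal

/-- **linear invariance** -/
lemma MZ_lin (T : (Fin n → ℝ) →ₗ[ℝ] (Fin n → ℝ)) (hT : LinearMap.det T ≠ 0)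
    {K : Set (Fin n → ℝ)} (hK : IsCompact K) (z : Fin n → ℝ) :
    MZ (T '' K) (T z) = MZ K z := by
  set M := LinearMap.toMatrix' T with hM
  set T' : (Fin n → ℝ) →ₗ[ℝ] (Fin n → ℝ) := Matrix.toLin' Mᵀ with hT'
  have hdual : ∀ x y, T x ⬝ᵥ y = x ⬝ᵥ T' y := by
    intro x y
    rw [hT', Matrix.toLin'_apply, Matrix.dotProduct_mulVec, Matrix.vecMul_transpose, hM,
      LinearMap.toMatrix'_mulVec]
  have hdet : LinearMap.det T' = LinearMap.det T := by
    rw [hT', LinearMap.det_toLin', Matrix.det_transpose, hM, LinearMap.det_toMatrix']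
  have hsu : ∀ y, su (T '' K) y = su K (T' y) := by
    intro y
    unfold su
    rw [image_image]
    simp_rw [hdual]
  unfold MZ
  rw [Measure.addHaar_image_linearMap]
  have h1 := lintegral_map (μ := (volume : Measure (Fin n → ℝ))) (gI_meas (su_cont hK) z)
    (show Measurable T' from (LinearMap.continuous_on_pi T').measurable)
  rw [Measure.map_linearMap_addHaar_eq_smul_addHaar volume (hdet ▸ hT), lintegral_smul_measure,
    hdet, smul_eq_mul] at h1
  have h2 : gI (su (T '' K)) (T z) = ENNReal.ofReal |(LinearMap.det T)⁻¹| * gI (su K) z := by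
    unfold gI
    rw [h1]
    refine lintegral_congr fun y => ?_
    rw [hsu, hdual]
  rw [h2]
  have h3 : ENNReal.ofReal |LinearMap.det T| * ENNReal.ofReal |(LinearMap.det T)⁻¹| = 1 := by
    rw [← ENNReal.ofReal_mul (abs_nonneg _), ← abs_mul, mul_inv_cancel₀ hT, abs_one,
      ENNReal.ofReal_one]
  calc ENNReal.ofReal |LinearMap.det T| * volume K *
        (ENNReal.ofReal |(LinearMap.det T)⁻¹| * gI (su K) z) =
      (ENNReal.ofReal |LinearMap.det T| * ENNReal.ofReal |(LinearMap.det T)⁻¹|) *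
        (volume K * gI (su K) z) := by ring
    _ = _ := by rw [h3, one_mul]

/-- **translation invariance** -/
lemma MZ_add {K : Set (Fin n → ℝ)} (hK : IsCompact K) (hne : K.Nonempty) (c z : Fin n → ℝ) :
    MZ ((fun x => x + c) '' K) (z + c) = MZ K z := by
  have hsu : ∀ y, su ((fun x => x + c) '' K) y = su K y + c ⬝ᵥ y := by
    intro y
    refine le_antisymm (su_le (hne.image _) ?_) ?_
    · rintro _ ⟨x, hx, rfl⟩
      rw [add_dotProduct]
      linarith [le_su hK hx y]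
    · rw [← le_sub_iff_add_le]
      refine su_le hne fun x hx => ?_
      have := le_su (hK.image (f := fun x => x + c) (by fun_prop)) ⟨x, hx, rfl⟩ y
      rw [add_dotProduct] at this
      linarith
  unfold MZ gI
  congr 1
  · simp
  · refine lintegral_congr fun y => ?_
    rw [hsu, add_dotProduct]
    congr 2
    ring

/-- the standard identification -/
noncomputable def Sp (k l : ℕ) : ((Fin k → ℝ) × (Fin l → ℝ)) ≃ₗ[ℝ] (Fin (k + l) → ℝ) :=
  (LinearEquiv.sumArrowLequivProdArrow (Fin k) (Fin l) ℝ ℝ).symm.trans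
    (LinearEquiv.funCongrLeft ℝ ℝ finSumFinEquiv.symm)

lemma Sp_apply (p : (Fin k → ℝ) × (Fin l → ℝ)) (i : Fin (k + l)) :
    Sp k l p i = Sum.elim p.1 p.2 (finSumFinEquiv.symm i) := rfl

lemma Sp_dot (p q : (Fin k → ℝ) × (Fin l → ℝ)) :
    Sp k l p ⬝ᵥ Sp k l q = p.1 ⬝ᵥ q.1 + p.2 ⬝ᵥ q.2 := by
  unfold dotProduct
  rw [← Equiv.sum_comp finSumFinEquiv, Fintype.sum_sum_type]
  simp [Sp_apply]

lemma Sp_cont : Continuous (Sp k l) := LinearMap.continuous_of_finiteDimensional (Sp k l).toLinearMap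

lemma Sp_mp : MeasurePreserving (Sp k l)
    ((volume : Measure (Fin k → ℝ)).prod (volume : Measure (Fin l → ℝ))) volume := by
  have h1 := volume_measurePreserving_sumPiEquivProdPi_symm (ι := Fin k) (ι' := Fin l)
    (fun _ => ℝ)
  have h2 := volume_measurePreserving_piCongrLeft (ι := Fin (k + l)) (ι' := Fin k ⊕ Fin l)
    (fun _ => ℝ) finSumFinEquiv
  have h3 := h2.comp h1
  have e : (⇑(MeasurableEquiv.piCongrLeft (fun _ => ℝ) finSumFinEquiv) ∘
      ⇑(MeasurableEquiv.sumPiEquivProdPi fun _ : Fin k ⊕ Fin l => ℝ).symm) = Sp k l := by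
    funext p i
    obtain ⟨s, rfl⟩ := finSumFinEquiv.surjective i
    rw [Function.comp_apply, MeasurableEquiv.coe_piCongrLeft, Equiv.piCongrLeft_apply_apply,
      Sp_apply, Equiv.symm_apply_apply]
    cases s <;> rfl
  rw [e] at h3
  exact h3

lemma su_fsum {A : Set (Fin k → ℝ)} {B : Set (Fin l → ℝ)} (hA : IsCompact A) (hB : IsCompact B)
    (hA0 : A.Nonempty) (hB0 : B.Nonempty) (u : Fin k → ℝ) (v : Fin l → ℝ) :
    su (Sp k l '' fsum A B) (Sp k l (u, v)) = max (su A u) (su B v) := by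
  have hc := (fsum_compact hA hB).image Sp_cont
  have hne : (fsum A B).Nonempty := by
    unfold fsum
    rw [convexHull_nonempty_iff]
    exact (hA0.image _).inl
  refine le_antisymm (su_le (hne.image _) ?_) (max_le (su_le hA0 fun x hx => ?_)
    (su_le hB0 fun y hy => ?_))
  · rintro _ ⟨p, hp, rfl⟩
    rw [Sp_dot]
    have hconv : Convex ℝ {p : (Fin k → ℝ) × (Fin l → ℝ) | p.1 ⬝ᵥ u + p.2 ⬝ᵥ v ≤
        max (su A u) (su B v)} := by
      rintro ⟨x1, y1⟩ h1 ⟨x2, y2⟩ h2 a b ha hb hab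
      have h1' : x1 ⬝ᵥ u + y1 ⬝ᵥ v ≤ max (su A u) (su B v) := h1
      have h2' : x2 ⬝ᵥ u + y2 ⬝ᵥ v ≤ max (su A u) (su B v) := h2
      show (a • x1 + b • x2) ⬝ᵥ u + (a • y1 + b • y2) ⬝ᵥ v ≤ max (su A u) (su B v)
      simp only [add_dotProduct, smul_dotProduct, smul_eq_mul]
      set m := max (su A u) (su B v)
      have e1 := mul_le_mul_of_nonneg_left h1' ha
      have e2 := mul_le_mul_of_nonneg_left h2' hb
      have e3 : a * m + b * m = m := by rw [← add_mul, hab, one_mul]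
      linarith
    refine convexHull_min ?_ hconv hp
    rintro _ (⟨x, hx, rfl⟩ | ⟨y, hy, rfl⟩)
    · show x ⬝ᵥ u + (0 : Fin l → ℝ) ⬝ᵥ v ≤ _
      rw [zero_dotProduct, add_zero]
      exact (le_su hA hx u).trans (le_max_left _ _)
    · show (0 : Fin k → ℝ) ⬝ᵥ u + y ⬝ᵥ v ≤ _
      rw [zero_dotProduct, zero_add]
      exact (le_su hB hy v).trans (le_max_right _ _)
  · have h1 : Sp k l (x, 0) ∈ Sp k l '' fsum A B :=
      ⟨_, subset_convexHull ℝ _ (Or.inl ⟨x, hx, rfl⟩), rfl⟩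
    have := le_su hc h1 (Sp k l (u, v))
    rw [Sp_dot] at this
    simpa using this
  · have h1 : Sp k l (0, y) ∈ Sp k l '' fsum A B :=
      ⟨_, subset_convexHull ℝ _ (Or.inr ⟨y, hy, rfl⟩), rfl⟩
    have := le_su hc h1 (Sp k l (u, v))
    rw [Sp_dot] at this
    simpa using this

lemma gI_fsum {A : Set (Fin k → ℝ)} {B : Set (Fin l → ℝ)} (hA : IsCompact A) (hB : IsCompact B)
    (hA0 : A.Nonempty) (hB0 : B.Nonempty) (a : Fin k → ℝ) (b : Fin l → ℝ) :
    gI (su (Sp k l '' fsum A B)) (Sp k l (a, b)) =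
      ∫⁻ u : Fin k → ℝ, ∫⁻ v : Fin l → ℝ,
        ENNReal.ofReal (Real.exp (a ⬝ᵥ u + b ⬝ᵥ v - max (su A u) (su B v))) := by
  have hc := (fsum_compact hA hB).image Sp_cont
  unfold gI
  rw [← Sp_mp.lintegral_comp (gI_meas (su_cont hc) _), lintegral_prod]
  · refine lintegral_congr fun u => lintegral_congr fun v => ?_
    rw [su_fsum hA hB hA0 hB0, Sp_dot]
  · exact ((gI_meas (su_cont hc) _).comp Sp_mp.measurable).aemeasurable

/-- the dual inequality without restriction on the dimensions -/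
theorem dual' {h1 : (Fin k → ℝ) → ℝ} {h2 : (Fin l → ℝ) → ℝ} (hh1 : SL h1) (hh2 : SL h2)
    (a : Fin k → ℝ) (b : Fin l → ℝ) :
    ENNReal.ofReal (TT k l) * ((⨅ z, gI h1 z) * (⨅ z, gI h2 z)) ≤
      ∫⁻ u : Fin k → ℝ, ∫⁻ v : Fin l → ℝ,
        ENNReal.ofReal (Real.exp (a ⬝ᵥ u + b ⬝ᵥ v - max (h1 u) (h2 v))) := by
  rcases Nat.eq_zero_or_pos k with rfl | hk
  · rcases Nat.eq_zero_or_pos l with rfl | hl
    · have e1 : TT 0 0 = 1 := by unfold TT; norm_num
      have hv : (volume : Measure (Fin 0 → ℝ)) univ = 1 := by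
        rw [Measure.volume_pi_eq_dirac (fun i => i.elim0)]; simp
      have hd0 : ∀ x y : Fin 0 → ℝ, x ⬝ᵥ y = 0 := fun x y => by simp [dotProduct]
      have hz : ∀ {h : (Fin 0 → ℝ) → ℝ}, SL h → ∀ x, h x = 0 := fun {h} hh x => by
        rw [Subsingleton.elim x 0, hh.zero]
      have e2 : ∀ {h : (Fin 0 → ℝ) → ℝ}, SL h → (⨅ z, gI h z) ≤ 1 := by
        intro h hh
        refine (iInf_le _ 0).trans ?_
        unfold gI
        simp only [lintegral_unique, hv, hd0, hz hh]
        simp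
      rw [e1, ENNReal.ofReal_one, one_mul]
      refine (mul_le_mul' (e2 hh1) (e2 hh2)).trans ?_
      simp only [lintegral_unique, hv, hd0, hz hh1, hz hh2]
      simp
    · have h := dual hh2 hh1 hl b a
      have e1 : TT l 0 = TT 0 l := by
        unfold TT
        simp only [zero_add, add_zero]
        rw [mul_comm (((1:ℕ):ℝ) ^ 1)]
      rw [e1] at h
      rw [mul_comm (⨅ z, gI h1 z)]
      refine h.trans (le_of_eq ?_)
      rw [lintegral_lintegral_swap]
      · refine lintegral_congr fun u => lintegral_congr fun v => ?_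
        rw [max_comm, add_comm]
      · have hc1 := hh1.cont
        have hc2 := hh2.cont
        have : Continuous fun p : (Fin l → ℝ) × (Fin 0 → ℝ) =>
            Real.exp (b ⬝ᵥ p.1 + a ⬝ᵥ p.2 - max (h2 p.1) (h1 p.2)) := by fun_prop
        exact this.measurable.ennreal_ofReal.aemeasurable
  · exact dual hh1 hh2 hk a b

/-- the value of the simplex -/
noncomputable def sv (n : ℕ) : ℝ := ((n:ℝ) + 1) ^ (n + 1) / n.factorial

lemma sv_pos (n : ℕ) : 0 < sv n := by unfold sv; positivity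

lemma TT_sv (k l : ℕ) : TT k l * (k.factorial * l.factorial) * (sv k * sv l) =
    (k + l).factorial * sv (k + l) := by
  unfold TT sv
  have h1 : (0:ℝ) < k.factorial := by positivity
  have h2 : (0:ℝ) < l.factorial := by positivity
  have h3 : (0:ℝ) < (k + l).factorial := by positivity
  push_cast
  field_simp

/-- **free sums in product coordinates** -/
theorem two_std {A : Set (Fin k → ℝ)} {B : Set (Fin l → ℝ)} (hA : IsCompact A) (hB : IsCompact B)
    (hA0 : (0 : Fin k → ℝ) ∈ A) (hB0 : (0 : Fin l → ℝ) ∈ B) {c1 c2 : ℝ} (hc1 : 0 ≤ c1)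
    (_hc2 : 0 ≤ c2) (h1 : ∀ z, ENNReal.ofReal (c1 * sv k) ≤ MZ A z)
    (h2 : ∀ z, ENNReal.ofReal (c2 * sv l) ≤ MZ B z) (z : Fin (k + l) → ℝ) :
    ENNReal.ofReal (c1 * c2 * sv (k + l)) ≤ MZ (Sp k l '' fsum A B) z := by
  obtain ⟨⟨a, b⟩, rfl⟩ := (Sp k l).surjective z
  have hinf : ∀ {m : ℕ} {C : Set (Fin m → ℝ)} {c : ℝ≥0∞}, IsCompact C →
      (∀ z, c ≤ MZ C z) → c ≤ volume C * ⨅ z, gI (su C) z := by
    intro m C c hC h
    by_cases h0 : volume C = 0
    · have := h 0
      unfold MZ at this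
      rw [h0, zero_mul] at this
      rw [h0, zero_mul]
      exact this
    · rw [ENNReal.mul_iInf_of_ne h0 hC.measure_lt_top.ne]
      exact le_iInf h
  have g1 := hinf hA h1
  have g2 := hinf hB h2
  have hd := dual' (su_SL hA hA0) (su_SL hB hB0) a b
  have hv := vol_fsum hA hB
  rw [← gI_fsum hA hB ⟨0, hA0⟩ ⟨0, hB0⟩] at hd
  have hm := Sp_mp.measure_preimage
    ((fsum_compact hA hB).image Sp_cont).measurableSet.nullMeasurableSet
  rw [preimage_image_eq _ (Sp k l).injective] at hm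
  rw [hm] at hv
  have hN0 : ((k + l).factorial : ℝ≥0∞) ≠ 0 := by
    exact_mod_cast (Nat.factorial_pos _).ne'
  have hNt : ((k + l).factorial : ℝ≥0∞) ≠ ∞ := ENNReal.natCast_ne_top _
  rw [← ENNReal.mul_le_mul_iff_right hN0 hNt]
  calc ((k + l).factorial : ℝ≥0∞) * ENNReal.ofReal (c1 * c2 * sv (k + l))
      = ENNReal.ofReal (TT k l) * ((k.factorial : ℝ≥0∞) * (l.factorial : ℝ≥0∞)) *
        (ENNReal.ofReal (c1 * sv k) * ENNReal.ofReal (c2 * sv l)) := by
        have hk := sv_pos k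
        have hl := sv_pos l
        rw [← ENNReal.ofReal_natCast, ← ENNReal.ofReal_natCast, ← ENNReal.ofReal_natCast,
          ← ENNReal.ofReal_mul (by positivity), ← ENNReal.ofReal_mul (by positivity),
          ← ENNReal.ofReal_mul (TT_pos k l).le, ← ENNReal.ofReal_mul (by positivity),
          ← ENNReal.ofReal_mul (by have := TT_pos k l; positivity)]
        congr 1
        have := TT_sv k l
        linear_combination (-(c1 * c2)) * this
    _ ≤ ENNReal.ofReal (TT k l) * ((k.factorial : ℝ≥0∞) * (l.factorial : ℝ≥0∞)) *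
        ((volume A * ⨅ z, gI (su A) z) * (volume B * ⨅ z, gI (su B) z)) := by gcongr
    _ = (((k.factorial : ℝ≥0∞) * volume A) * ((l.factorial : ℝ≥0∞) * volume B)) *
        (ENNReal.ofReal (TT k l) * ((⨅ z, gI (su A) z) * ⨅ z, gI (su B) z)) := by ring
    _ ≤ (((k + l).factorial : ℝ≥0∞) * volume (Sp k l '' fsum A B)) *
        gI (su (Sp k l '' fsum A B)) (Sp k l (a, b)) := by gcongr
    _ = _ := by unfold MZ; ring

end Pool.Agent.TH808
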